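import Pool.Agent.Lib_helper41.LSP.Defs

/-! LSP, part M: the decay of the Fourier transform of the kernel, and `C_ρ ≥ 1/π`. -/

namespace Pool.Agent.LSP

open Pool.Agent.LEV Pool.Agent.LVB Pool.Agent.KSL
open Complex MeasureTheory Filter Topology
open scoped ENNReal

/-- the kernel as a function of the slope -/
theorem KHD_lip {T : ℝ} {ρ : ℝ → ℝ} (hρ : KerL T ρ) : ∃ K : ℝ, 0 ≤ K ∧ ∀ s t : ℝ,
    ‖(ρ s : ℂ) * (1 - (s : ℂ) * I) - (ρ t : ℂ) * (1 - (t : ℂ) * I)‖ ≤ K * |s - t| := by
  obtain ⟨L, hL⟩ := hρ.lip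
  have hT := hρ.T1
  have hL0 : 0 ≤ L := by
    have := hL 1 0
    have h2 := abs_nonneg (ρ 1 - ρ 0)
    simp at this
    linarith
  -- ρ is bounded
  have hb : ∀ s, |ρ s| ≤ L * (2 * T + 1) := by
    intro s
    by_cases hs : T < |s|
    · rw [hρ.supp s hs]
      simp only [abs_zero]
      positivity
    · push Not at hs
      have h1 : ρ (T + 1) = 0 := hρ.supp _ (by rw [abs_of_pos (by linarith)]; linarith)
      have h2 := hL s (T + 1)
      rw [h1, sub_zero] at h2
      refine h2.trans (mul_le_mul_of_nonneg_left ?_ hL0)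
      rw [abs_le] at hs ⊢
      constructor <;> linarith
  set B := L * (2 * T + 1) with hB
  have hB0 : 0 ≤ B := by positivity
  -- the case `|s| ≤ T`
  have key : ∀ s t : ℝ, |s| ≤ T →
      ‖(ρ s : ℂ) * (1 - (s : ℂ) * I) - (ρ t : ℂ) * (1 - (t : ℂ) * I)‖ ≤
        (L * (1 + T) + B) * |s - t| := by
    intro s t hs
    have e : (ρ s : ℂ) * (1 - (s : ℂ) * I) - (ρ t : ℂ) * (1 - (t : ℂ) * I) =
        ((ρ s - ρ t : ℝ) : ℂ) * (1 - (s : ℂ) * I) + (ρ t : ℂ) * (((t - s : ℝ) : ℂ) * I) := by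
      push_cast; ring
    rw [e]
    refine (norm_add_le _ _).trans ?_
    rw [norm_mul, norm_mul, norm_mul, Complex.norm_real, Complex.norm_real, Complex.norm_real,
      Complex.norm_I, mul_one, Real.norm_eq_abs, Real.norm_eq_abs, Real.norm_eq_abs]
    have h1 : ‖1 - (s : ℂ) * I‖ ≤ 1 + T := by
      refine (norm_sub_le _ _).trans ?_
      rw [norm_one, norm_mul, Complex.norm_I, mul_one, Complex.norm_real, Real.norm_eq_abs]
      linarith
    have h2 : |ρ s - ρ t| * ‖1 - (s : ℂ) * I‖ ≤ L * |s - t| * (1 + T) :=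
      mul_le_mul (hL s t) h1 (norm_nonneg _) (by positivity)
    have h3 : |ρ t| * |t - s| ≤ B * |s - t| := by
      rw [abs_sub_comm t s]
      exact mul_le_mul_of_nonneg_right (hb t) (abs_nonneg _)
    calc _ ≤ L * |s - t| * (1 + T) + B * |s - t| := add_le_add h2 h3
      _ = _ := by ring
  refine ⟨L * (1 + T) + B, by positivity, fun s t => ?_⟩
  by_cases hs : |s| ≤ T
  · exact key s t hs
  · by_cases ht : |t| ≤ T
    · rw [norm_sub_rev, abs_sub_comm]
      exact key t s ht
    · push Not at hs ht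
      rw [hρ.supp s hs, hρ.supp t ht]
      simp only [Complex.ofReal_zero, zero_mul, sub_self, norm_zero]
      positivity

theorem KHD_cont {T : ℝ} {ρ : ℝ → ℝ} (hρ : Ker T ρ) :
    Continuous (fun t : ℝ => (ρ t : ℂ) * (1 - (t : ℂ) * I)) := by
  have := hρ.cont
  fun_prop

theorem KHD_supp {T : ℝ} {ρ : ℝ → ℝ} (hρ : Ker T ρ) :
    HasCompactSupport (fun t : ℝ => (ρ t : ℂ) * (1 - (t : ℂ) * I)) := by
  refine HasCompactSupport.of_support_subset_isCompact (isCompact_Icc (a := -T) (b := T)) ?_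
  intro t ht
  by_contra hne
  apply ht
  have : T < |t| := by
    by_contra hle
    push Not at hle
    exact hne (abs_le.1 hle)
  simp [hρ.supp t this]

/-- the Fourier transform of the kernel decays like `1/u` -/
theorem kh_decay {T : ℝ} {ρ : ℝ → ℝ} (hρ : KerL T ρ) : ∃ C : ℝ, 0 < C ∧ ∀ u : ℝ, u ≠ 0 →
    ‖kh ρ u‖ ^ 2 ≤ C / u ^ 2 := by
  obtain ⟨K, hK0, hK⟩ := KHD_lip hρ
  have hT := hρ.T1
  have hc := KHD_cont hρ.toKer
  have hcs := KHD_supp hρ.toKer
  set f : ℝ → ℂ := fun t => (ρ t : ℂ) * (1 - (t : ℂ) * I) with hf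
  have hfi : Integrable f := hc.integrable_of_hasCompactSupport hcs
  have hf0 : ∀ t, T < |t| → f t = 0 := fun t ht => by simp [hf, hρ.supp t ht]
  refine ⟨(K * T) ^ 2 + 1, by positivity, fun u hu => ?_⟩
  set h : ℝ := 1 / (2 * u) with hh
  have huh : 2 * Real.pi * u * h = Real.pi := by rw [hh]; field_simp
  have hkh : kh ρ u = ∫ t : ℝ, f t * cexp (-(2 * Real.pi * u * t : ℝ) * I) := rfl
  have hE : ∀ t : ℝ, ‖cexp (-(2 * Real.pi * u * t : ℝ) * I)‖ = 1 := by
    intro t
    have : -((2 * Real.pi * u * t : ℝ) : ℂ) * I = ((-(2 * Real.pi * u * t) : ℝ) : ℂ) * I := by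
      push_cast; ring
    rw [this]
    exact Complex.norm_exp_ofReal_mul_I _
  have hshift : kh ρ u = - ∫ t : ℝ, f (t + h) * cexp (-(2 * Real.pi * u * t : ℝ) * I) := by
    rw [hkh, ← integral_add_right_eq_self (μ := volume)
      (fun t : ℝ => f t * cexp (-(2 * Real.pi * u * t : ℝ) * I)) h, ← integral_neg]
    congr 1
    ext t
    have e : -((2 * Real.pi * u * (t + h) : ℝ) : ℂ) * I =
        -((2 * Real.pi * u * t : ℝ) : ℂ) * I + -(Real.pi * I) := by
      have : (2 * Real.pi * u * (t + h) : ℝ) = 2 * Real.pi * u * t + Real.pi := by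
        rw [mul_add, huh]
      rw [this]
      push_cast
      ring
    rw [e, Complex.exp_add, Complex.exp_neg, Complex.exp_pi_mul_I]
    ring
  have hi1 : Integrable (fun t : ℝ => f t * cexp (-(2 * Real.pi * u * t : ℝ) * I)) := by
    refine hfi.mul_bdd (c := 1) ?_ ?_
    · exact (by fun_prop : Continuous fun t : ℝ =>
        cexp (-(2 * Real.pi * u * t : ℝ) * I)).aestronglyMeasurable
    · exact Eventually.of_forall fun t => (hE t).le
  have hfi2 : Integrable (fun t => f (t + h)) := hfi.comp_add_right h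
  have hi2 : Integrable (fun t : ℝ => f (t + h) * cexp (-(2 * Real.pi * u * t : ℝ) * I)) := by
    refine hfi2.mul_bdd (c := 1) ?_ ?_
    · exact (by fun_prop : Continuous fun t : ℝ =>
        cexp (-(2 * Real.pi * u * t : ℝ) * I)).aestronglyMeasurable
    · exact Eventually.of_forall fun t => (hE t).le
  have h2 : 2 * kh ρ u = ∫ t : ℝ, (f t - f (t + h)) * cexp (-(2 * Real.pi * u * t : ℝ) * I) := by
    have : ∀ t : ℝ, (f t - f (t + h)) * cexp (-(2 * Real.pi * u * t : ℝ) * I) =
        f t * cexp (-(2 * Real.pi * u * t : ℝ) * I) -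
          f (t + h) * cexp (-(2 * Real.pi * u * t : ℝ) * I) := fun t => by ring
    simp only [this]
    rw [integral_sub hi1 hi2, two_mul]
    nth_rw 2 [hshift]
    rw [hkh]
    ring
  have hind : ∀ t : ℝ, ‖(f t - f (t + h)) * cexp (-(2 * Real.pi * u * t : ℝ) * I)‖ ≤
      (Set.Icc (-T) T).indicator (fun _ => K * |h|) t +
        (Set.Icc (-T) T).indicator (fun _ => K * |h|) (t + h) := by
    intro t
    rw [norm_mul, hE, mul_one]
    have hKh : 0 ≤ K * |h| := by positivity
    have n1 : 0 ≤ (Set.Icc (-T) T).indicator (fun _ => K * |h|) t :=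
      Set.indicator_nonneg (fun _ _ => hKh) _
    have n2 : 0 ≤ (Set.Icc (-T) T).indicator (fun _ => K * |h|) (t + h) :=
      Set.indicator_nonneg (fun _ _ => hKh) _
    have hb : ‖f t - f (t + h)‖ ≤ K * |h| := by
      have := hK t (t + h)
      rwa [show t - (t + h) = -h by ring, abs_neg] at this
    by_cases h1 : t ∈ Set.Icc (-T) T
    · rw [Set.indicator_of_mem h1]
      linarith
    · by_cases h2 : t + h ∈ Set.Icc (-T) T
      · rw [Set.indicator_of_mem h2]
        linarith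
      · have e1 : f t = 0 := hf0 t (by
          by_contra hle; push Not at hle; exact h1 (abs_le.1 hle))
        have e2 : f (t + h) = 0 := hf0 _ (by
          by_contra hle; push Not at hle; exact h2 (abs_le.1 hle))
        rw [e1, e2, sub_zero, norm_zero]
        linarith
  have hI : Integrable (fun t : ℝ => (Set.Icc (-T) T).indicator (fun _ => K * |h|) t) :=
    (integrable_indicator_iff measurableSet_Icc).2 continuousOn_const.integrableOn_Icc
  have hI' : Integrable (fun t : ℝ => (Set.Icc (-T) T).indicator (fun _ => K * |h|) (t + h)) :=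
    hI.comp_add_right h
  have hIv : ∫ t : ℝ, (Set.Icc (-T) T).indicator (fun _ => K * |h|) t = 2 * T * (K * |h|) := by
    rw [integral_indicator measurableSet_Icc, setIntegral_const]
    simp only [smul_eq_mul, Measure.real, Real.volume_Icc]
    rw [ENNReal.toReal_ofReal (by linarith)]
    ring
  have hIv' : ∫ t : ℝ, (Set.Icc (-T) T).indicator (fun _ => K * |h|) (t + h) =
      2 * T * (K * |h|) := by
    rw [integral_add_right_eq_self (μ := volume)
      (fun t : ℝ => (Set.Icc (-T) T).indicator (fun _ => K * |h|) t) h, hIv]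
  have h3 : ‖(2 : ℂ) * kh ρ u‖ ≤ 4 * T * (K * |h|) := by
    rw [h2]
    refine (norm_integral_le_integral_norm _).trans ?_
    refine (integral_mono_of_nonneg (Eventually.of_forall fun t => norm_nonneg _)
      (hI.add hI') (Eventually.of_forall hind)).trans ?_
    simp only [Pi.add_apply]
    rw [integral_add hI hI', hIv, hIv']
    linarith
  rw [norm_mul, Complex.norm_ofNat] at h3
  have habs : |h| = 1 / (2 * |u|) := by
    rw [hh, abs_div, abs_mul, abs_one, abs_of_pos (by norm_num : (0 : ℝ) < 2)]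
  have hu0 : 0 < |u| := abs_pos.2 hu
  have h4 : ‖kh ρ u‖ ≤ K * T / |u| := by
    rw [habs] at h3
    have : 4 * T * (K * (1 / (2 * |u|))) = 2 * (K * T / |u|) := by field_simp; ring
    rw [this] at h3
    linarith
  calc ‖kh ρ u‖ ^ 2 ≤ (K * T / |u|) ^ 2 := pow_le_pow_left₀ (norm_nonneg _) h4 2
    _ = (K * T) ^ 2 / u ^ 2 := by rw [div_pow, sq_abs]
    _ ≤ _ := by gcongr; linarith

/-- the constant of the diagonal terms -/
theorem cr_lower {T : ℝ} {ρ : ℝ → ℝ} (hρ : Ker T ρ) : 1 / Real.pi ≤ Cr ρ := by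
  have hc := hρ.cont
  have hcs : HasCompactSupport ρ := by
    refine HasCompactSupport.of_support_subset_isCompact (isCompact_Icc (a := -T) (b := T)) ?_
    intro t ht
    by_contra hne
    apply ht
    have : T < |t| := by
      by_contra hle
      push Not at hle
      exact hne (abs_le.1 hle)
    exact hρ.supp t this
  have hi1 : Integrable ρ := hc.integrable_of_hasCompactSupport hcs
  have hi2 : Integrable (fun t : ℝ => (1 + t ^ 2) * ρ t ^ 2) := by
    refine Continuous.integrable_of_hasCompactSupport (by fun_prop) ?_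
    refine hcs.comp_left (g := fun x => x) rfl |>.mono ?_
    intro t ht
    by_contra hne
    apply ht
    have : ρ t = 0 := by simpa using hne
    simp [this]
  have hi3 : Integrable (fun t : ℝ => (1 + t ^ 2)⁻¹) := integrable_inv_one_add_sq
  have hpi := Real.pi_pos
  have h1 : 0 ≤ ∫ t : ℝ, (1 + t ^ 2) * (ρ t - (1 / Real.pi) * (1 + t ^ 2)⁻¹) ^ 2 :=
    integral_nonneg fun t => by positivity
  have h2 : ∀ t : ℝ, (1 + t ^ 2) * (ρ t - (1 / Real.pi) * (1 + t ^ 2)⁻¹) ^ 2 =
      (1 + t ^ 2) * ρ t ^ 2 - (2 / Real.pi) * ρ t + (1 / Real.pi) ^ 2 * (1 + t ^ 2)⁻¹ := by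
    intro t
    have : (1 + t ^ 2) ≠ 0 := by positivity
    field_simp
    ring
  simp only [h2] at h1
  have h6 : ∫ t : ℝ, ((1 + t ^ 2) * ρ t ^ 2 - (2 / Real.pi) * ρ t +
      (1 / Real.pi) ^ 2 * (1 + t ^ 2)⁻¹) = (∫ t : ℝ, ((1 + t ^ 2) * ρ t ^ 2 - (2 / Real.pi) * ρ t)) +
      ∫ t : ℝ, (1 / Real.pi) ^ 2 * (1 + t ^ 2)⁻¹ :=
    integral_add (hi2.sub (hi1.const_mul _)) (hi3.const_mul _)
  rw [h6, integral_sub hi2 (hi1.const_mul _), integral_const_mul, integral_const_mul, hρ.int,
    integral_univ_inv_one_add_sq] at h1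
  have h3 : (1 / Real.pi) ^ 2 * Real.pi = 1 / Real.pi := by field_simp
  rw [h3] at h1
  have h4 : Cr ρ = ∫ t : ℝ, (1 + t ^ 2) * ρ t ^ 2 := rfl
  rw [h4]
  have h5 : 2 / Real.pi = 1 / Real.pi + 1 / Real.pi := by ring
  linarith

end Pool.Agent.LSP
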