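import Pool.Agent.Lib_helper68.KSL.Defs
import Pool.Agent.Lib_helper68.KSLF.BET
import Pool.Agent.Lib_helper68.KSLF.GDL
import Pool.Agent.Lib_helper68.KSLF.SZF
import Pool.Agent.Lib_helper68.KSLF.WRQ
import Pool.Agent.Lib_helper68.KSLF.WRS

/-! LSP, part M: the number theory of KSL (helpers 87, 44, 12, 28) for mollifiers longer than the
square root: the same proofs with `-1/4 < δ` in place of `0 < δ`. -/

namespace Pool.Agent.LSP

open Pool.Agent.LEV Pool.Agent.LVB Pool.Agent.KSL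
open Pool.Agent.FG61 (mu phi cc ff AA Lam)
open Complex MeasureTheory Filter Topology UpperHalfPlane ModularGroup ProbabilityTheory
open scoped MatrixGroups Modular ENNReal ModularForm ComplexConjugate ContDiff

/-- sizesM of the parameters -/
theorem sizesM {δ : ℝ} (h0 : -(1 / 4) < δ) (h1 : δ < 1 / 4) {ε : ℝ} (hε : 0 < ε) : ∃ N₀ : ℕ, ∀ N : ℕ,
    N₀ ≤ N → 3 ≤ N ∧ 2 ≤ zz N ∧ zz N < MM δ N ∧ (zz N : ℝ) ≤ (N : ℝ) ^ ε ∧
      1 / ε ≤ Real.log (zz N) ∧ Real.log N ≤ 2 * Real.log (Real.log N) ^ 2 * Real.log (zz N) ∧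
      |Real.log (MM δ N) - (1 / 2 - δ) * Real.log N| ≤ ε ∧ 1 / ε ≤ Real.log (Real.log N) ∧
      Real.log (Real.log N) ≤ ε * Real.log (zz N) := by
  have hL : Tendsto (fun N : ℕ => Real.log N) atTop atTop :=
    Real.tendsto_log_atTop.comp tendsto_natCast_atTop_atTop
  have hl : Tendsto (fun N : ℕ => Real.log (Real.log N)) atTop atTop :=
    Real.tendsto_log_atTop.comp hL
  set c : ℝ := min (ε / 2) (1 / 2) with hc
  have hc0 : 0 < c := lt_min (by linarith) (by norm_num)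
  have hc1 : c ≤ ε / 2 := min_le_left _ _
  have hc2 : c ≤ 1 / 2 := min_le_right _ _
  have hd : ∀ᶠ N : ℕ in atTop, Real.log (Real.log N) ^ 3 ≤ c * Real.log N := by
    have h := (Real.isLittleO_pow_log_id_atTop (n := 3)).comp_tendsto hL
    filter_upwards [h.bound hc0, hL.eventually_ge_atTop 1, hl.eventually_ge_atTop 0]
      with N h2 h3 h4
    simp only [Function.comp, id, Real.norm_eq_abs] at h2
    rwa [abs_of_nonneg (by positivity), abs_of_nonneg (by linarith)] at h2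
  set K : ℝ := -Real.log (1 - Real.exp (-ε)) with hK
  have he1 : Real.exp (-ε) < 1 := by
    rw [Real.exp_lt_one_iff]; linarith
  have key : ∀ᶠ N : ℕ in atTop, 3 ≤ N ∧ 2 ≤ zz N ∧ zz N < MM δ N ∧ (zz N : ℝ) ≤ (N : ℝ) ^ ε ∧
      1 / ε ≤ Real.log (zz N) ∧ Real.log N ≤ 2 * Real.log (Real.log N) ^ 2 * Real.log (zz N) ∧
      |Real.log (MM δ N) - (1 / 2 - δ) * Real.log N| ≤ ε ∧ 1 / ε ≤ Real.log (Real.log N) ∧
      Real.log (Real.log N) ≤ ε * Real.log (zz N) := by
    filter_upwards [hd, eventually_ge_atTop 3, hL.eventually_ge_atTop (8 * Real.log 2),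
      hL.eventually_ge_atTop (4 * K), hl.eventually_ge_atTop 3, hl.eventually_ge_atTop (1 / ε)]
      with N k1 k2 k3 k4 k5 k6
    set L := Real.log (N : ℝ) with hLd
    set l := Real.log L with hld
    have hN0 : (0 : ℝ) < N := by
      have : (3 : ℝ) ≤ N := by exact_mod_cast k2
      linarith
    have hl2 : 0 < l ^ 2 := by positivity
    have hL0 : 0 < L := by
      have := Real.log_pos (show (1 : ℝ) < 2 by norm_num)
      linarith
    -- the exponent
    have e1 : l ≤ c * (L / l ^ 2) := by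
      rw [mul_div_assoc', le_div_iff₀ hl2]
      nlinarith [k1]
    have e0 : 0 < L / l ^ 2 := by positivity
    have e2 : 2 * l ≤ ε * (L / l ^ 2) := by
      have := mul_le_mul_of_nonneg_right hc1 e0.le
      linarith
    have e3 : 2 * l ≤ L / l ^ 2 := by
      have := mul_le_mul_of_nonneg_right hc2 e0.le
      linarith
    have hz : zN N = Real.exp (L / l ^ 2) := rfl
    have hzf : (zz N : ℝ) ≤ Real.exp (L / l ^ 2) := by
      unfold zz
      rw [← hz]
      exact Nat.floor_le (by rw [hz]; positivity)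
    have hln2 : Real.log 2 < 1 := by
      have := Real.log_two_lt_d9
      linarith
    have hz2 : 2 ≤ zz N := by
      unfold zz
      rw [hz]
      apply Nat.le_floor
      push_cast
      calc (2 : ℝ) = Real.exp (Real.log 2) := (Real.exp_log (by norm_num)).symm
        _ ≤ _ := Real.exp_le_exp.2 (by linarith)
    have hz2r : (2 : ℝ) ≤ zz N := by exact_mod_cast hz2
    have hlz : L / l ^ 2 - Real.log 2 ≤ Real.log (zz N) := by
      have h5 : Real.exp (L / l ^ 2) < zz N + 1 := by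
        unfold zz
        rw [← hz]
        exact Nat.lt_floor_add_one _
      have h6 : Real.exp (L / l ^ 2) ≤ 2 * zz N := by linarith
      have h7 := Real.log_le_log (Real.exp_pos _) h6
      rw [Real.log_exp, Real.log_mul (by norm_num) (by positivity)] at h7
      linarith
    have hlz2 : L / l ^ 2 / 2 ≤ Real.log (zz N) := by linarith
    have c1 : (1 : ℝ) / 4 ≤ 1 / 2 - δ := by linarith
    -- MM
    have hMe : (N : ℝ) ^ (1 / 2 - δ) = Real.exp ((1 / 2 - δ) * L) := by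
      rw [Real.rpow_def_of_pos hN0, mul_comm]
    have hMf : (MM δ N : ℝ) ≤ Real.exp ((1 / 2 - δ) * L) := by
      unfold MM
      rw [← hMe]
      exact Nat.floor_le (by positivity)
    have hMg : Real.exp ((1 / 2 - δ) * L) - 1 < MM δ N := by
      have := Nat.lt_floor_add_one ((N : ℝ) ^ (1 / 2 - δ))
      unfold MM
      rw [← hMe]
      linarith
    have hzM : (zz N : ℝ) < MM δ N := by
      have h5 : Real.exp (L / l ^ 2) ≤ Real.exp (L / 8) := by
        apply Real.exp_le_exp.2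
        apply div_le_div_of_nonneg_left hL0.le (by norm_num)
        nlinarith
      have h6 : (2 : ℝ) ≤ Real.exp (L / 8) := by
        calc (2 : ℝ) = Real.exp (Real.log 2) := (Real.exp_log (by norm_num)).symm
          _ ≤ _ := Real.exp_le_exp.2 (by linarith)
      have h7 : Real.exp (L / 8) * Real.exp (L / 8) ≤ Real.exp ((1 / 2 - δ) * L) := by
        rw [← Real.exp_add]
        apply Real.exp_le_exp.2
        nlinarith
      nlinarith
    have hMpos : (0 : ℝ) < MM δ N := by linarith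
    refine ⟨k2, hz2, by exact_mod_cast hzM, ?_, ?_, ?_, ?_, k6, ?_⟩
    · refine hzf.trans ?_
      rw [Real.rpow_def_of_pos hN0]
      apply Real.exp_le_exp.2
      rw [div_le_iff₀ hl2]
      have h5 : 1 / ε ≤ l ^ 2 := by
        have : l * 1 ≤ l * l := mul_le_mul_of_nonneg_left (by linarith) (by linarith)
        calc 1 / ε ≤ l := k6
          _ ≤ l ^ 2 := by rw [sq]; linarith
      rw [div_le_iff₀ hε] at h5
      have h6 := mul_le_mul_of_nonneg_left h5 hL0.le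
      calc L = L * 1 := (mul_one _).symm
        _ ≤ L * (l ^ 2 * ε) := h6
        _ = _ := by ring
    · have h5 : 1 / ε ≤ L / l ^ 2 / 2 := by
        rw [div_le_iff₀ hε]
        calc (1 : ℝ) ≤ l := by linarith
          _ ≤ L / l ^ 2 / 2 * ε := by linarith
      linarith
    · have h5 : L = 2 * l ^ 2 * (L / l ^ 2 / 2) := by
        field_simp
      calc L = 2 * l ^ 2 * (L / l ^ 2 / 2) := h5
        _ ≤ _ := mul_le_mul_of_nonneg_left hlz2 (by positivity)
    · have h5 : Real.log (MM δ N) ≤ (1 / 2 - δ) * L := by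
        have := Real.log_le_log hMpos hMf
        rwa [Real.log_exp] at this
      have h6 : (1 / 2 - δ) * L - ε ≤ Real.log (MM δ N) := by
        rw [Real.le_log_iff_exp_le hMpos]
        refine le_trans ?_ hMg.le
        rw [sub_eq_add_neg ((1 / 2 - δ) * L) ε, Real.exp_add]
        have h7 : 1 ≤ Real.exp ((1 / 2 - δ) * L) * (1 - Real.exp (-ε)) := by
          have h8 : (1 - Real.exp (-ε)) = Real.exp (-K) := by
            rw [hK, neg_neg, Real.exp_log (by linarith)]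
          rw [h8, ← Real.exp_add, Real.one_le_exp_iff]
          have h9 := mul_le_mul_of_nonneg_right c1 hL0.le
          linarith
        linarith
      rw [abs_le]
      constructor <;> linarith
    · have h5 := mul_le_mul_of_nonneg_left hlz2 hε.le
      linarith
  exact eventually_atTop.1 key

theorem be_smallM {δ : ℝ} (h0 : -(1 / 4) < δ) (h1 : δ < 1 / 4) {ε : ℝ} (hε : 0 < ε) : ∃ N₀ : ℕ,
    ∀ N : ℕ, N₀ ≤ N → (PK (MM δ N) 2).Nonempty ∧
      |be (zz N) (MM δ N) 2| ≤ ε * Real.log (MM δ N) ∧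
      ∑ p ∈ PK (MM δ N) 2, 1 / (p : ℝ) ≤ 2 / Real.log (MM δ N) := by
  obtain ⟨C, hC, hg⟩ := bet_g0
  obtain ⟨M₀, hM₀⟩ := bet_primes
  -- `2 (1 + log M) / M ≤ ε / 2` eventually
  have hlim : ∀ᶠ M : ℕ in atTop, 2 * (1 + Real.log (M : ℝ)) ≤ ε / 2 * M := by
    have h2 : Tendsto (fun x : ℝ => (1 + Real.log x) / x) atTop (𝓝 0) := by
      have h3 : Tendsto (fun x : ℝ => 1 / x) atTop (𝓝 0) := by
        simpa using tendsto_inv_atTop_zero (𝕜 := ℝ)
      have h4 : Tendsto (fun x : ℝ => Real.log x / x) atTop (𝓝 0) :=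
        Real.isLittleO_log_id_atTop.tendsto_div_nhds_zero
      have := h3.add h4
      simp only [add_zero] at this
      refine this.congr fun x => ?_
      ring
    have h3 := (h2.comp tendsto_natCast_atTop_atTop).eventually
      (ge_mem_nhds (by positivity : (0 : ℝ) < ε / 4))
    filter_upwards [h3, eventually_ge_atTop 1] with M h4 h5
    have hM0 : (0 : ℝ) < M := by exact_mod_cast h5
    simp only [Function.comp] at h4
    rw [div_le_iff₀ hM0] at h4
    linarith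
  obtain ⟨M₁, hM₁⟩ := eventually_atTop.1 hlim
  set B : ℝ := max 1 (max (Real.log (max M₀ M₁ + 1 : ℕ)) (4 * C / ε)) with hB
  have hB1 : 1 ≤ B := le_max_left _ _
  obtain ⟨N₀, hN₀⟩ := sizesM h0 h1 (ε := 1 / B) (by positivity)
  refine ⟨N₀, fun N hN => ?_⟩
  obtain ⟨-, hz, hzM, -, hlz, -⟩ := hN₀ N hN
  rw [one_div_one_div] at hlz
  set z := zz N with hzd
  set M := MM δ N with hMd
  have hz2 : (2 : ℝ) ≤ z := by exact_mod_cast hz
  have hlz0 : 0 < Real.log z := Real.log_pos (by linarith)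
  have hMz : (z : ℝ) ≤ M := by exact_mod_cast hzM.le
  have hM0 : (0 : ℝ) < M := by linarith
  have hLM : Real.log z ≤ Real.log M := Real.log_le_log (by linarith) hMz
  have hMM : max M₀ M₁ ≤ M := by
    have h2 : Real.log ((max M₀ M₁ + 1 : ℕ) : ℝ) ≤ Real.log M :=
      ((le_max_left _ _).trans (le_max_right _ _)).trans (hlz.trans hLM)
    rw [Real.log_le_log_iff (by positivity) hM0] at h2
    have : max M₀ M₁ + 1 ≤ M := by exact_mod_cast h2
    omega
  obtain ⟨-, hlow, hup⟩ := hM₀ M ((le_max_left _ _).trans hMM)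
  have hlarge := hM₁ M ((le_max_right _ _).trans hMM)
  have hL : 0 < Real.log M := hlz0.trans_le hLM
  have hcard : (0 : ℝ) < (PK M 2).card := lt_of_lt_of_le (by positivity) hlow
  refine ⟨?_, ?_, ?_⟩
  · rw [← Finset.card_pos]
    exact_mod_cast hcard
  · unfold be
    rw [abs_div, abs_of_pos hcard, div_le_iff₀ hcard]
    have h2 := hg z M hz (by omega)
    have h3 : C * M / Real.log z ≤ ε / 4 * M := by
      rw [div_le_iff₀ hlz0]
      have h4 : 4 * C / ε ≤ Real.log z :=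
        ((le_max_right _ _).trans (le_max_right _ _)).trans hlz
      rw [div_le_iff₀ hε] at h4
      nlinarith
    have h4 : ε * (M : ℝ) / 2 ≤ ε * Real.log M * (PK M 2).card := by
      calc ε * (M : ℝ) / 2 = ε * Real.log M * (M / (2 * Real.log M)) := by field_simp
        _ ≤ _ := mul_le_mul_of_nonneg_left hlow (by positivity)
    linarith
  · calc ∑ p ∈ PK M 2, 1 / (p : ℝ) ≤ ∑ p ∈ PK M 2, 1 / (M : ℝ) := by
          refine Finset.sum_le_sum fun p hp => ?_
          unfold PK at hp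
          simp only [Finset.mem_filter, Finset.mem_Ioc] at hp
          exact one_div_le_one_div_of_le hM0 (by exact_mod_cast hp.1.1.le)
      _ = (PK M 2).card / M := by rw [Finset.sum_const, nsmul_eq_mul]; ring
      _ ≤ (2 * M / Real.log M) / M := by gcongr
      _ = 2 / Real.log M := by field_simp

theorem wr_asympM {δ : ℝ} (h0 : -(1 / 4) < δ) (h1 : δ < 1 / 4) {ε : ℝ} (hε : 0 < ε) : ∃ N₀ : ℕ,
    ∀ N : ℕ, N₀ ≤ N → ∀ r ∈ RO (zz N) (MM δ N), Squarefree r →
      (r : ℝ) ≤ MM δ N * (N : ℝ) ^ (-ε) →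
      |phi r * Real.log (MM δ N) * Vz (zz N) * (mu r * wr (zz N) (MM δ N) 2 r) - 1| ≤ ε := by
  obtain ⟨N₁, hN₁⟩ := sizesM h0 h1 (ε := 1) one_pos
  obtain ⟨N₂, hN₂⟩ := be_smallM h0 h1 (ε := ε / 4) (by positivity)
  obtain ⟨N₃, hN₃⟩ := aa_rough (ε := ε / 2) (ε' := ε) (by positivity) hε
  refine ⟨max N₁ (max N₂ N₃), fun N hN r hr hsq hrs => ?_⟩
  obtain ⟨a1, a2, a3, -, a5, -, -, -, -⟩ := hN₁ N ((le_max_left _ _).trans hN)
  obtain ⟨-, b2, b3⟩ := hN₂ N (((le_max_left _ _).trans (le_max_right _ _)).trans hN)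
  have c1 := hN₃ N (((le_max_right _ _).trans (le_max_right _ _)).trans hN)
  obtain ⟨hr1, hrM, hrr⟩ := WRS_mem_RO.1 hr
  have hM3 : 3 ≤ MM δ N := by omega
  have hL : 0 < Real.log (MM δ N) := Real.log_pos (by exact_mod_cast (show 1 < MM δ N by omega))
  have hMN : MM δ N ≤ N := by
    unfold MM
    apply Nat.floor_le_of_le
    have hN1 : (1 : ℝ) ≤ N := by exact_mod_cast (show 1 ≤ N by omega)
    calc (N : ℝ) ^ (1 / 2 - δ) ≤ (N : ℝ) ^ (1 : ℝ) :=
          Real.rpow_le_rpow_of_exponent_le hN1 (by linarith)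
      _ = N := Real.rpow_one _
  rw [WRS_key a3.le hL.ne' hr hsq]
  have hr0 : (0 : ℝ) < r := by exact_mod_cast (show 0 < r by omega)
  have hN0 : (0 : ℝ) < N := by exact_mod_cast (show 0 < N by omega)
  have hx : (N : ℝ) ^ ε ≤ (MM δ N : ℝ) / r := by
    rw [le_div_iff₀ hr0]
    calc (N : ℝ) ^ ε * r ≤ (N : ℝ) ^ ε * (MM δ N * (N : ℝ) ^ (-ε)) := by gcongr
      _ = MM δ N * ((N : ℝ) ^ ε * (N : ℝ) ^ (-ε)) := by ring
      _ = MM δ N := by rw [← Real.rpow_add hN0, add_neg_cancel, Real.rpow_zero, mul_one]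
  have hAA := c1 r hsq hrr (hrM.trans hMN) _ hx
  have hphi : 0 < phi r := WRS_phi_pos hr1
  have hV := WRS_Vz_pos (zz N)
  set x := AA (r * Pz (zz N)) ((MM δ N : ℝ) / r) with hxdef
  have hmain : |phi r * Vz (zz N) / r * x - 1| ≤ ε / 2 := by
    have e1 : phi r * Vz (zz N) / r * x - 1 =
        phi r * Vz (zz N) / r * (x - r / phi r / Vz (zz N)) := by
      field_simp
    rw [e1, abs_mul, abs_of_pos (by positivity)]
    calc phi r * Vz (zz N) / r * |x - r / phi r / Vz (zz N)| ≤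
        phi r * Vz (zz N) / r * (ε / 2 * (r / phi r / Vz (zz N))) := by gcongr
      _ = ε / 2 := by field_simp
  have hone : |(if r = 1 then Vz (zz N) * be (zz N) (MM δ N) 2 *
      ∑ p ∈ PK (MM δ N) 2, 1 / (p : ℝ) else 0 : ℝ)| ≤ ε / 2 := by
    split_ifs
    · have := WRS_one_small hV.le (WRS_Vz_le (zz N)) hL (by positivity) b2
        (Finset.sum_nonneg fun p _ => by positivity) b3
      linarith
    · rw [abs_zero]; positivity
  calc _ = |(phi r * Vz (zz N) / r * x - 1) - (if r = 1 then Vz (zz N) * be (zz N) (MM δ N) 2 *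
      ∑ p ∈ PK (MM δ N) 2, 1 / (p : ℝ) else 0 : ℝ)| := by congr 1; ring
    _ ≤ |phi r * Vz (zz N) / r * x - 1| + |(if r = 1 then Vz (zz N) * be (zz N) (MM δ N) 2 *
      ∑ p ∈ PK (MM δ N) 2, 1 / (p : ℝ) else 0 : ℝ)| := abs_sub _ _
    _ ≤ ε / 2 + ε / 2 := add_le_add hmain hone
    _ = ε := by ring

theorem wr_upperM : ∃ C : ℝ, 0 < C ∧ ∀ δ : ℝ, -(1 / 4) < δ → δ < 1 / 4 → ∃ N₀ : ℕ, ∀ N : ℕ, N₀ ≤ N →
    (∀ r ∈ RO (zz N) (MM δ N),
      |phi r * Real.log (MM δ N) * Vz (zz N) * wr (zz N) (MM δ N) 2 r| ≤ C) ∧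
    (∀ r ∈ PK (MM δ N) 2, |r * wr (zz N) (MM δ N) 2 r| ≤ 1) := by
  obtain ⟨C₁, hC₁, hAA⟩ := aa_bound
  refine ⟨C₁ + 1, by positivity, fun δ h0 h1 => ?_⟩
  obtain ⟨N₁, hN₁⟩ := sizesM h0 h1 (ε := 1) one_pos
  obtain ⟨N₂, hN₂⟩ := be_smallM h0 h1 (ε := 1 / 2) (by norm_num)
  refine ⟨max N₁ N₂, fun N hN => ?_⟩
  obtain ⟨a1, a2, a3, -, a5, -, -, -, -⟩ := hN₁ N ((le_max_left _ _).trans hN)
  obtain ⟨-, b2, b3⟩ := hN₂ N ((le_max_right _ _).trans hN)
  have hM3 : 3 ≤ MM δ N := by omega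
  have hL : 0 < Real.log (MM δ N) := Real.log_pos (by exact_mod_cast (show 1 < MM δ N by omega))
  have hV := WRS_Vz_pos (zz N)
  constructor
  · intro r hr
    obtain ⟨hr1, hrM, hrr⟩ := WRS_mem_RO.1 hr
    by_cases hsq : Squarefree r
    · have hkey := WRS_key a3.le hL.ne' hr hsq
      have hmu := WRS_mu_sq hsq
      have habs : |mu r| = 1 := by
        have h2 : |mu r| * |mu r| = 1 := by rw [← abs_mul, hmu, abs_one]
        nlinarith [abs_nonneg (mu r), WRS_mu_abs r]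
      have e1 : |phi r * Real.log (MM δ N) * Vz (zz N) * wr (zz N) (MM δ N) 2 r| =
          |phi r * Real.log (MM δ N) * Vz (zz N) * (mu r * wr (zz N) (MM δ N) 2 r)| := by
        rw [abs_mul _ (wr _ _ _ _), abs_mul _ (mu r * _), abs_mul (mu r), habs, one_mul]
      rw [e1, hkey]
      have hr0 : (0 : ℝ) < r := by exact_mod_cast (show 0 < r by omega)
      have hphi : 0 < phi r := WRS_phi_pos hr1
      have hcop : Nat.Coprime r (Pz (zz N)) := WRS_cop_Pz.2 hrr
      have hPz := WRS_Pz_pos (zz N)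
      have hPz' : (0 : ℝ) < Pz (zz N) := by exact_mod_cast hPz
      have hphi2 : phi (r * Pz (zz N)) = phi r * (Pz (zz N) * Vz (zz N)) := by
        rw [← WRS_phi_Pz]
        show ((Nat.totient (r * Pz (zz N)) : ℕ) : ℝ) = _
        rw [Nat.totient_mul hcop]
        push_cast
        rfl
      have hA := hAA (r * Pz (zz N)) (Nat.mul_pos hr1 hPz) ((MM δ N : ℝ) / r)
      rw [hphi2] at hA
      have hmain : |phi r * Vz (zz N) / r * AA (r * Pz (zz N)) ((MM δ N : ℝ) / r)| ≤ C₁ := by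
        rw [abs_mul, abs_of_pos (by positivity)]
        calc phi r * Vz (zz N) / r * |AA (r * Pz (zz N)) ((MM δ N : ℝ) / r)| ≤
            phi r * Vz (zz N) / r * (C₁ * (((r * Pz (zz N) : ℕ) : ℝ) /
              (phi r * (Pz (zz N) * Vz (zz N))))) := by gcongr
          _ = C₁ := by
            push_cast
            field_simp
      have hone : |(if r = 1 then Vz (zz N) * be (zz N) (MM δ N) 2 *
          ∑ p ∈ PK (MM δ N) 2, 1 / (p : ℝ) else 0 : ℝ)| ≤ 1 := by
        split_ifs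
        · have := WRS_one_small hV.le (WRS_Vz_le (zz N)) hL (by norm_num) b2
            (Finset.sum_nonneg fun p _ => by positivity) b3
          linarith
        · rw [abs_zero]; norm_num
      exact (abs_sub _ _).trans (add_le_add hmain hone)
    · rw [WRS_wr_nsq hsq, mul_zero, abs_zero]
      positivity
  · intro r hr
    rw [WRS_wr_PK a3.le (by omega) hr, abs_neg, abs_div, abs_of_pos hL, div_le_one hL]
    linarith

theorem gd_lowerM {δ : ℝ} (h0 : -(1 / 4) < δ) (h1 : δ < 1 / 4) {ε : ℝ} (hε : 0 < ε) : ∃ N₀ : ℕ,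
    ∀ N : ℕ, N₀ ≤ N → ∀ (A : ℕ), 1 ≤ A → ∀ a : ℕ → ℝ, (∀ k, a k ≠ 0 → smooth (zz N) k ∧ k ≤ A) →
      ∀ D : ℝ, 1 ≤ D → D ≤ MM δ N * (N : ℝ) ^ (-ε) →
      cn (zz N) A a * ((1 - ε) * Real.log D - Real.log A) / Real.log (MM δ N) ^ 2 ≤
        GD (wA (zz N) (MM δ N) 2 A a) D := by
  obtain ⟨N₁, hN₁⟩ := sizesM h0 h1 (ε := 1) one_pos
  have hε1 : 0 < min (ε / 2) 1 := by positivity
  obtain ⟨N₂, hN₂⟩ := wr_asympM h0 h1 (ε := min (ε / 2) (min ε 1)) (by positivity)
  refine ⟨max N₁ N₂, fun N hN A hA a ha D hD hDM => ?_⟩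
  obtain ⟨a1, a2, a3, -, a5, -, -, -, -⟩ := hN₁ N ((le_max_left _ _).trans hN)
  have b1 := hN₂ N ((le_max_right _ _).trans hN)
  have hM3 : 3 ≤ MM δ N := by omega
  have hL : 0 < Real.log (MM δ N) := Real.log_pos (by exact_mod_cast (show 1 < MM δ N by omega))
  have hN1 : (1 : ℝ) ≤ N := by exact_mod_cast (show 1 ≤ N by omega)
  have hM0 : (0 : ℝ) < MM δ N := by exact_mod_cast (show 0 < MM δ N by omega)
  have hcn := GDL_cn_nonneg (zz N) A a
  have hVp := GDL_Vz_pos (zz N)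
  -- `GD` is nonnegative
  have hGD0 : 0 ≤ GD (wA (zz N) (MM δ N) 2 A a) D := by
    unfold GD
    exact Finset.sum_nonneg fun q _ => mul_nonneg (GDL_phi_nonneg q) (sq_nonneg _)
  by_cases hneg : (1 - ε) * Real.log D - Real.log A ≤ 0
  · refine le_trans ?_ hGD0
    apply div_nonpos_of_nonpos_of_nonneg
    · exact mul_nonpos_of_nonneg_of_nonpos hcn hneg
    · positivity
  push Not at hneg
  have hlogD : 0 ≤ Real.log D := Real.log_nonneg hD
  have hA1 : (1 : ℝ) ≤ A := by exact_mod_cast hA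
  have hlogA : 0 ≤ Real.log A := Real.log_nonneg hA1
  have hAD : Real.log A < Real.log D := by nlinarith
  have hAD' : (A : ℝ) < D := (Real.log_lt_log_iff (by linarith) (by linarith)).1 hAD
  set ε₁ : ℝ := min (ε / 2) (min ε 1) with hε₁
  have hε₁a : ε₁ ≤ ε / 2 := min_le_left _ _
  have hε₁b : ε₁ ≤ ε := (min_le_right _ _).trans (min_le_left _ _)
  have hε₁c : ε₁ ≤ 1 := (min_le_right _ _).trans (min_le_right _ _)
  have hε₁0 : 0 < ε₁ := by positivity
  -- the size of `D`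
  have hDM2 : D ≤ MM δ N := by
    refine hDM.trans ?_
    have : (N : ℝ) ^ (-ε) ≤ 1 := Real.rpow_le_one_of_one_le_of_nonpos hN1 (by linarith)
    calc (MM δ N : ℝ) * (N : ℝ) ^ (-ε) ≤ MM δ N * 1 := by gcongr
      _ = MM δ N := mul_one _
  have hDM3 : D ≤ MM δ N * (N : ℝ) ^ (-ε₁) := by
    refine hDM.trans ?_
    have : (N : ℝ) ^ (-ε) ≤ (N : ℝ) ^ (-ε₁) :=
      Real.rpow_le_rpow_of_exponent_le hN1 (by linarith)
    gcongr
  have hQ : ⌊D⌋₊ ≤ QA (MM δ N) 2 A := by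
    have h2 : ⌊D⌋₊ ≤ MM δ N := Nat.floor_le_of_le hDM2
    unfold QA
    nlinarith
  -- the splitting
  have hGD : GD (wA (zz N) (MM δ N) 2 A a) D = ∑ q ∈ Finset.Icc 1 (QA (MM δ N) 2 A),
      (if q ≤ ⌊D⌋₊ then phi q * wA (zz N) (MM δ N) 2 A a q ^ 2 else 0) := by
    unfold GD
    rw [← Finset.sum_filter]
    apply Finset.sum_congr _ fun _ _ => rfl
    ext q
    rw [Finset.mem_filter, Finset.mem_Icc, Finset.mem_Icc]
    omega
  rw [hGD, GDL_split ha]
  have hinner : ∀ u ∈ Finset.Icc 1 A, (1 - ε₁) ^ 2 / (Real.log (MM δ N) ^ 2 * Vz (zz N)) *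
      (Real.log D - Real.log A) * (phi u * al A a u ^ 2) ≤
      ∑ r ∈ Finset.Icc 1 (2 * MM δ N), (if u * r ≤ ⌊D⌋₊ then
        (phi u * al A a u ^ 2) * (phi r * wr (zz N) (MM δ N) 2 r ^ 2) else 0) := by
    intro u hu
    rw [Finset.mem_Icc] at hu
    have hu1 : (1 : ℝ) ≤ u := by exact_mod_cast hu.1
    have hu0 : (0 : ℝ) < u := by linarith
    have huA : (u : ℝ) ≤ A := by exact_mod_cast hu.2
    have hx1 : 1 ≤ D / u := by
      rw [le_div_iff₀ hu0]
      linarith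
    have hxD : D / u ≤ D := div_le_self (by linarith) hu1
    have hlow := GDL_inner_low (z := zz N) (M := MM δ N) rfl hL (κ := 1 - ε₁) (by linarith)
      hx1 (by linarith) (by
        intro r hr hsq
        obtain ⟨hr1, hrx, hrr⟩ := GDL_mem_RO.1 hr
        have hrx' : (r : ℝ) ≤ D / u := (Nat.le_floor_iff (by linarith)).1 hrx
        have hrM : r ≤ MM δ N := by
          have : (r : ℝ) ≤ MM δ N := by linarith
          exact_mod_cast this
        have := b1 r (GDL_mem_RO.2 ⟨hr1, hrM, hrr⟩) hsq (by linarith)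
        rw [abs_le] at this
        linarith [this.1])
    have e1 : ∑ r ∈ Finset.Icc 1 (2 * MM δ N), (if u * r ≤ ⌊D⌋₊ then
        (phi u * al A a u ^ 2) * (phi r * wr (zz N) (MM δ N) 2 r ^ 2) else 0) =
        (phi u * al A a u ^ 2) * ∑ r ∈ (Finset.Icc 1 (2 * MM δ N)).filter
          (fun r : ℕ => (r : ℝ) ≤ D / u), phi r * wr (zz N) (MM δ N) 2 r ^ 2 := by
      rw [Finset.mul_sum, Finset.sum_filter]
      apply Finset.sum_congr rfl
      intro r _
      have hiff : u * r ≤ ⌊D⌋₊ ↔ (r : ℝ) ≤ D / u := by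
        rw [Nat.le_floor_iff (by linarith), le_div_iff₀ hu0]
        push_cast
        rw [mul_comm]
      by_cases hc : (r : ℝ) ≤ D / u
      · rw [if_pos (hiff.2 hc), if_pos hc]
      · rw [if_neg (fun h => hc (hiff.1 h)), if_neg hc]
    rw [e1, mul_comm]
    apply mul_le_mul_of_nonneg_left _ (mul_nonneg (GDL_phi_nonneg u) (sq_nonneg _))
    refine le_trans ?_ hlow
    have e2 : Real.log D - Real.log A ≤ Real.log (D / u) := by
      rw [Real.log_div (by linarith) hu0.ne']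
      have := Real.log_le_log hu0 huA
      linarith
    gcongr
  refine le_trans ?_ (Finset.sum_le_sum hinner)
  rw [← Finset.mul_sum, (phi_al ha).2]
  have e3 : (1 - ε₁) ^ 2 / (Real.log (MM δ N) ^ 2 * Vz (zz N)) *
      (Real.log D - Real.log A) * (Vz (zz N) * cn (zz N) A a) =
      cn (zz N) A a * ((1 - ε₁) ^ 2 * (Real.log D - Real.log A)) / Real.log (MM δ N) ^ 2 := by
    field_simp
  rw [e3]
  have e4 : (1 - ε) * Real.log D - Real.log A ≤ (1 - ε₁) ^ 2 * (Real.log D - Real.log A) := by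
    have e5 : 1 - ε ≤ (1 - ε₁) ^ 2 := by nlinarith
    have e6 : (1 - ε₁) ^ 2 ≤ 1 := by nlinarith
    nlinarith
  gcongr

theorem gd_upperM : ∃ C : ℝ, 0 < C ∧ ∀ δ : ℝ, -(1 / 4) < δ → δ < 1 / 4 → ∃ N₀ : ℕ, ∀ N : ℕ, N₀ ≤ N →
    ∀ (A : ℕ) (a : ℕ → ℝ), (∀ k, a k ≠ 0 → smooth (zz N) k ∧ k ≤ A) →
      ∑ q ∈ Finset.Icc 1 (QA (MM δ N) 2 A), phi q * wA (zz N) (MM δ N) 2 A a q ^ 2 ≤
        C * cn (zz N) A a / Real.log (MM δ N) := by
  classical
  obtain ⟨C₁, hC₁, hwr⟩ := wr_upperM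
  obtain ⟨C₂, hC₂, hrs⟩ := rsum_up
  obtain ⟨c, C₃, hc, hC₃, hvz⟩ := vz_bounds
  refine ⟨2 * C₁ ^ 2 * C₂ / c + 2, by positivity, fun δ h0 h1 => ?_⟩
  obtain ⟨N₁, hN₁⟩ := sizesM h0 h1 (ε := 1) one_pos
  obtain ⟨N₂, hN₂⟩ := hwr δ h0 h1
  obtain ⟨N₃, hN₃⟩ := be_smallM h0 h1 (ε := 1) one_pos
  refine ⟨max N₁ (max N₂ N₃), fun N hN A a ha => ?_⟩
  obtain ⟨a1, a2, a3, -, a5, -, -, -, -⟩ := hN₁ N ((le_max_left _ _).trans hN)
  obtain ⟨b1, b2⟩ := hN₂ N (((le_max_left _ _).trans (le_max_right _ _)).trans hN)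
  obtain ⟨-, -, c3⟩ := hN₃ N (((le_max_right _ _).trans (le_max_right _ _)).trans hN)
  have hM3 : 3 ≤ MM δ N := by omega
  have hL : 0 < Real.log (MM δ N) := Real.log_pos (by exact_mod_cast (show 1 < MM δ N by omega))
  have hlz : 0 < Real.log (zz N) := Real.log_pos (by exact_mod_cast (show 1 < zz N by omega))
  have hzL : Real.log (zz N) ≤ Real.log (MM δ N) :=
    Real.log_le_log (by exact_mod_cast (show 0 < zz N by omega)) (by exact_mod_cast a3.le)
  have hcn := GDL_cn_nonneg (zz N) A a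
  have hVp := GDL_Vz_pos (zz N)
  have hV1 := GDL_Vz_le (zz N)
  set L := Real.log (MM δ N) with hLdef
  set V := Vz (zz N) with hVdef
  -- the inner sum
  have hin : ∑ r ∈ Finset.Icc 1 (2 * MM δ N), phi r * wr (zz N) (MM δ N) 2 r ^ 2 ≤
      C₁ ^ 2 / (L ^ 2 * V ^ 2) * ∑ r ∈ RO (zz N) (MM δ N), mu r ^ 2 / phi r +
        ∑ p ∈ PK (MM δ N) 2, 1 / (p : ℝ) := by
    have hdis : Disjoint (RO (zz N) (MM δ N)) (PK (MM δ N) 2) := by
      rw [Finset.disjoint_left]
      intro r hr hr'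
      have e1 := (GDL_mem_RO.1 hr).2.1
      have e2 := (GDL_mem_PK.1 hr').1
      omega
    have hsub : RO (zz N) (MM δ N) ∪ PK (MM δ N) 2 ⊆ Finset.Icc 1 (2 * MM δ N) := by
      intro r hr
      rw [Finset.mem_Icc]
      rcases Finset.mem_union.1 hr with h | h
      · obtain ⟨e1, e2, -⟩ := GDL_mem_RO.1 h
        omega
      · obtain ⟨e1, e2, e3⟩ := GDL_mem_PK.1 h
        omega
    have hzero : ∀ r ∈ Finset.Icc 1 (2 * MM δ N), r ∉ RO (zz N) (MM δ N) ∪ PK (MM δ N) 2 →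
        phi r * wr (zz N) (MM δ N) 2 r ^ 2 = 0 := by
      intro r hr hr'
      rw [Finset.mem_union, not_or] at hr'
      rw [Finset.mem_Icc] at hr
      have hw : wr (zz N) (MM δ N) 2 r = 0 := by
        by_contra hne
        obtain ⟨e1, e2, -, -⟩ := wr_supp hne
        have hrM : MM δ N < r := by
          by_contra hle
          exact hr'.1 (GDL_mem_RO.2 ⟨e2, not_lt.1 hle, e1⟩)
        apply hne
        unfold wr
        apply Finset.sum_eq_zero
        intro m hm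
        rw [Finset.mem_Icc] at hm
        have h3 : MM δ N < r * m := lt_of_lt_of_le hrM (Nat.le_mul_of_pos_right r (by omega))
        have h4 : r * m ∉ PK (MM δ N) 2 := by
          intro hP
          obtain ⟨_, hP2, hP3⟩ := GDL_mem_PK.1 hP
          rcases (Nat.dvd_prime hP3).1 (Dvd.intro m rfl) with h5 | h5
          · omega
          · rw [← h5] at hP
            exact hr'.2 hP
        unfold yE gE
        rw [if_neg (not_le.2 h3), if_neg h4]
        simp
      rw [hw]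
      ring
    rw [← Finset.sum_subset hsub hzero, Finset.sum_union hdis]
    apply add_le_add
    · rw [Finset.mul_sum]
      apply Finset.sum_le_sum
      intro r hr
      have hr1 := (GDL_mem_RO.1 hr).1
      have hphi := GDL_phi_pos hr1
      by_cases hw : wr (zz N) (MM δ N) 2 r = 0
      · rw [hw]
        have : 0 ≤ C₁ ^ 2 / (L ^ 2 * V ^ 2) * (mu r ^ 2 / phi r) := by positivity
        simpa using this
      obtain ⟨-, -, hsq, -⟩ := wr_supp hw
      rw [GDL_mu_sq hsq, div_mul_div_comm, mul_one, le_div_iff₀ (by positivity)]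
      have e1 := b1 r hr
      have e2 : (phi r * L * V * wr (zz N) (MM δ N) 2 r) ^ 2 ≤ C₁ ^ 2 := by
        rw [← sq_abs]
        exact pow_le_pow_left₀ (abs_nonneg _) e1 2
      calc phi r * wr (zz N) (MM δ N) 2 r ^ 2 * (L ^ 2 * V ^ 2 * phi r) =
          (phi r * L * V * wr (zz N) (MM δ N) 2 r) ^ 2 := by ring
        _ ≤ C₁ ^ 2 := e2
    · apply Finset.sum_le_sum
      intro r hr
      obtain ⟨e1, e2, e3⟩ := GDL_mem_PK.1 hr
      have hr0 : (0 : ℝ) < r := by exact_mod_cast e3.pos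
      rw [le_div_iff₀ hr0]
      have e4 := b2 r hr
      have e5 : (r * wr (zz N) (MM δ N) 2 r) ^ 2 ≤ 1 := by
        rw [← sq_abs]
        calc |(r : ℝ) * wr (zz N) (MM δ N) 2 r| ^ 2 ≤ 1 ^ 2 := pow_le_pow_left₀ (abs_nonneg _) e4 2
          _ = 1 := one_pow 2
      calc phi r * wr (zz N) (MM δ N) 2 r ^ 2 * r ≤ r * wr (zz N) (MM δ N) 2 r ^ 2 * r := by
            gcongr
            exact GDL_phi_le r
        _ = (r * wr (zz N) (MM δ N) 2 r) ^ 2 := by ring
        _ ≤ 1 := e5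
  -- its size
  have hrs' := hrs (zz N) (MM δ N) a2 (by omega)
  have hVz := (hvz (zz N) a2).1
  have hin2 : ∑ r ∈ Finset.Icc 1 (2 * MM δ N), phi r * wr (zz N) (MM δ N) 2 r ^ 2 ≤
      (2 * C₁ ^ 2 * C₂ / c + 2) / (V * L) := by
    have e1 : 1 + L / Real.log (zz N) ≤ 2 * L / Real.log (zz N) := by
      rw [two_mul, add_div]
      have : 1 ≤ L / Real.log (zz N) := by
        rw [le_div_iff₀ hlz]
        linarith
      linarith
    have e2 : C₁ ^ 2 / (L ^ 2 * V ^ 2) * ∑ r ∈ RO (zz N) (MM δ N), mu r ^ 2 / phi r ≤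
        (2 * C₁ ^ 2 * C₂ / c) / (V * L) := by
      calc C₁ ^ 2 / (L ^ 2 * V ^ 2) * ∑ r ∈ RO (zz N) (MM δ N), mu r ^ 2 / phi r
          ≤ C₁ ^ 2 / (L ^ 2 * V ^ 2) * (C₂ * (1 + L / Real.log (zz N))) := by gcongr
        _ ≤ C₁ ^ 2 / (L ^ 2 * V ^ 2) * (C₂ * (2 * L / Real.log (zz N))) := by gcongr
        _ = 2 * C₁ ^ 2 * C₂ / (V * L) * ((1 / Real.log (zz N)) / V) := by field_simp
        _ ≤ 2 * C₁ ^ 2 * C₂ / (V * L) * (1 / c) := by
            have e3 : (1 / Real.log (zz N)) / V ≤ 1 / c := by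
              rw [div_le_div_iff₀ hVp hc, one_mul, one_div_mul_eq_div]
              exact hVz
            gcongr
        _ = (2 * C₁ ^ 2 * C₂ / c) / (V * L) := by field_simp
    have e4 : ∑ p ∈ PK (MM δ N) 2, 1 / (p : ℝ) ≤ 2 / (V * L) := by
      refine c3.trans ?_
      apply div_le_div_of_nonneg_left (by norm_num) (by positivity)
      calc V * L ≤ 1 * L := by gcongr
        _ = L := one_mul L
    calc _ ≤ _ := hin
      _ ≤ (2 * C₁ ^ 2 * C₂ / c) / (V * L) + 2 / (V * L) := add_le_add e2 e4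
      _ = _ := by rw [← add_div]
  -- the splitting
  have hsp := GDL_split (M := MM δ N) ha (fun _ => True)
  simp only [if_true] at hsp
  rw [hsp]
  calc ∑ u ∈ Finset.Icc 1 A, ∑ r ∈ Finset.Icc 1 (2 * MM δ N),
        (phi u * al A a u ^ 2) * (phi r * wr (zz N) (MM δ N) 2 r ^ 2)
      = (∑ u ∈ Finset.Icc 1 A, phi u * al A a u ^ 2) *
        ∑ r ∈ Finset.Icc 1 (2 * MM δ N), phi r * wr (zz N) (MM δ N) 2 r ^ 2 := by
        rw [Finset.sum_mul_sum]
    _ = (V * cn (zz N) A a) *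
        ∑ r ∈ Finset.Icc 1 (2 * MM δ N), phi r * wr (zz N) (MM δ N) 2 r ^ 2 := by
        rw [(phi_al ha).2]
    _ ≤ (V * cn (zz N) A a) * ((2 * C₁ ^ 2 * C₂ / c + 2) / (V * L)) := by gcongr
    _ = (2 * C₁ ^ 2 * C₂ / c + 2) * cn (zz N) A a / L := by field_simp

open Classical in
/-- the mean square of the rough factor -/
theorem wr_sqM {δ : ℝ} (h0 : -(1 / 4) < δ) (h1 : δ < 1 / 4) {ε : ℝ} (hε : 0 < ε) : ∃ N₀ : ℕ,
    ∀ N : ℕ, N₀ ≤ N → ∀ Y : ℕ,
      ∑ r ∈ (Finset.Icc 2 Y).filter (fun r => rough (zz N) r), Wr (zz N) (MM δ N) 2 r ^ 2 ≤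
        Y * (Real.log (min (Y : ℝ) (MM δ N)) + ε * Real.log (MM δ N)) /
          Real.log (MM δ N) ^ 2 := by
  set κ : ℝ := min 1 (ε / 9) with hκd
  have hκ0 : 0 < κ := lt_min one_pos (by positivity)
  have hκ1 : κ ≤ 1 := min_le_left _ _
  have hκε : κ ≤ ε / 9 := min_le_right _ _
  obtain ⟨C, hC0, hC⟩ := ff_sq hκ0
  have hK0 : 0 < 1 + 1 / κ := by positivity
  set κ' : ℝ := Real.sqrt (ε / (18 * (1 + 1 / κ))) with hκ'd
  have hκ'0 : 0 < κ' := Real.sqrt_pos.mpr (by positivity)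
  have hκ's : κ' ^ 2 = ε / (18 * (1 + 1 / κ)) := Real.sq_sqrt (by positivity)
  have hκ'e : 6 * (1 + 1 / κ) * κ' ^ 2 = ε / 3 := by
    rw [hκ's]; field_simp; ring
  obtain ⟨N₁, hN₁⟩ := be_smallM h0 h1 hκ'0
  obtain ⟨N₂, hN₂⟩ := wrq_len h1 (max 1 (6 * C / ε))
  refine ⟨max N₁ N₂, fun N hN Y => ?_⟩
  obtain ⟨hPKn, hbe, hs⟩ := hN₁ N ((le_max_left _ _).trans hN)
  obtain ⟨hM2, hLB⟩ := hN₂ N ((le_max_right _ _).trans hN)
  set M := MM δ N with hM
  set L := Real.log M with hL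
  have hL1 : 1 ≤ L := (le_max_left _ _).trans hLB
  have hLC : 6 * C / ε ≤ L := (le_max_right _ _).trans hLB
  have hL0 : 0 < L := by linarith
  have hM1 : (1 : ℝ) ≤ M := by exact_mod_cast (by omega : 1 ≤ M)
  set b := be (zz N) M 2 with hb
  rcases Nat.eq_zero_or_pos Y with hY | hY
  · subst hY
    simp
  have hY1 : (1 : ℝ) ≤ Y := by exact_mod_cast hY
  set s := ∑ p ∈ PK M 2, 1 / (p : ℝ) with hsd
  have hs0 : 0 ≤ s := Finset.sum_nonneg fun p _ => by positivity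
  have hlog : Real.log (min (Y : ℝ) M) ≤ L := by
    refine Real.log_le_log (lt_min (by linarith) (by linarith)) (min_le_right _ _)
  have hlog0 : 0 ≤ Real.log (min (Y : ℝ) M) := Real.log_nonneg (le_min hY1 hM1)
  -- pointwise
  have hpt : ∀ r ∈ (Finset.Icc 2 Y).filter (fun r => rough (zz N) r),
      Wr (zz N) M 2 r ^ 2 * L ^ 2 ≤ (1 + κ) * ff M r ^ 2 +
        (1 + 1 / κ) * (b ^ 2 * (((PK M 2).filter (fun p => p ∣ r)).card : ℝ) ^ 2) := by
    intro r hr
    rw [Finset.mem_filter, Finset.mem_Icc] at hr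
    have h2 := wr_ff (z := zz N) (M := M) (K := 2) (n := r) (by omega) hr.2
    have h3 : Wr (zz N) M 2 r ^ 2 * L ^ 2 =
        (ff M r - b * (((PK M 2).filter (fun p => p ∣ r)).card : ℝ)) ^ 2 := by
      rw [← h2]; ring
    rw [h3, ← mul_pow]
    exact wrq_sqle hκ0 _ _
  have hsub : (Finset.Icc 2 Y).filter (fun r => rough (zz N) r) ⊆ Finset.Icc 2 Y :=
    Finset.filter_subset _ _
  have hsub2 : (Finset.Icc 2 Y).filter (fun r => rough (zz N) r) ⊆ Finset.Icc 1 Y :=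
    hsub.trans (Finset.Icc_subset_Icc_left (by norm_num))
  have hff : ∑ r ∈ (Finset.Icc 2 Y).filter (fun r => rough (zz N) r), ff M r ^ 2 ≤
      (1 + κ) * Y * Real.log (min (Y : ℝ) M) + C * Y :=
    (Finset.sum_le_sum_of_subset_of_nonneg hsub fun _ _ _ => sq_nonneg _).trans (hC M Y hM1)
  have hPKp : ∀ p ∈ PK M 2, p.Prime := fun p hp => (Finset.mem_filter.1 hp).2
  have hcnt : ∑ r ∈ (Finset.Icc 2 Y).filter (fun r => rough (zz N) r),
      (((PK M 2).filter (fun p => p ∣ r)).card : ℝ) ^ 2 ≤ Y * (s + s ^ 2) :=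
    (Finset.sum_le_sum_of_subset_of_nonneg hsub2 fun _ _ _ => sq_nonneg _).trans
      (wrq_cnt (PK M 2) hPKp Y)
  have hb2 : b ^ 2 ≤ κ' ^ 2 * L ^ 2 := by
    rw [← mul_pow, ← sq_abs b]
    exact pow_le_pow_left₀ (abs_nonneg _) hbe 2
  have hss : L ^ 2 * (s + s ^ 2) ≤ 6 * L := by
    have h2 : s * L ≤ 2 := by
      rw [le_div_iff₀ hL0] at hs; exact hs
    have h3 : 0 ≤ s * L := mul_nonneg hs0 hL0.le
    nlinarith [h2, h3, hL1]
  have hsum : (∑ r ∈ (Finset.Icc 2 Y).filter (fun r => rough (zz N) r), Wr (zz N) M 2 r ^ 2) * L ^ 2 ≤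
      (1 + κ) * ((1 + κ) * Y * Real.log (min (Y : ℝ) M) + C * Y) +
        (1 + 1 / κ) * (b ^ 2 * (Y * (s + s ^ 2))) := by
    rw [Finset.sum_mul]
    refine (Finset.sum_le_sum hpt).trans ?_
    rw [Finset.sum_add_distrib, ← Finset.mul_sum, ← Finset.mul_sum, ← Finset.mul_sum]
    refine add_le_add (mul_le_mul_of_nonneg_left hff (by linarith)) ?_
    refine mul_le_mul_of_nonneg_left ?_ hK0.le
    exact mul_le_mul_of_nonneg_left hcnt (sq_nonneg _)
  rw [le_div_iff₀ (by positivity)]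
  refine hsum.trans ?_
  have hA : (1 + 1 / κ) * (b ^ 2 * (Y * (s + s ^ 2))) ≤ Y * (ε / 3 * L) := by
    have h2 : b ^ 2 * (s + s ^ 2) ≤ κ' ^ 2 * (6 * L) := by
      calc b ^ 2 * (s + s ^ 2) ≤ (κ' ^ 2 * L ^ 2) * (s + s ^ 2) :=
            mul_le_mul_of_nonneg_right hb2 (by positivity)
        _ = κ' ^ 2 * (L ^ 2 * (s + s ^ 2)) := by ring
        _ ≤ κ' ^ 2 * (6 * L) := mul_le_mul_of_nonneg_left hss (sq_nonneg _)
    calc (1 + 1 / κ) * (b ^ 2 * (Y * (s + s ^ 2))) = (1 + 1 / κ) * Y * (b ^ 2 * (s + s ^ 2)) := by ring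
      _ ≤ (1 + 1 / κ) * Y * (κ' ^ 2 * (6 * L)) :=
          mul_le_mul_of_nonneg_left h2 (by positivity)
      _ = Y * ((6 * (1 + 1 / κ) * κ' ^ 2) * L) := by ring
      _ = Y * (ε / 3 * L) := by rw [hκ'e]
  have hB : (1 + κ) * ((1 + κ) * Y * Real.log (min (Y : ℝ) M) + C * Y) ≤
      Y * (Real.log (min (Y : ℝ) M) + 2 * ε / 3 * L) := by
    have h2 : (1 + κ) ^ 2 * Real.log (min (Y : ℝ) M) ≤
        Real.log (min (Y : ℝ) M) + ε / 3 * L := by
      have h3 : (1 + κ) ^ 2 ≤ 1 + ε / 3 := by nlinarith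
      have h4 : ε / 3 * Real.log (min (Y : ℝ) M) ≤ ε / 3 * L :=
        mul_le_mul_of_nonneg_left hlog (by positivity)
      have h5 := mul_le_mul_of_nonneg_right h3 hlog0
      nlinarith
    have h6 : (1 + κ) * C ≤ ε / 3 * L := by
      have h7 : 6 * C ≤ L * ε := by rwa [div_le_iff₀ hε] at hLC
      nlinarith
    have h8 : (1 + κ) ^ 2 * Real.log (min (Y : ℝ) M) + (1 + κ) * C ≤
        Real.log (min (Y : ℝ) M) + 2 * ε / 3 * L := by linarith
    have h9 := mul_le_mul_of_nonneg_left h8 (by linarith : (0 : ℝ) ≤ Y)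
    calc (1 + κ) * ((1 + κ) * Y * Real.log (min (Y : ℝ) M) + C * Y) =
          Y * ((1 + κ) ^ 2 * Real.log (min (Y : ℝ) M) + (1 + κ) * C) := by ring
      _ ≤ _ := h9
  calc (1 + κ) * ((1 + κ) * Y * Real.log (min (Y : ℝ) M) + C * Y) +
        (1 + 1 / κ) * (b ^ 2 * (Y * (s + s ^ 2))) ≤
        Y * (Real.log (min (Y : ℝ) M) + 2 * ε / 3 * L) + Y * (ε / 3 * L) := add_le_add hB hA
    _ = Y * (Real.log (min (Y : ℝ) M) + ε * L) := by ring

end Pool.Agent.LSP
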