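import Pool.Agent.Lib_helper68.KSLF.BGB
import Pool.Agent.Lib_helper71.LSPM.NT

/-! LSP, part M: the lower bound for the diagonal terms. -/

namespace Pool.Agent.LSP

open Pool.Agent.LEV Pool.Agent.LVB Pool.Agent.KSL
open Pool.Agent.FG61 (mu phi cc ff AA Lam)
open Complex MeasureTheory Filter Topology UpperHalfPlane ModularGroup ProbabilityTheory
open scoped MatrixGroups Modular ENNReal ModularForm ComplexConjugate ContDiff

/-- a staircase below a linear function -/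
theorem GDS_stair {x Δ : ℝ} (hΔ : 0 ≤ Δ) (J : ℕ) :
    ∑ j ∈ Finset.range J, (if x ≤ j * Δ then Δ else 0) ≤ max 0 (J * Δ - x) := by
  induction J with
  | zero => simp
  | succ J ih =>
    rw [Finset.sum_range_succ]
    push_cast
    by_cases h : x ≤ J * Δ
    · rw [if_pos h]
      have h1 : max 0 (J * Δ - x) = J * Δ - x := max_eq_right (by linarith)
      rw [h1] at ih
      refine le_trans ?_ (le_max_right _ _)
      linarith
    · rw [if_neg h, add_zero]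
      refine ih.trans (max_le_max le_rfl ?_)
      linarith

/-- partial summation by a staircase -/
theorem GDS_sum {Q : ℕ} {w : ℕ → ℝ} {Δ : ℝ} (hΔ : 0 ≤ Δ) (J : ℕ)
    (hQ : J * Δ ≤ Real.log Q) (hQ1 : 1 ≤ Q) :
    ∑ j ∈ Finset.range J, Δ * GD w (Real.exp (j * Δ)) ≤
      ∑ q ∈ Finset.Icc 1 Q, phi q * w q ^ 2 * (Real.log Q - Real.log q) := by
  have hQ0 : (0 : ℝ) < Q := by exact_mod_cast hQ1
  have h1 : ∀ j ∈ Finset.range J, Δ * GD w (Real.exp (j * Δ)) ≤
      ∑ q ∈ Finset.Icc 1 Q, phi q * w q ^ 2 * (if Real.log q ≤ j * Δ then Δ else 0) := by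
    intro j hj
    rw [Finset.mem_range] at hj
    have hjJ : (j : ℝ) ≤ J := by exact_mod_cast hj.le
    unfold GD
    rw [Finset.mul_sum]
    have e1 : ∀ q ∈ Finset.Icc 1 ⌊Real.exp (j * Δ)⌋₊, Δ * (phi q * w q ^ 2) =
        phi q * w q ^ 2 * (if Real.log q ≤ j * Δ then Δ else 0) := by
      intro q hq
      rw [Finset.mem_Icc] at hq
      have hq0 : (0 : ℝ) < q := by exact_mod_cast hq.1
      have : Real.log q ≤ j * Δ := by
        rw [Real.log_le_iff_le_exp hq0]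
        exact (Nat.le_floor_iff (Real.exp_pos _).le).1 hq.2
      rw [if_pos this]
      ring
    rw [Finset.sum_congr rfl e1]
    refine Finset.sum_le_sum_of_subset_of_nonneg ?_ fun q _ _ => ?_
    · refine Finset.Icc_subset_Icc_right ?_
      have : Real.exp (j * Δ) ≤ Q := by
        rw [← Real.le_log_iff_exp_le hQ0]
        exact le_trans (mul_le_mul_of_nonneg_right hjJ hΔ) hQ
      calc ⌊Real.exp (j * Δ)⌋₊ ≤ ⌊(Q : ℝ)⌋₊ := Nat.floor_mono this
        _ = Q := Nat.floor_natCast Q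
    · have : 0 ≤ phi q := GDL_phi_nonneg q
      split_ifs <;> positivity
  refine (Finset.sum_le_sum h1).trans ?_
  rw [Finset.sum_comm]
  refine Finset.sum_le_sum fun q hq => ?_
  rw [← Finset.mul_sum]
  rw [Finset.mem_Icc] at hq
  have hq1 : (1 : ℝ) ≤ q := by exact_mod_cast hq.1
  have hqQ : (q : ℝ) ≤ Q := by exact_mod_cast hq.2
  have hp : 0 ≤ phi q := GDL_phi_nonneg q
  refine mul_le_mul_of_nonneg_left ?_ (by positivity)
  refine (GDS_stair hΔ J).trans (max_le ?_ ?_)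
  · have := Real.log_le_log (by linarith) hqQ
    linarith
  · linarith

theorem GDS_id (J : ℕ) : ∑ j ∈ Finset.range J, (j : ℝ) = J * (J - 1) / 2 := by
  induction J with
  | zero => simp
  | succ J ih =>
    rw [Finset.sum_range_succ, ih]
    push_cast
    ring

theorem GDS_num0 {th L l lN : ℝ} (ht0 : 0 < th) (hLN : lN ≤ 5 * L) (hl : l = L - th * lN) :
    (1 - 5 * th) * L ≤ l := by
  have : th * lN ≤ th * (5 * L) := mul_le_mul_of_nonneg_left hLN ht0.le
  rw [hl]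
  linarith

theorem GDS_num1 {th L l : ℝ} (ht0 : 0 < th) (ht1 : th ≤ 1 / 100) (hL0 : 0 < L)
    (hl1 : (1 - 5 * th) * L ≤ l) : (1 - 30 * th) * L ≤ (1 - th) * l - 5 * th * L := by
  have h1 : (1 - th) * ((1 - 5 * th) * L) ≤ (1 - th) * l :=
    mul_le_mul_of_nonneg_left hl1 (by linarith)
  have h2 : 0 ≤ th * L := by positivity
  have h3 : 0 ≤ th * th * L := by positivity
  have h4 : (1 - th) * ((1 - 5 * th) * L) = L - 6 * (th * L) + 5 * (th * th * L) := by ring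
  linarith

theorem GDS_num2 {th L l Δ J : ℝ} (ht0 : 0 < th) (ht1 : th ≤ 1 / 100) (hL0 : 0 < L)
    (hl1 : (1 - 5 * th) * L ≤ l) (hlL : l ≤ L) (hl0 : 0 < l) (hJ0 : 0 < J) (hJth : 1 ≤ th * J)
    (hJΔ : J * Δ = l) : (1 / 2 - 30 * th) * L ^ 2 ≤ (1 - th) * Δ ^ 2 * (J * (J - 1) / 2) -
        5 * th * L * l := by
  have hΔ : Δ = l / J := by rw [← hJΔ]; field_simp
  have e3 : Δ ^ 2 * (J * (J - 1) / 2) = (l ^ 2 - l * Δ) / 2 := by
    rw [← hJΔ]; ring
  have e4 : Δ ≤ th * l := by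
    rw [hΔ, div_le_iff₀ hJ0]
    calc l = 1 * l := (one_mul l).symm
      _ ≤ th * J * l := mul_le_mul_of_nonneg_right hJth hl0.le
      _ = th * l * J := by ring
  have e5 : (1 - th) * l ^ 2 / 2 ≤ Δ ^ 2 * (J * (J - 1) / 2) := by
    rw [e3]
    have := mul_le_mul_of_nonneg_left e4 hl0.le
    have e : l * (th * l) = th * l ^ 2 := by ring
    rw [e] at this
    linarith
  have e6 : ((1 - 5 * th) * L) ^ 2 ≤ l ^ 2 :=
    pow_le_pow_left₀ (mul_nonneg (by linarith) hL0.le) hl1 2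
  have f1 : (1 - th) * ((1 - th) * l ^ 2 / 2) ≤ (1 - th) * (Δ ^ 2 * (J * (J - 1) / 2)) :=
    mul_le_mul_of_nonneg_left e5 (by linarith)
  have f2 : 5 * th * L * l ≤ 5 * th * L * L :=
    mul_le_mul_of_nonneg_left hlL (by positivity)
  have f3 : (1 - th) ^ 2 / 2 * ((1 - 5 * th) * L) ^ 2 ≤ (1 - th) ^ 2 / 2 * l ^ 2 :=
    mul_le_mul_of_nonneg_left e6 (by positivity)
  have f4 : (1 / 2 - 30 * th) + 5 * th ≤ (1 - th) ^ 2 / 2 * (1 - 5 * th) ^ 2 := by
    have g1 : 1 - 2 * th ≤ (1 - th) ^ 2 := by nlinarith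
    have g2 : 1 - 10 * th ≤ (1 - 5 * th) ^ 2 := by nlinarith
    have g3 : (1 - 2 * th) * (1 - 10 * th) ≤ (1 - th) ^ 2 * (1 - 5 * th) ^ 2 :=
      mul_le_mul g1 g2 (by linarith) (by positivity)
    nlinarith
  have f5 := mul_le_mul_of_nonneg_right f4 (sq_nonneg L)
  have h1 : (1 - th) * Δ ^ 2 * (J * (J - 1) / 2) = (1 - th) * (Δ ^ 2 * (J * (J - 1) / 2)) := by ring
  have h2 : (1 - th) * ((1 - th) * l ^ 2 / 2) = (1 - th) ^ 2 / 2 * l ^ 2 := by ring
  have h3 : (1 - th) ^ 2 / 2 * (1 - 5 * th) ^ 2 * L ^ 2 =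
    (1 - th) ^ 2 / 2 * ((1 - 5 * th) * L) ^ 2 := by ring
  have h4 : (1 / 2 - 30 * th + 5 * th) * L ^ 2 = (1 / 2 - 30 * th) * L ^ 2 + 5 * th * L * L := by
    ring
  rw [h1]
  linarith

theorem GDS_LX {κ th L lX : ℝ} (h0 : 1 / 4 < κ) (ht1 : th ≤ 1 / 100) (hX : 0 < lX)
    (h : |L - κ * lX| ≤ th) (hL : 100 ≤ L) : lX ≤ 5 * L := by
  have h1 := (abs_le.1 h).1
  have h2 : 0 < (κ - 1 / 4) * lX := mul_pos (by linarith) hX
  have h3 : κ * lX = 1 / 4 * lX + (κ - 1 / 4) * lX := by ring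
  rw [h3] at h1
  linarith

/-- the lower bound for the diagonal terms -/
theorem GDS_low {δ : ℝ} (h0 : -(1 / 4) < δ) (h1 : δ < 1 / 4) {th : ℝ} (ht0 : 0 < th)
    (ht1 : th ≤ 1 / 100) : ∃ N₀ : ℕ, ∀ N : ℕ, N₀ ≤ N → ∀ ε₂ : ℝ, 0 < ε₂ → ε₂ ≤ th →
    ∀ a : ℕ → ℝ, (∀ k, a k ≠ 0 → smooth (zz N) k ∧ k ≤ KA ε₂ N) →
      (1 - 30 * th) * cn (zz N) (KA ε₂ N) a / Real.log (MM δ N) ≤
        ∑ q ∈ Finset.Icc 1 (QA (MM δ N) 2 (KA ε₂ N)),
          phi q * wA (zz N) (MM δ N) 2 (KA ε₂ N) a q ^ 2 ∧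
      (1 / 2 - 30 * th) * cn (zz N) (KA ε₂ N) a ≤
        ∑ q ∈ Finset.Icc 1 (QA (MM δ N) 2 (KA ε₂ N)),
          phi q * wA (zz N) (MM δ N) 2 (KA ε₂ N) a q ^ 2 *
            (Real.log (QA (MM δ N) 2 (KA ε₂ N)) - Real.log q) := by
  obtain ⟨N₁, hN₁⟩ := sizesM h0 h1 ht0
  obtain ⟨N₂, hN₂⟩ := gd_lowerM h0 h1 ht0
  refine ⟨max N₁ N₂, fun N hN ε₂ h2 h2' a ha => ?_⟩
  obtain ⟨n3, z2, zM, -, lz, -, hM, -, -⟩ := hN₁ N ((le_max_left _ _).trans hN)
  obtain ⟨A1, -, A3⟩ := ka_size h2 (show 1 ≤ N by omega)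
  have hgd := hN₂ N ((le_max_right _ _).trans hN) (KA ε₂ N) A1 a ha
  have hc0 := BGB_cn_nonneg (zz N) (KA ε₂ N) a
  set A := KA ε₂ N with hA
  set M := MM δ N with hMd
  set c := cn (zz N) A a with hc
  set L := Real.log M with hL
  set w := wA (zz N) M 2 A a with hw
  have hN0 : (0 : ℝ) < N := by exact_mod_cast (by omega : 0 < N)
  have hN3 : (3 : ℝ) ≤ N := by exact_mod_cast n3
  have hlN0 : 0 < Real.log N := Real.log_pos (by linarith)
  have hM0 : (0 : ℝ) < M := by exact_mod_cast (by omega : 0 < M)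
  have hA1 : (1 : ℝ) ≤ A := by exact_mod_cast A1
  have hlA0 : 0 ≤ Real.log A := Real.log_nonneg hA1
  have hLz : 1 / th ≤ L := by
    refine lz.trans (Real.log_le_log (by exact_mod_cast (by omega : 0 < zz N)) ?_)
    exact_mod_cast zM.le
  have hthL : 1 ≤ th * L := by
    rw [div_le_iff₀ ht0] at hLz
    linarith
  have hL100 : 100 ≤ L := by
    refine le_trans ?_ hLz
    rw [le_div_iff₀ ht0]
    linarith
  have hL0 : 0 < L := by linarith
  have hLN : Real.log N ≤ 5 * L := GDS_LX (by linarith) ht1 hlN0 hM hL100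
  have hlA : Real.log A ≤ 5 * th * L := by
    calc Real.log A ≤ ε₂ * Real.log N := A3
      _ ≤ th * Real.log N := mul_le_mul_of_nonneg_right h2' hlN0.le
      _ ≤ th * (5 * L) := mul_le_mul_of_nonneg_left hLN ht0.le
      _ = 5 * th * L := by ring
  have hNp : 0 < (N : ℝ) ^ (-th) := Real.rpow_pos_of_pos hN0 _
  -- the largest admissible `D`
  set l := L - th * Real.log N with hl
  have hlD : Real.log (M * (N : ℝ) ^ (-th)) = l := by
    rw [Real.log_mul hM0.ne' hNp.ne', Real.log_rpow hN0]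
    ring
  have hl1 : (1 - 5 * th) * L ≤ l := GDS_num0 ht0 hLN hl
  have hlL : l ≤ L := by
    have : 0 ≤ th * Real.log N := by positivity
    linarith
  have hl0 : 0 < l := lt_of_lt_of_le (mul_pos (by linarith) hL0) hl1
  have hgd' : ∀ t : ℝ, 0 ≤ t → t ≤ l →
      c * ((1 - th) * t - 5 * th * L) / L ^ 2 ≤ GD w (Real.exp t) := by
    intro t h3 h4
    have h5 := hgd (Real.exp t) (Real.one_le_exp h3) (by
      rw [← Real.le_log_iff_exp_le (by positivity), hlD]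
      exact h4)
    rw [Real.log_exp] at h5
    refine le_trans ?_ h5
    refine div_le_div_of_nonneg_right ?_ (by positivity)
    exact mul_le_mul_of_nonneg_left (by linarith) hc0
  have hQdef : (QA M 2 A : ℝ) = 2 * M * A := by
    unfold QA
    push_cast
    ring
  have hQpos : (0 : ℝ) < QA M 2 A := by
    rw [hQdef]
    positivity
  have hQ1 : 1 ≤ QA M 2 A := by exact_mod_cast hQpos
  have hlQ : L ≤ Real.log (QA M 2 A) := by
    refine Real.log_le_log hM0 ?_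
    rw [hQdef]
    have := mul_le_mul_of_nonneg_left hA1 hM0.le
    linarith
  have hGDQ : GD w (QA M 2 A) = ∑ q ∈ Finset.Icc 1 (QA M 2 A), phi q * w q ^ 2 := by
    unfold GD
    rw [Nat.floor_natCast]
  constructor
  · have h3 := hgd' l hl0.le le_rfl
    have h4 : GD w (Real.exp l) ≤ GD w (QA M 2 A) := by
      refine BGB_gd_mono w ?_
      rw [← Real.le_log_iff_exp_le hQpos]
      linarith
    rw [← hGDQ]
    refine le_trans ?_ (h3.trans h4)
    rw [div_le_div_iff₀ hL0 (by positivity)]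
    have h5 : (1 - 30 * th) * L ≤ (1 - th) * l - 5 * th * L := GDS_num1 ht0 ht1 hL0 hl1
    calc (1 - 30 * th) * c * L ^ 2 = c * ((1 - 30 * th) * L) * L := by ring
      _ ≤ c * ((1 - th) * l - 5 * th * L) * L := by gcongr
  · -- the staircase
    obtain ⟨J, hJ⟩ := exists_nat_ge (1 / th)
    have hJ0 : (0 : ℝ) < J := lt_of_lt_of_le (by positivity) hJ
    have hJth : 1 ≤ th * J := by
      rw [div_le_iff₀ ht0] at hJ
      linarith
    set Δ := l / J with hΔ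
    have hΔ0 : 0 ≤ Δ := by positivity
    have hJΔ : J * Δ = l := by rw [hΔ]; field_simp
    have h3 := GDS_sum (Q := QA M 2 A) (w := w) hΔ0 J (by rw [hJΔ]; linarith) hQ1
    refine le_trans ?_ h3
    have h4 : ∀ j ∈ Finset.range J, Δ * (c * ((1 - th) * (j * Δ) - 5 * th * L) / L ^ 2) ≤
        Δ * GD w (Real.exp (j * Δ)) := by
      intro j hj
      rw [Finset.mem_range] at hj
      have hjJ : (j : ℝ) ≤ J := by exact_mod_cast hj.le
      refine mul_le_mul_of_nonneg_left (hgd' _ (by positivity) ?_) hΔ0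
      rw [← hJΔ]
      exact mul_le_mul_of_nonneg_right hjJ hΔ0
    refine le_trans ?_ (Finset.sum_le_sum h4)
    have e1 : ∑ j ∈ Finset.range J, Δ * (c * ((1 - th) * (j * Δ) - 5 * th * L) / L ^ 2) =
        c / L ^ 2 * ((1 - th) * Δ ^ 2 * ∑ j ∈ Finset.range J, (j : ℝ) -
          5 * th * L * (J * Δ)) := by
      have e2 : ∀ j ∈ Finset.range J, Δ * (c * ((1 - th) * (j * Δ) - 5 * th * L) / L ^ 2) =
          c / L ^ 2 * (1 - th) * Δ ^ 2 * (j : ℝ) - c / L ^ 2 * (5 * th * L * Δ) := fun j _ => by ring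
      rw [Finset.sum_congr rfl e2, Finset.sum_sub_distrib, ← Finset.mul_sum, Finset.sum_const,
        Finset.card_range, nsmul_eq_mul]
      ring
    rw [e1, GDS_id, hJΔ]
    have e7 := GDS_num2 ht0 ht1 hL0 hl1 hlL hl0 hJ0 hJth hJΔ
    calc (1 / 2 - 30 * th) * c = c / L ^ 2 * ((1 / 2 - 30 * th) * L ^ 2) := by
          field_simp
      _ ≤ c / L ^ 2 * ((1 - th) * Δ ^ 2 * (J * (J - 1) / 2) - 5 * th * L * l) :=
          mul_le_mul_of_nonneg_left e7 (by positivity)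

end Pool.Agent.LSP
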