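import Pool.Agent.Lib_helper68.KSLF.HGN
import Pool.Agent.Lib_helper71.LSPM.NT

/-! LSP, part M: the sum over the Fourier coefficients (adapted from KSL block HGN, helper8). -/

namespace Pool.Agent.LSP

open Pool.Agent.LEV Pool.Agent.LVB Pool.Agent.KSL
open Pool.Agent.FG61 (mu phi cc ff AA Lam)
open Complex MeasureTheory Filter Topology UpperHalfPlane ModularGroup ProbabilityTheory
open scoped MatrixGroups Modular ENNReal ModularForm ComplexConjugate ContDiff

theorem HG_sq {R X : ℕ} (hR : 1 ≤ R) (hX : R ≤ X) :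
    ∑ r ∈ Finset.Ico R X, 1 / ((r : ℝ) + 1) ^ 2 ≤ 1 / (R : ℝ) - 1 / (X : ℝ) := by
  induction X, hX using Nat.le_induction with
  | base => simp
  | succ X hX ih =>
    rw [Finset.sum_Ico_succ_top hX]
    have hX0 : (0 : ℝ) < X := by exact_mod_cast (lt_of_lt_of_le Nat.zero_lt_one (hR.trans hX))
    have h : 1 / ((X : ℝ) + 1) ^ 2 ≤ 1 / (X : ℝ) - 1 / ((X : ℝ) + 1) := by
      rw [div_sub_div _ _ (by positivity) (by positivity), div_le_div_iff₀ (by positivity) (by positivity)]
      nlinarith [hX0]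
    push_cast
    linarith

theorem HG_gsum {M R X : ℕ} (hM : 1 ≤ M) (hMR : M ≤ R) {K et : ℝ} (het : 0 ≤ et) (hK0 : 0 ≤ K)
    (hK : K ≤ 2 * (R : ℝ)) :
    ∑ r ∈ Finset.range X, (Real.log (min ((r : ℝ) + 1) M) + 1 + et * Real.log M) *
        min (1 / ((r : ℝ) + 1)) (K / ((r : ℝ) + 1) ^ 2) ≤
      Real.log M ^ 2 / 2 + Real.log M + (1 + et * Real.log M) * (1 + Real.log M) +
        (Real.log M + 1 + et * Real.log M) * (Real.log R - Real.log M + 2) := by
  set L := Real.log M with hL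
  have hL0 : 0 ≤ L := Real.log_natCast_nonneg M
  have hM0 : (0 : ℝ) < M := by exact_mod_cast hM
  have hM1 : (1 : ℝ) ≤ M := by exact_mod_cast hM
  have hR1 : (1 : ℝ) ≤ R := by exact_mod_cast (hM.trans hMR)
  have hetL : 0 ≤ et * L := mul_nonneg het hL0
  have hlog0 : ∀ r : ℕ, 0 ≤ Real.log (min ((r : ℝ) + 1) M) := fun r => by
    have : (0 : ℝ) ≤ r := Nat.cast_nonneg _
    exact Real.log_nonneg (le_min (by linarith) hM1)
  have hterm0 : ∀ r : ℕ, 0 ≤ (Real.log (min ((r : ℝ) + 1) M) + 1 + et * L) *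
        min (1 / ((r : ℝ) + 1)) (K / ((r : ℝ) + 1) ^ 2) := fun r => by
    refine mul_nonneg (by linarith [hlog0 r]) (le_min (by positivity) (by positivity))
  have h1 : ∑ r ∈ Finset.range X, (Real.log (min ((r : ℝ) + 1) M) + 1 + et * L) *
        min (1 / ((r : ℝ) + 1)) (K / ((r : ℝ) + 1) ^ 2) ≤
      ∑ r ∈ Finset.range (max X R), (Real.log (min ((r : ℝ) + 1) M) + 1 + et * L) *
        min (1 / ((r : ℝ) + 1)) (K / ((r : ℝ) + 1) ^ 2) := by
    refine Finset.sum_le_sum_of_subset_of_nonneg ?_ (fun r _ _ => hterm0 r)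
    exact Finset.range_mono (le_max_left _ _)
  have hsplit : ∑ r ∈ Finset.range (max X R), (Real.log (min ((r : ℝ) + 1) M) + 1 + et * L) *
        min (1 / ((r : ℝ) + 1)) (K / ((r : ℝ) + 1) ^ 2) =
      ∑ r ∈ Finset.range M, (Real.log (min ((r : ℝ) + 1) M) + 1 + et * L) *
        min (1 / ((r : ℝ) + 1)) (K / ((r : ℝ) + 1) ^ 2) +
      ∑ r ∈ Finset.Ico M R, (Real.log (min ((r : ℝ) + 1) M) + 1 + et * L) *
        min (1 / ((r : ℝ) + 1)) (K / ((r : ℝ) + 1) ^ 2) +
      ∑ r ∈ Finset.Ico R (max X R), (Real.log (min ((r : ℝ) + 1) M) + 1 + et * L) *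
        min (1 / ((r : ℝ) + 1)) (K / ((r : ℝ) + 1) ^ 2) := by
    rw [Finset.range_eq_Ico, Finset.range_eq_Ico, Finset.sum_Ico_consecutive _ (Nat.zero_le _) hMR,
      Finset.sum_Ico_consecutive _ (Nat.zero_le _) (le_max_right _ _)]
  have hA : ∑ r ∈ Finset.range M, (Real.log (min ((r : ℝ) + 1) M) + 1 + et * L) *
        min (1 / ((r : ℝ) + 1)) (K / ((r : ℝ) + 1) ^ 2) ≤
      L ^ 2 / 2 + L + (1 + et * L) * (1 + L) := by
    calc _ ≤ ∑ r ∈ Finset.range M, (Real.log (r + 1) / (r + 1) +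
          (1 + et * L) * (1 / ((r : ℝ) + 1))) := by
          refine Finset.sum_le_sum fun r _ => ?_
          have hr : (0 : ℝ) ≤ r := Nat.cast_nonneg _
          have h2 : Real.log (min ((r : ℝ) + 1) M) ≤ Real.log (r + 1) :=
            Real.log_le_log (lt_min (by linarith) hM0) (min_le_left _ _)
          calc _ ≤ (Real.log (r + 1) + 1 + et * L) * (1 / ((r : ℝ) + 1)) := by
                refine mul_le_mul (by linarith) (min_le_left _ _)
                  (le_min (by positivity) (by positivity)) ?_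
                linarith [hlog0 r]
            _ = _ := by ring
      _ = ∑ r ∈ Finset.range M, Real.log (r + 1) / (r + 1) +
          (1 + et * L) * ∑ r ∈ Finset.range M, 1 / ((r : ℝ) + 1) := by
          rw [Finset.sum_add_distrib, Finset.mul_sum]
      _ ≤ (L ^ 2 / 2 + L) + (1 + et * L) * (1 + L) :=
          add_le_add (HGN_logsum hM) (mul_le_mul_of_nonneg_left (HGN_harm hM) (by linarith))
  have hB : ∑ r ∈ Finset.Ico M R, (Real.log (min ((r : ℝ) + 1) M) + 1 + et * L) *
        min (1 / ((r : ℝ) + 1)) (K / ((r : ℝ) + 1) ^ 2) ≤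
      (L + 1 + et * L) * (Real.log R - L) := by
    calc _ ≤ ∑ r ∈ Finset.Ico M R, (L + 1 + et * L) * (1 / ((r : ℝ) + 1)) := by
          refine Finset.sum_le_sum fun r _ => ?_
          have hr : (0 : ℝ) ≤ r := Nat.cast_nonneg _
          have h2 : Real.log (min ((r : ℝ) + 1) M) ≤ L :=
            Real.log_le_log (lt_min (by linarith) hM0) (min_le_right _ _)
          refine mul_le_mul (by linarith) (min_le_left _ _)
            (le_min (by positivity) (by positivity)) (by linarith)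
      _ = (L + 1 + et * L) * ∑ r ∈ Finset.Ico M R, 1 / ((r : ℝ) + 1) := by rw [Finset.mul_sum]
      _ ≤ _ := mul_le_mul_of_nonneg_left (HGN_harm2 hM hMR) (by linarith)
  have hC : ∑ r ∈ Finset.Ico R (max X R), (Real.log (min ((r : ℝ) + 1) M) + 1 + et * L) *
        min (1 / ((r : ℝ) + 1)) (K / ((r : ℝ) + 1) ^ 2) ≤
      (L + 1 + et * L) * 2 := by
    calc _ ≤ ∑ r ∈ Finset.Ico R (max X R), (L + 1 + et * L) * (K * (1 / ((r : ℝ) + 1) ^ 2)) := by
          refine Finset.sum_le_sum fun r _ => ?_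
          have hr : (0 : ℝ) ≤ r := Nat.cast_nonneg _
          have h2 : Real.log (min ((r : ℝ) + 1) M) ≤ L :=
            Real.log_le_log (lt_min (by linarith) hM0) (min_le_right _ _)
          refine mul_le_mul (by linarith) ((min_le_right _ _).trans (le_of_eq (by ring)))
            (le_min (by positivity) (by positivity)) (by linarith)
      _ = (L + 1 + et * L) * (K * ∑ r ∈ Finset.Ico R (max X R), 1 / ((r : ℝ) + 1) ^ 2) := by
          rw [← Finset.mul_sum, ← Finset.mul_sum]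
      _ ≤ _ := by
          refine mul_le_mul_of_nonneg_left ?_ (by linarith)
          have h3 := HG_sq (hM.trans hMR) (le_max_right X R)
          have h4 : ∑ r ∈ Finset.Ico R (max X R), 1 / ((r : ℝ) + 1) ^ 2 ≤ 1 / (R : ℝ) :=
            h3.trans (by have : 0 ≤ 1 / ((max X R : ℕ) : ℝ) := by positivity
                         linarith)
          calc _ ≤ 2 * (R : ℝ) * (1 / (R : ℝ)) := by
                refine mul_le_mul hK h4 (Finset.sum_nonneg fun r _ => by positivity) (by positivity)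
            _ = 2 := by field_simp
  have e : (L + 1 + et * L) * (Real.log R - L + 2) =
    (L + 1 + et * L) * (Real.log R - L) + (L + 1 + et * L) * 2 := by ring
  linarith

theorem HG_Ganti {K : ℝ} (hK0 : 0 ≤ K) {r : ℕ} (hr : 1 ≤ r) :
    min (1 / ((r + 1 : ℕ) : ℝ)) (K / ((r + 1 : ℕ) : ℝ) ^ 2) ≤
      min (1 / (r : ℝ)) (K / (r : ℝ) ^ 2) := by
  have hr0 : (0 : ℝ) < r := by exact_mod_cast hr
  have h1 : (r : ℝ) ≤ ((r + 1 : ℕ) : ℝ) := by push_cast; linarith
  refine min_le_min ?_ ?_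
  · exact one_div_le_one_div_of_le hr0 h1
  · exact div_le_div_of_nonneg_left hK0 (by positivity) (pow_le_pow_left₀ hr0.le h1 2)

open Classical in
theorem HG_inner {z M R X m : ℕ} (hM : 2 ≤ M) (hMR : M ≤ R) {K et : ℝ} (het : 0 ≤ et)
    (hK0 : 0 ≤ K) (hK : K ≤ 2 * (R : ℝ))
    (hsq : ∀ Y : ℕ, ∑ r ∈ (Finset.Icc 2 Y).filter (fun r => rough z r), Wr z M 2 r ^ 2 ≤
        Y * (Real.log (min (Y : ℝ) M) + et * Real.log M) / Real.log M ^ 2)
    {h : ℕ → ℝ} (hh : ∀ n, 0 ≤ h n ∧ h n ≤ 1 ∧ h n * n ≤ K) (hm : 1 ≤ m) :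
    ∑ r ∈ (Finset.Icc 1 X).filter (fun r => rough z r), Wr z M 2 r ^ 2 * h (m * r) / r ≤
      1 + (Real.log M ^ 2 / 2 + Real.log M + (1 + et * Real.log M) * (1 + Real.log M) +
        (Real.log M + 1 + et * Real.log M) * (Real.log R - Real.log M + 2)) /
          Real.log M ^ 2 := by
  have hL : 0 < Real.log M := Real.log_pos (by exact_mod_cast hM)
  set a : ℕ → ℝ := fun r => if rough z r ∧ 2 ≤ r then Wr z M 2 r ^ 2 else 0 with ha
  set B : ℕ → ℝ := fun Y => (Y : ℝ) * (Real.log (min (Y : ℝ) M) + et * Real.log M) /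
    Real.log M ^ 2 with hB
  set G : ℕ → ℝ := fun r => min (1 / (r : ℝ)) (K / (r : ℝ) ^ 2) with hG
  have hS : ∀ Y, ∑ r ∈ Finset.range Y, a (r + 1) ≤ B Y := by
    intro Y
    refine le_trans (le_of_eq ?_) (hsq Y)
    rw [← HGN_filt Y z (fun r => Wr z M 2 r ^ 2)]
  have hG0 : ∀ r, 0 ≤ G r := fun r => le_min (by positivity) (by positivity)
  have hab := HGN_abel (a := a) (B := B) (G := G) (fun r hr => HG_Ganti hK0 hr) hS hG0 X
  have hB0 : B 0 = 0 := by simp [hB]
  rw [hB0, zero_mul, zero_add] at hab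
  have h2 : ∑ r ∈ Finset.range X, (B (r + 1) - B r) * G (r + 1) ≤
      (Real.log M ^ 2 / 2 + Real.log M + (1 + et * Real.log M) * (1 + Real.log M) +
        (Real.log M + 1 + et * Real.log M) * (Real.log R - Real.log M + 2)) /
          Real.log M ^ 2 := by
    calc _ ≤ ∑ r ∈ Finset.range X, ((Real.log (min ((r : ℝ) + 1) M) + 1 + et * Real.log M) *
          min (1 / ((r : ℝ) + 1)) (K / ((r : ℝ) + 1) ^ 2)) / Real.log M ^ 2 := by
          refine Finset.sum_le_sum fun r _ => ?_
          have h3 := HGN_Bincr (M := M) (by omega) (et := et) hL r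
          calc _ ≤ (Real.log (min ((r : ℝ) + 1) M) + 1 + et * Real.log M) / Real.log M ^ 2 *
                G (r + 1) := mul_le_mul_of_nonneg_right h3 (hG0 _)
            _ = _ := by simp only [hG]; push_cast; ring
      _ = (∑ r ∈ Finset.range X, (Real.log (min ((r : ℝ) + 1) M) + 1 + et * Real.log M) *
          min (1 / ((r : ℝ) + 1)) (K / ((r : ℝ) + 1) ^ 2)) / Real.log M ^ 2 := by
          rw [Finset.sum_div]
      _ ≤ _ := div_le_div_of_nonneg_right (HG_gsum (by omega) hMR het hK0 hK) (by positivity)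
  have h3 : ∑ r ∈ (Finset.Icc 1 X).filter (fun r => rough z r), Wr z M 2 r ^ 2 * h (m * r) / r ≤
      1 + ∑ r ∈ Finset.range X, a (r + 1) * G (r + 1) := by
    rw [HGN_icc]
    have h4 : ∀ i : ℕ, (if rough z (i + 1) then
        Wr z M 2 (i + 1) ^ 2 * h (m * (i + 1)) / ((i + 1 : ℕ) : ℝ) else 0) ≤
        (if i = 0 then 1 else 0) + a (i + 1) * G (i + 1) := by
      intro i
      by_cases hi : i = 0
      · subst hi
        have h5 : a (0 + 1) = 0 := by simp [ha]
        rw [h5]
        simp only [if_true, zero_mul, add_zero, zero_add, mul_one]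
        split_ifs with h6
        · rw [wr_one hM]
          simp only [one_pow, one_mul, Nat.cast_one, div_one]
          exact (hh m).2.1
        · norm_num
      · simp only [hi, if_false, zero_add]
        by_cases h6 : rough z (i + 1)
        · have h7 : a (i + 1) = Wr z M 2 (i + 1) ^ 2 := by
            simp only [ha]; rw [if_pos ⟨h6, by omega⟩]
          rw [if_pos h6, h7, mul_div_assoc]
          refine mul_le_mul_of_nonneg_left ?_ (sq_nonneg _)
          obtain ⟨g1, g2, g3⟩ := hh (m * (i + 1))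
          have hi0 : (0 : ℝ) < ((i + 1 : ℕ) : ℝ) := by positivity
          refine le_min (div_le_div_of_nonneg_right g2 hi0.le) ?_
          rw [div_le_div_iff₀ hi0 (by positivity)]
          have hm1 : (1 : ℝ) ≤ m := by exact_mod_cast hm
          have g4 : h (m * (i + 1)) * ((i + 1 : ℕ) : ℝ) ≤ K := by
            refine le_trans ?_ g3
            refine mul_le_mul_of_nonneg_left ?_ g1
            push_cast
            have : (0 : ℝ) ≤ i := Nat.cast_nonneg _
            nlinarith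
          calc h (m * (i + 1)) * ((i + 1 : ℕ) : ℝ) ^ 2
              = (h (m * (i + 1)) * ((i + 1 : ℕ) : ℝ)) * ((i + 1 : ℕ) : ℝ) := by ring
            _ ≤ K * ((i + 1 : ℕ) : ℝ) := mul_le_mul_of_nonneg_right g4 hi0.le
        · rw [if_neg h6]
          refine mul_nonneg ?_ (hG0 _)
          simp only [ha]; split_ifs <;> positivity
    calc _ ≤ ∑ i ∈ Finset.range X, ((if i = 0 then (1 : ℝ) else 0) + a (i + 1) * G (i + 1)) :=
          Finset.sum_le_sum fun i _ => h4 i
      _ = ∑ i ∈ Finset.range X, (if i = 0 then (1 : ℝ) else 0) +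
          ∑ i ∈ Finset.range X, a (i + 1) * G (i + 1) := Finset.sum_add_distrib
      _ ≤ _ := by
          refine add_le_add ?_ le_rfl
          rw [Finset.sum_ite_eq']
          split_ifs <;> norm_num
  linarith

/-- the size of the bound -/
theorem HG_num {L c lR th : ℝ} (ht0 : 0 < th) (ht1 : th ≤ 1) (hL : 1 / th ≤ L) (hc : 0 ≤ c)
    (hR : lR ≤ 2 * L + c + c * th * L) (hR0 : L ≤ lR) :
    1 + (L ^ 2 / 2 + L + (1 + th * L) * (1 + L) + (L + 1 + th * L) * (lR - L + 2)) / L ^ 2 ≤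
      5 / 2 + (6 * c + 20) * th := by
  have hL0 : 0 < L := lt_of_lt_of_le (by positivity) hL
  set t := 1 / L with ht
  have htp : 0 < t := by positivity
  have hte : t ≤ th := by
    rw [ht, div_le_iff₀ hL0]
    rw [div_le_iff₀ ht0] at hL
    linarith
  have htL : t * L = 1 := by rw [ht]; field_simp
  have e1 : (L ^ 2 / 2 + L + (1 + th * L) * (1 + L) + (L + 1 + th * L) * (lR - L + 2)) / L ^ 2 =
      1 / 2 + t + (t + th) * (t + 1) + (1 + t + th) * ((lR - L + 2) * t) := by
    rw [ht]; field_simp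
  rw [e1]
  set q := (lR - L + 2) * t with hqd
  have hq : q ≤ 1 + (2 * c + 2) * th := by
    have g1 : lR - L + 2 ≤ L + c + c * th * L + 2 := by linarith
    calc q ≤ (L + c + c * th * L + 2) * t := mul_le_mul_of_nonneg_right g1 htp.le
      _ = t * L + c * th * (t * L) + (c + 2) * t := by ring
      _ = 1 + c * th + (c + 2) * t := by rw [htL]; ring
      _ ≤ _ := by nlinarith
  have hq0 : 0 ≤ q := mul_nonneg (by linarith) htp.le
  have hq5 : q ≤ 2 * c + 3 := by nlinarith
  have g4 : (t + th) * (t + 1) ≤ (2 * th) * 2 :=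
    mul_le_mul (by linarith) (by linarith) (by linarith) (by linarith)
  have g5 : (t + th) * q ≤ (2 * th) * (2 * c + 3) :=
    mul_le_mul (by linarith) hq5 hq0 (by linarith)
  nlinarith [g4, g5, hq, hte]

open Classical in
/-- the sum over the Fourier coefficients -/
theorem HG_sum {δ : ℝ} (h0 : -(1 / 4) < δ) (h1 : δ < 1 / 4) {c : ℝ} (hc : 0 ≤ c) {th : ℝ}
    (ht0 : 0 < th) (ht1 : th ≤ 1) :
    ∃ N₀ : ℕ, ∀ N : ℕ, N₀ ≤ N → ∀ (A : ℕ) (a : ℕ → ℝ),
      (∀ k, a k ≠ 0 → smooth (zz N) k ∧ k ≤ A) →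
      ∀ (K : ℝ) (h : ℕ → ℝ), 2 * (MM δ N : ℝ) ≤ K →
      Real.log K ≤ 2 * Real.log (MM δ N) + c + c * th * Real.log (MM δ N) →
      (∀ n, 0 ≤ h n ∧ h n ≤ 1 ∧ h n * n ≤ K) →
        Summable (fun n : ℕ =>
          WW (QA (MM δ N) 2 A) (wA (zz N) (MM δ N) 2 A a) n ^ 2 * h n / n) ∧
        ∑' n : ℕ, WW (QA (MM δ N) 2 A) (wA (zz N) (MM δ N) 2 A a) n ^ 2 * h n / n ≤
          (5 / 2 + (6 * c + 20) * th) * cn (zz N) A a := by
  obtain ⟨N₁, hN₁⟩ := wr_sqM h0 h1 ht0
  obtain ⟨N₂, hN₂⟩ := sizesM h0 h1 ht0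
  refine ⟨max N₁ N₂, fun N hN A a ha K h hKM hlK hh => ?_⟩
  obtain ⟨s1, s2, s3, s4, s5, s6, s7, s8, s9⟩ := hN₂ N (le_trans (le_max_right _ _) hN)
  have hsq := hN₁ N (le_trans (le_max_left _ _) hN)
  set z := zz N with hz
  set M := MM δ N with hMM
  have hM2 : 2 ≤ M := by omega
  have hM1 : (1 : ℝ) ≤ M := by exact_mod_cast (by omega : 1 ≤ M)
  have hK0 : 0 ≤ K := by linarith
  set R := ⌊K⌋₊ with hR
  have hMR : M ≤ R := by
    rw [hR]
    exact Nat.le_floor (by linarith)
  have hR1 : (1 : ℝ) ≤ R := by exact_mod_cast (by omega : 1 ≤ R)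
  have hKR : K ≤ 2 * (R : ℝ) := by
    have := Nat.lt_floor_add_one K
    rw [← hR] at this
    linarith
  have hlR : Real.log R ≤ 2 * Real.log M + c + c * th * Real.log M :=
    (Real.log_le_log (by linarith) (Nat.floor_le hK0)).trans hlK
  have hlMR : Real.log M ≤ Real.log R := Real.log_le_log (by linarith) (by exact_mod_cast hMR)
  have hLet : 1 / th ≤ Real.log M := by
    refine s5.trans (Real.log_le_log (by exact_mod_cast (by omega : 0 < z)) ?_)
    exact_mod_cast s3.le
  set κ := 1 + (Real.log M ^ 2 / 2 + Real.log M + (1 + th * Real.log M) * (1 + Real.log M) +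
        (Real.log M + 1 + th * Real.log M) * (Real.log R - Real.log M + 2)) /
          Real.log M ^ 2 with hκ
  have hκ1 : κ ≤ 5 / 2 + (6 * c + 20) * th := HG_num ht0 ht1 hLet hc hlR hlMR
  have hL0 : 0 < Real.log M := lt_of_lt_of_le (by positivity) hLet
  have hκ0 : 0 ≤ κ := by
    have : 0 ≤ (Real.log M + 1 + th * Real.log M) * (Real.log R - Real.log M + 2) :=
      mul_nonneg (by positivity) (by linarith)
    positivity
  obtain ⟨hsum, -⟩ := phi_al (z := z) (A := A) (a := a) ha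
  have hcn0 : 0 ≤ cn z A a := by
    unfold cn
    exact tsum_nonneg fun m => by split_ifs <;> positivity
  set T : ℕ → ℝ := fun n => WW (QA M 2 A) (wA z M 2 A a) n ^ 2 * h n / n with hT
  have hT0 : ∀ n, 0 ≤ T n := fun n =>
    div_nonneg (mul_nonneg (sq_nonneg _) (hh n).1) (Nat.cast_nonneg _)
  have hWW : ∀ n, 1 ≤ n → WW (QA M 2 A) (wA z M 2 A a) n = Ph A a n * Wr z M 2 n := by
    intro n hn
    first
      | exact ww_factor ha (by norm_num) hn
      | exact ww_factor ha hn
  have hfin : ∀ X : ℕ, ∑ n ∈ Finset.Icc 1 X, T n ≤ κ * cn z A a := by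
    intro X
    have e1 : ∀ n ∈ Finset.Icc 1 X, T n = (fun m r : ℕ => Ph A a m ^ 2 / m *
        (Wr z M 2 r ^ 2 * h (m * r) / r)) (smp z n) (rop z n) := by
      intro n hn
      rw [Finset.mem_Icc] at hn
      simp only [hT]
      rw [hWW n hn.1, ph_smp ha hn.1, wr_rop z M 2 hn.1]
      have g1 := (smp_rop (z := z) hn.1).1
      have g2 : (n : ℝ) = (smp z n : ℝ) * (rop z n : ℝ) := by rw [← Nat.cast_mul, g1]
      rw [g1, g2]
      rw [div_mul_div_comm]
      congr 1
      ring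
    rw [Finset.sum_congr rfl e1]
    calc _ ≤ ∑ m ∈ (Finset.Icc 1 X).filter (fun m => smooth z m),
        ∑ r ∈ (Finset.Icc 1 X).filter (fun r => rough z r), Ph A a m ^ 2 / m *
        (Wr z M 2 r ^ 2 * h (m * r) / r) := by
          refine HGN_split (F := fun m r : ℕ => Ph A a m ^ 2 / m *
            (Wr z M 2 r ^ 2 * h (m * r) / r)) fun m r => ?_
          have := (hh (m * r)).1
          positivity
      _ ≤ ∑ m ∈ (Finset.Icc 1 X).filter (fun m => smooth z m), Ph A a m ^ 2 / m * κ := by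
          refine Finset.sum_le_sum fun m hm => ?_
          rw [Finset.mem_filter, Finset.mem_Icc] at hm
          rw [← Finset.mul_sum]
          refine mul_le_mul_of_nonneg_left ?_ (by positivity)
          exact HG_inner hM2 hMR ht0.le hK0 hKR hsq hh hm.1.1
      _ = κ * ∑ m ∈ Finset.Icc 1 X, (if smooth z m then Ph A a m ^ 2 / m else 0) := by
          rw [← Finset.sum_mul, Finset.sum_filter, mul_comm]
      _ ≤ κ * cn z A a := by
          refine mul_le_mul_of_nonneg_left ?_ hκ0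
          unfold cn
          exact hsum.sum_le_tsum _ fun m _ => by split_ifs <;> positivity
  have hfin2 : ∀ X : ℕ, ∑ n ∈ Finset.range X, T n ≤ κ * cn z A a := by
    intro X
    refine le_trans ?_ (hfin X)
    have e2 : ∑ n ∈ (Finset.range X).filter (fun n => 1 ≤ n), T n = ∑ n ∈ Finset.range X, T n := by
      refine Finset.sum_filter_of_ne fun n _ hn => ?_
      rcases Nat.eq_zero_or_pos n with g | g
      · subst g; simp [hT] at hn
      · exact g
    rw [← e2]
    refine Finset.sum_le_sum_of_subset_of_nonneg ?_ fun n _ _ => hT0 n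
    intro n hn
    rw [Finset.mem_filter, Finset.mem_range] at hn
    rw [Finset.mem_Icc]; omega
  refine ⟨summable_of_sum_range_le hT0 hfin2, ?_⟩
  refine (Real.tsum_le_of_sum_range_le hT0 hfin2).trans ?_
  exact mul_le_mul_of_nonneg_right hκ1 hcn0

end Pool.Agent.LSP
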