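import Pool.Agent.Lib_helper71.LSPM.KHD

/-! LSP, part M: the integral over the heights. -/

namespace Pool.Agent.LSP

open Pool.Agent.LEV Pool.Agent.LVB Pool.Agent.KSL
open Complex MeasureTheory Filter Topology
open scoped ENNReal

theorem INT_ofReal_tsum {ι : Type*} {f : ι → ℝ} (hf : ∀ i, 0 ≤ f i) :
    ENNReal.ofReal (∑' i, f i) ≤ ∑' i, ENNReal.ofReal (f i) := by
  by_cases h : Summable f
  · rw [ENNReal.ofReal_tsum_of_nonneg hf h]
  · rw [tsum_eq_zero_of_not_summable h]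
    simp

/-- the integral over the heights -/
theorem INT_bound {T : ℝ} {ρ : ℝ → ℝ} (hρ : KerL T ρ) {g : ℝ → ℝ} {G : ℝ} (hg : Kg g G)
    (hd : ∀ u, 0 < u → ‖kh ρ u‖ ^ 2 + ‖kh ρ (-u)‖ ^ 2 ≤ g u) : ∃ C : ℝ, 0 < C ∧
    ∀ y₀ : ℝ, 0 < y₀ → ∃ h : ℕ → ℝ,
      (∀ n, 0 ≤ h n ∧ h n ≤ (∫ u in Set.Ioi (0 : ℝ), g u) ∧ h n * n ≤ C / y₀) ∧
      ∀ W : ℕ → ℝ, Summable (fun n : ℕ => W n ^ 2 * h n / n) →
        ∫ y in Set.Ioi y₀, ∑' n : ℕ,
          (‖kh ρ ((n + 1) * y)‖ ^ 2 + ‖kh ρ (-((n + 1) * y))‖ ^ 2) * W (n + 1) ^ 2 ≤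
          ∑' n : ℕ, W n ^ 2 * h n / n := by
  obtain ⟨C, hC, hkh⟩ := kh_decay hρ
  refine ⟨2 * C, by positivity, fun y₀ hy₀ => ?_⟩
  set g1 : ℝ → ℝ := fun u => min (g u) (2 * C / u ^ 2) with hg1
  have hg10 : ∀ u, 0 ≤ g1 u := fun u => le_min (hg.nonneg u) (by positivity)
  have hg1g : ∀ u, g1 u ≤ g u := fun u => min_le_left _ _
  have hmeas : AEStronglyMeasurable g1 (volume.restrict (Set.Ioi (0 : ℝ))) := by
    refine hg.int.aestronglyMeasurable.inf ?_
    exact (measurable_const.div (measurable_id.pow_const 2)).aestronglyMeasurable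
  have hint : IntegrableOn g1 (Set.Ioi 0) := by
    refine Integrable.mono' hg.int hmeas (Eventually.of_forall fun u => ?_)
    rw [Real.norm_of_nonneg (hg10 u)]
    exact hg1g u
  have hsub : ∀ a : ℝ, 0 ≤ a → Set.Ioi a ⊆ Set.Ioi (0 : ℝ) := fun a ha u hu =>
    lt_of_le_of_lt ha hu
  have hinta : ∀ a : ℝ, 0 ≤ a → IntegrableOn g1 (Set.Ioi a) := fun a ha =>
    hint.mono_set (hsub a ha)
  refine ⟨fun n => ∫ u in Set.Ioi (n * y₀), g1 u, fun n => ⟨?_, ?_, ?_⟩, fun W hs => ?_⟩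
  · exact integral_nonneg fun u => hg10 u
  · calc ∫ u in Set.Ioi (n * y₀), g1 u ≤ ∫ u in Set.Ioi (0 : ℝ), g1 u := by
          refine setIntegral_mono_set hint (Eventually.of_forall fun u => hg10 u) ?_
          exact (hsub _ (by positivity)).eventuallyLE
      _ ≤ ∫ u in Set.Ioi (0 : ℝ), g u :=
          setIntegral_mono hint hg.int hg1g
  · rcases Nat.eq_zero_or_pos n with hn | hn
    · subst hn
      simp only [Nat.cast_zero, mul_zero]
      positivity
    · have hn0 : (0 : ℝ) < n := by exact_mod_cast hn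
      have hny : 0 < n * y₀ := by positivity
      have e1 : ∀ u ∈ Set.Ioi ((n : ℝ) * y₀), 2 * C / u ^ 2 = 2 * C * u ^ (-2 : ℝ) := by
        intro u hu
        have hu0 : (0 : ℝ) < u := lt_trans hny hu
        rw [Real.rpow_neg hu0.le, Real.rpow_two]
        rfl
      have hi : IntegrableOn (fun u : ℝ => 2 * C * u ^ (-2 : ℝ)) (Set.Ioi ((n : ℝ) * y₀)) :=
        (integrableOn_Ioi_rpow_of_lt (by norm_num) hny).const_mul _
      have h1 : ∫ u in Set.Ioi ((n : ℝ) * y₀), g1 u ≤ 2 * C / (n * y₀) := by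
        calc ∫ u in Set.Ioi ((n : ℝ) * y₀), g1 u ≤
              ∫ u in Set.Ioi ((n : ℝ) * y₀), 2 * C * u ^ (-2 : ℝ) := by
              refine setIntegral_mono_on (hinta _ hny.le) hi measurableSet_Ioi fun u hu => ?_
              rw [← e1 u hu]
              exact min_le_right _ _
          _ = 2 * C / (n * y₀) := by
              rw [integral_const_mul, integral_Ioi_rpow_of_lt (by norm_num) hny]
              rw [show (-2 : ℝ) + 1 = -1 by norm_num, Real.rpow_neg_one]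
              field_simp
      calc (∫ u in Set.Ioi ((n : ℝ) * y₀), g1 u) * n ≤ 2 * C / (n * y₀) * n :=
            mul_le_mul_of_nonneg_right h1 hn0.le
        _ = 2 * C / y₀ := by field_simp
  · set h : ℕ → ℝ := fun n => ∫ u in Set.Ioi (n * y₀), g1 u with hh
    have hb : ∀ u, 0 < u → ‖kh ρ u‖ ^ 2 + ‖kh ρ (-u)‖ ^ 2 ≤ g1 u := by
      intro u hu
      refine le_min (hd u hu) ?_
      have h1 := hkh u hu.ne'
      have h2 := hkh (-u) (by linarith)
      rw [neg_sq] at h2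
      have : 2 * C / u ^ 2 = C / u ^ 2 + C / u ^ 2 := by ring
      rw [this]
      exact add_le_add h1 h2
    set F : ℕ → ℝ → ℝ := fun n y =>
      (‖kh ρ ((n + 1) * y)‖ ^ 2 + ‖kh ρ (-((n + 1) * y))‖ ^ 2) * W (n + 1) ^ 2 with hF
    have hF0 : ∀ n y, 0 ≤ F n y := fun n y => by positivity
    have hFg : ∀ (n : ℕ) (y : ℝ), y₀ < y → F n y ≤ g1 ((n + 1) * y) * W (n + 1) ^ 2 := by
      intro n y hy
      refine mul_le_mul_of_nonneg_right (hb _ ?_) (sq_nonneg _)
      have : 0 < y := hy₀.trans hy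
      positivity
    -- the integral of one term
    have hterm : ∀ n : ℕ, IntegrableOn (fun y => g1 ((n + 1) * y) * W (n + 1) ^ 2) (Set.Ioi y₀) ∧
        ∫ y in Set.Ioi y₀, g1 ((n + 1) * y) * W (n + 1) ^ 2 =
          W (n + 1) ^ 2 * h (n + 1) / ((n + 1 : ℕ) : ℝ) := by
      intro n
      have hn : (0 : ℝ) < (n : ℝ) + 1 := by positivity
      constructor
      · refine Integrable.mul_const ?_ _
        exact (integrableOn_Ioi_comp_mul_left_iff g1 y₀ hn).2 (hinta _ (by positivity))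
      · rw [integral_mul_const, integral_comp_mul_left_Ioi g1 y₀ hn]
        simp only [hh, smul_eq_mul]
        push_cast
        field_simp
    have hT0 : ∀ n, 0 ≤ W n ^ 2 * h n / n := fun n =>
      div_nonneg (mul_nonneg (sq_nonneg _) (integral_nonneg fun u => hg10 u)) (Nat.cast_nonneg _)
    have hs1 : Summable (fun n : ℕ => W (n + 1) ^ 2 * h (n + 1) / ((n + 1 : ℕ) : ℝ)) :=
      (summable_nat_add_iff 1).2 hs
    have hle : ∑' n : ℕ, W (n + 1) ^ 2 * h (n + 1) / ((n + 1 : ℕ) : ℝ) ≤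
        ∑' n : ℕ, W n ^ 2 * h n / n := by
      rw [hs.tsum_eq_zero_add]
      have := hT0 0
      linarith
    refine le_trans ?_ hle
    have h0 : ∫ y in Set.Ioi y₀, ∑' n : ℕ, F n y ≤
        (∫⁻ y in Set.Ioi y₀, ENNReal.ofReal ‖∑' n : ℕ, F n y‖).toReal := by
      refine (le_abs_self _).trans ?_
      rw [← Real.norm_eq_abs]
      exact norm_integral_le_lintegral_norm _
    refine h0.trans ?_
    refine ENNReal.toReal_le_of_le_ofReal (tsum_nonneg fun n => hT0 (n + 1)) ?_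
    have h1 : ∫⁻ y in Set.Ioi y₀, ENNReal.ofReal ‖∑' n : ℕ, F n y‖ ≤
        ∫⁻ y in Set.Ioi y₀, ∑' n : ℕ, ENNReal.ofReal (g1 ((n + 1) * y) * W (n + 1) ^ 2) := by
      refine setLIntegral_mono' measurableSet_Ioi fun y hy => ?_
      rw [Real.norm_of_nonneg (tsum_nonneg fun n => hF0 n y)]
      refine (INT_ofReal_tsum fun n => hF0 n y).trans ?_
      exact ENNReal.tsum_le_tsum fun n => ENNReal.ofReal_le_ofReal (hFg n y hy)
    refine h1.trans (le_of_eq ?_)
    rw [lintegral_tsum]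
    · rw [ENNReal.ofReal_tsum_of_nonneg (fun n => hT0 (n + 1)) hs1]
      refine tsum_congr fun n => ?_
      rw [← (hterm n).2, ofReal_integral_eq_lintegral_ofReal (hterm n).1]
      exact Eventually.of_forall fun y => mul_nonneg (hg10 _) (sq_nonneg _)
    · intro n
      exact (hterm n).1.aemeasurable.ennreal_ofReal

end Pool.Agent.LSP
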