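import Pool.Agent.Lib_helper41.LSP.Defs
import Pool.Agent.Lib_helper68.KSLF.SRO

/-! LSP, part M: the weights of the fractions in terms of the mollifier. -/

namespace Pool.Agent.LSP

open Pool.Agent.LEV Pool.Agent.LVB Pool.Agent.KSL
open Pool.Agent.FG61 (mu phi cc ff AA Lam)
open Complex MeasureTheory Filter Topology

/-- sums over pairs of a smooth and a rough number -/
theorem SPL_sum {z A R E : ℕ} {f g : ℕ → ℝ} (hf : ∀ k, 1 ≤ k → f k ≠ 0 → smooth z k ∧ k ≤ A)
    (hg : ∀ r, 1 ≤ r → g r ≠ 0 → rough z r ∧ r ≤ R) (hE : A * R ≤ E) (F : ℕ → ℝ) :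
    ∑ e ∈ Finset.Icc 1 E, f (smp z e) * g (rop z e) * F e =
      ∑ k ∈ Finset.Icc 1 A, ∑ r ∈ Finset.Icc 1 R, f k * g r * F (k * r) := by
  rw [← Finset.sum_product']
  symm
  refine Finset.sum_bij_ne_zero (fun x _ _ => x.1 * x.2) ?_ ?_ ?_ ?_
  · rintro ⟨u, r⟩ hx _
    rw [Finset.mem_product, Finset.mem_Icc, Finset.mem_Icc] at hx
    rw [Finset.mem_Icc]
    exact ⟨Nat.mul_pos hx.1.1 hx.2.1, (Nat.mul_le_mul hx.1.2 hx.2.2).trans hE⟩
  · rintro ⟨u, r⟩ hx hx0 ⟨u', r'⟩ hx' hx0' h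
    rw [Finset.mem_product, Finset.mem_Icc, Finset.mem_Icc] at hx hx'
    have h1 : f u ≠ 0 ∧ g r ≠ 0 := by
      constructor
      · intro h0; apply hx0; simp only [h0]; simp
      · intro h0; apply hx0; simp only [h0]; simp
    have h1' : f u' ≠ 0 ∧ g r' ≠ 0 := by
      constructor
      · intro h0; apply hx0'; simp only [h0]; simp
      · intro h0; apply hx0'; simp only [h0]; simp
    have h2 := SRO_unique (hf u hx.1.1 h1.1).1 (hg r hx.2.1 h1.2).1 (hf u' hx'.1.1 h1'.1).1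
      (hg r' hx'.2.1 h1'.2).1 hx.2.1 h
    exact Prod.ext h2.1 h2.2
  · intro q hq hq0
    rw [Finset.mem_Icc] at hq
    obtain ⟨h1, h2, h3, h4, h5⟩ := smp_rop_pr (z := z) hq.1
    have h6 : f (smp z q) ≠ 0 ∧ g (rop z q) ≠ 0 := by
      constructor
      · intro h0; apply hq0; rw [h0]; simp
      · intro h0; apply hq0; rw [h0]; simp
    have h31 : 1 ≤ smp z q := Nat.pos_of_ne_zero h3.1
    have h7 : (smp z q, rop z q) ∈ Finset.Icc 1 A ×ˢ Finset.Icc 1 R := by
      rw [Finset.mem_product, Finset.mem_Icc, Finset.mem_Icc]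
      exact ⟨⟨h31, (hf _ h31 h6.1).2⟩, h5, (hg _ h5 h6.2).2⟩
    refine ⟨(smp z q, rop z q), h7, ?_, h1⟩
    simp only [h1]
    exact hq0
  · rintro ⟨u, r⟩ hx hx0
    rw [Finset.mem_product, Finset.mem_Icc, Finset.mem_Icc] at hx
    have h1 : f u ≠ 0 ∧ g r ≠ 0 := by
      constructor
      · intro h0; apply hx0; simp only [h0]; simp
      · intro h0; apply hx0; simp only [h0]; simp
    obtain ⟨h2, h3⟩ := smp_mul_pr (hf u hx.1.1 h1.1).1 (hg r hx.2.1 h1.2).1 hx.2.1
    simp only [h2, h3]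

/-- `μ * τ = 1` -/
theorem SPL_mutau {n : ℕ} (hn : 1 ≤ n) :
    ∑ p ∈ n.divisorsAntidiagonal, mu p.1 * tau p.2 = 1 := by
  have h : ((ArithmeticFunction.moebius : ArithmeticFunction ℤ) *
      ((ArithmeticFunction.zeta : ArithmeticFunction ℤ) *
        (ArithmeticFunction.zeta : ArithmeticFunction ℤ))) n = 1 := by
    rw [← mul_assoc, ArithmeticFunction.moebius_mul_coe_zeta, one_mul]
    simp [ArithmeticFunction.natCoe_apply, ArithmeticFunction.zeta_apply, show n ≠ 0 by omega]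
  rw [ArithmeticFunction.mul_apply] at h
  have h2 : ((∑ p ∈ n.divisorsAntidiagonal, ArithmeticFunction.moebius p.1 *
      ((ArithmeticFunction.zeta : ArithmeticFunction ℤ) *
        (ArithmeticFunction.zeta : ArithmeticFunction ℤ)) p.2 : ℤ) : ℝ) = ((1 : ℤ) : ℝ) := by
    rw [h]
  push_cast at h2
  rw [← h2]
  refine Finset.sum_congr rfl fun p hp => ?_
  have hp2 := Nat.mem_divisorsAntidiagonal.1 hp
  congr 1
  unfold tau
  rw [ArithmeticFunction.coe_zeta_mul_apply]
  have : ∀ i ∈ p.2.divisors, (ArithmeticFunction.zeta : ArithmeticFunction ℤ) i = 1 := by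
    intro i hi
    have : i ≠ 0 := (Nat.pos_of_mem_divisors hi).ne'
    simp [ArithmeticFunction.natCoe_apply, ArithmeticFunction.zeta_apply, this]
  rw [Finset.sum_congr rfl this]
  simp

/-- sums over factorisations -/
theorem SPL_pairs (R : ℕ) (H : ℕ → ℕ → ℝ) :
    ∑ n ∈ Finset.Icc 1 R, ∑ p ∈ n.divisorsAntidiagonal, H p.1 p.2 =
      ∑ m ∈ Finset.Icc 1 R, ∑ s ∈ Finset.Icc 1 R, if m * s ≤ R then H m s else 0 := by
  rw [← Finset.sum_product', ← Finset.sum_filter]
  have hmaps : ∀ p ∈ (Finset.Icc 1 R ×ˢ Finset.Icc 1 R).filter (fun p : ℕ × ℕ => p.1 * p.2 ≤ R),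
      p.1 * p.2 ∈ Finset.Icc 1 R := by
    intro p hp
    rw [Finset.mem_filter, Finset.mem_product, Finset.mem_Icc, Finset.mem_Icc] at hp
    rw [Finset.mem_Icc]
    exact ⟨Nat.mul_pos hp.1.1.1 hp.1.2.1, hp.2⟩
  rw [← Finset.sum_fiberwise_of_maps_to hmaps]
  refine Finset.sum_congr rfl fun n hn => ?_
  rw [Finset.mem_Icc] at hn
  refine Finset.sum_congr ?_ fun _ _ => rfl
  ext ⟨m, s⟩
  simp only [Nat.mem_divisorsAntidiagonal, Finset.mem_filter, Finset.mem_product, Finset.mem_Icc]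
  constructor
  · rintro ⟨h1, h2⟩
    have hm : m ≠ 0 := by rintro rfl; simp at h1; omega
    have hs : s ≠ 0 := by rintro rfl; simp at h1; omega
    have h3 : m ≤ m * s := Nat.le_mul_of_pos_right m (by omega)
    have h4 : s ≤ m * s := Nat.le_mul_of_pos_left s (by omega)
    exact ⟨⟨⟨⟨by omega, by omega⟩, ⟨by omega, by omega⟩⟩, by omega⟩, h1⟩
  · rintro ⟨-, h2⟩
    exact ⟨h2, by omega⟩

theorem SPL_yE_le {z M K e : ℕ} (hK : 1 ≤ K) (h : yE z M K e ≠ 0) : rough z e ∧ 1 ≤ e ∧ e ≤ K * M := by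
  unfold yE at h
  have hc : rough z e ∧ 1 ≤ e := by
    by_contra hc
    exact h (if_neg hc)
  refine ⟨hc.1, hc.2, ?_⟩
  by_contra hle
  push Not at hle
  apply h
  rw [if_pos hc]
  have h1 : ¬ e ≤ M := by
    have : M ≤ K * M := Nat.le_mul_of_pos_left M hK
    omega
  have h2 : e ∉ PK M K := by
    unfold PK
    rw [Finset.mem_filter, Finset.mem_Ioc]
    rintro ⟨⟨_, h3⟩, _⟩
    omega
  unfold gE
  rw [if_neg h1, if_neg h2]
  simp

/-- the rough part of the coefficients divided by the index -/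
noncomputable def xs (z M K r : ℕ) : ℝ := ∑ m ∈ Finset.Icc 1 (K * M), mu m * yE z M K (r * m)

theorem SPL_xs_supp {z M K r : ℕ} (hr1 : 1 ≤ r) (h : xs z M K r ≠ 0) : rough z r ∧ r ≤ K * M := by
  obtain ⟨m, hm, h1⟩ := Finset.exists_ne_zero_of_sum_ne_zero h
  rw [Finset.mem_Icc] at hm
  have hK : 1 ≤ K := by
    rw [Nat.one_le_iff_ne_zero]
    rintro rfl
    simp at hm
    omega
  have h2 : yE z M K (r * m) ≠ 0 := fun h0 => h1 (by rw [h0, mul_zero])
  obtain ⟨h3, -, h5⟩ := SPL_yE_le hK h2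
  refine ⟨fun p hp hpr => h3 p hp (hpr.mul_right _), ?_⟩
  exact (Nat.le_mul_of_pos_right r (by omega)).trans h5

/-- the rough part of the weights -/
theorem SPL_rough {z M K v : ℕ} (hv : 1 ≤ v) :
    ∑ r ∈ Finset.Icc 1 (K * M), (if v ∣ r then tau (r / v) else 0) * xs z M K r =
      wr z M K v := by
  rcases Nat.eq_zero_or_pos K with hK | hK
  · subst hK
    simp [wr]
  set R := K * M with hR
  -- right side
  have h1 : wr z M K v = ∑ n ∈ Finset.Icc 1 R, ∑ p ∈ n.divisorsAntidiagonal,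
      mu p.1 * tau p.2 * yE z M K (v * (p.1 * p.2)) := by
    unfold wr
    refine Finset.sum_congr rfl fun n hn => ?_
    rw [Finset.mem_Icc] at hn
    have e1 : ∀ p ∈ n.divisorsAntidiagonal, mu p.1 * tau p.2 * yE z M K (v * (p.1 * p.2)) =
        mu p.1 * tau p.2 * yE z M K (v * n) := by
      intro p hp
      rw [(Nat.mem_divisorsAntidiagonal.1 hp).1]
    rw [Finset.sum_congr rfl e1, ← Finset.sum_mul, SPL_mutau hn.1, one_mul]
  rw [h1, SPL_pairs R (fun m s => mu m * tau s * yE z M K (v * (m * s)))]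
  -- remove the condition
  have h2 : ∀ m ∈ Finset.Icc 1 R, ∀ s ∈ Finset.Icc 1 R,
      (if m * s ≤ R then mu m * tau s * yE z M K (v * (m * s)) else 0) =
        mu m * tau s * yE z M K (v * (m * s)) := by
    intro m hm s hs
    split_ifs with h
    · rfl
    · have : yE z M K (v * (m * s)) = 0 := by
        by_contra hne
        have := (SPL_yE_le hK hne).2.2
        have h3 : m * s ≤ v * (m * s) := Nat.le_mul_of_pos_left _ hv
        omega
      rw [this, mul_zero]
  rw [Finset.sum_congr rfl fun m hm => Finset.sum_congr rfl (h2 m hm)]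
  rw [Finset.sum_comm]
  -- left side: `r = v s`
  have h3 : ∀ s ∈ Finset.Icc 1 R, ∑ m ∈ Finset.Icc 1 R, mu m * tau s * yE z M K (v * (m * s)) =
      tau s * xs z M K (v * s) := by
    intro s _
    unfold xs
    rw [Finset.mul_sum]
    refine Finset.sum_congr rfl fun m _ => ?_
    rw [show v * (m * s) = v * s * m by ring]
    ring
  rw [Finset.sum_congr rfl h3]
  symm
  refine Finset.sum_bij_ne_zero (fun s _ _ => v * s) ?_ ?_ ?_ ?_
  · intro s hs h0
    rw [Finset.mem_Icc] at hs ⊢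
    have hx : xs z M K (v * s) ≠ 0 := fun h => h0 (by rw [h, mul_zero])
    have hvs : 1 ≤ v * s := Nat.mul_pos hv hs.1
    exact ⟨hvs, (SPL_xs_supp hvs hx).2⟩
  · intro s _ _ s' _ _ h
    exact Nat.eq_of_mul_eq_mul_left hv h
  · intro r hr h0
    rw [Finset.mem_Icc] at hr
    have hd : v ∣ r := by
      by_contra hd
      rw [if_neg hd, zero_mul] at h0
      exact h0 rfl
    rw [if_pos hd] at h0
    obtain ⟨s, rfl⟩ := hd
    have hs : 1 ≤ s := by
      rw [Nat.one_le_iff_ne_zero]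
      rintro rfl
      omega
    rw [Nat.mul_div_cancel_left s (by omega)] at h0
    refine ⟨s, ?_, h0, rfl⟩
    rw [Finset.mem_Icc]
    exact ⟨hs, (Nat.le_mul_of_pos_left s hv).trans hr.2⟩
  · intro s hs h0
    rw [if_pos (Dvd.intro _ rfl), Nat.mul_div_cancel_left s (by omega)]

/-- divisibility splits -/
theorem SPL_dvd {z k r qs qr : ℕ} (hk : smooth z k) (hr : rough z r) (hqs : smooth z qs)
    (hqr : rough z qr) : qs * qr ∣ k * r ↔ qs ∣ k ∧ qr ∣ r := by
  constructor
  · intro h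
    exact ⟨(SRO_coprime hqs hr).dvd_of_dvd_mul_right ((Dvd.intro _ rfl).trans h),
      (SRO_coprime hk hqr).symm.dvd_of_dvd_mul_left ((Dvd.intro_left _ rfl).trans h)⟩
  · rintro ⟨h1, h2⟩
    exact Nat.mul_dvd_mul h1 h2

theorem SPL_tau {z k r qs qr : ℕ} (hk : smooth z k) (hr : rough z r) (hqs : smooth z qs)
    (hqr : rough z qr) (hr1 : 1 ≤ r) :
    (if qs * qr ∣ k * r then tau (k * r / (qs * qr)) else 0) =
      (if qs ∣ k then tau (k / qs) else 0) * (if qr ∣ r then tau (r / qr) else 0) := by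
  by_cases h : qs ∣ k ∧ qr ∣ r
  · rw [if_pos ((SPL_dvd hk hr hqs hqr).2 h), if_pos h.1, if_pos h.2]
    obtain ⟨⟨u, rfl⟩, ⟨v, rfl⟩⟩ := h
    have h1 : 0 < qs := Nat.pos_of_ne_zero hqs.1
    have h2 : 0 < qr := Nat.pos_of_ne_zero (by rintro rfl; simp at hr1)
    rw [Nat.mul_div_cancel_left u h1, Nat.mul_div_cancel_left v h2,
      show qs * u * (qr * v) = qs * qr * (u * v) by ring,
      Nat.mul_div_cancel_left _ (Nat.mul_pos h1 h2)]
    have hc : Nat.Coprime u v := by
      have := SRO_coprime hk hr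
      exact Nat.Coprime.coprime_mul_left (Nat.Coprime.coprime_mul_left_right this)
    unfold tau
    rw [hc.card_divisors_mul]
    push_cast
    rfl
  · rw [if_neg (fun h' => h ((SPL_dvd hk hr hqs hqr).1 h'))]
    by_cases h1 : qs ∣ k
    · rw [if_neg (fun h2 => h ⟨h1, h2⟩), mul_zero]
    · rw [if_neg h1, zero_mul]

/-- the weights of the fractions -/
theorem wX_eq_wA {z M K A : ℕ} {a : ℕ → ℝ} (ha : ∀ k, a k ≠ 0 → smooth z k ∧ k ≤ A) {q : ℕ}
    (hq : 1 ≤ q) : wX (QA M K A) (xX z M K a) q = wA z M K A a q := by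
  obtain ⟨q1, q2, q3, q4, q5⟩ := smp_rop_pr (z := z) hq
  have h1 : wX (QA M K A) (xX z M K a) q = ∑ e ∈ Finset.Icc 1 (QA M K A),
      (fun k : ℕ => a k / Real.sqrt k) (smp z e) * xs z M K (rop z e) *
        (if q ∣ e then tau (e / q) else 0) := by
    unfold wX
    rw [Finset.sum_filter]
    refine Finset.sum_congr rfl fun e he => ?_
    rw [Finset.mem_Icc] at he
    obtain ⟨e1, e2, e3, e4, e5⟩ := smp_rop_pr (z := z) he.1
    split_ifs with hd
    · have hx : xX z M K a e / e = a (smp z e) / Real.sqrt (smp z e) * xs z M K (rop z e) := by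
        unfold xX xr
        rw [if_neg (by omega)]
        have hs0 : (0 : ℝ) < smp z e := by exact_mod_cast Nat.pos_of_ne_zero e3.1
        have hr0 : (0 : ℝ) < rop z e := by exact_mod_cast e5
        have hsq : Real.sqrt (smp z e) * Real.sqrt (smp z e) = smp z e :=
          Real.mul_self_sqrt hs0.le
        have hsq0 : 0 < Real.sqrt (smp z e) := Real.sqrt_pos.2 hs0
        have he0 : (e : ℝ) = (smp z e : ℝ) * (rop z e : ℝ) := by
          rw [← Nat.cast_mul, e1]
        have hxs : ∑ m ∈ Finset.Icc 1 (K * M), mu m * yE z M K (rop z e * m) =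
          xs z M K (rop z e) := rfl
        rw [hxs]
        rw [he0]
        nth_rw 2 [← hsq]
        field_simp
      rw [hx]
    · rw [mul_zero]
  have h9 := SPL_sum (z := z) (A := A) (R := K * M) (E := QA M K A)
    (f := fun k : ℕ => a k / Real.sqrt k) (g := xs z M K)
    (fun k hk hne => ha k (fun h0 => hne (by simp [h0])))
    (fun r hr hne => SPL_xs_supp hr hne) (by unfold QA; rw [mul_comm])
    (fun e => if q ∣ e then tau (e / q) else 0)
  rw [h1, h9]
  have h2 : ∀ k ∈ Finset.Icc 1 A, ∀ r ∈ Finset.Icc 1 (K * M),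
      a k / Real.sqrt k * xs z M K r * (if q ∣ k * r then tau (k * r / q) else 0) =
      (a k / Real.sqrt k * (if smp z q ∣ k then tau (k / smp z q) else 0)) *
        ((if rop z q ∣ r then tau (r / rop z q) else 0) * xs z M K r) := by
    intro k hk r hr
    rw [Finset.mem_Icc] at hk hr
    by_cases hak : a k = 0
    · rw [hak]; simp
    by_cases hxr : xs z M K r = 0
    · rw [hxr]; simp
    have h3 := SPL_tau (ha k hak).1 (SPL_xs_supp hr.1 hxr).1 q3 q4 hr.1
    rw [q1] at h3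
    rw [h3]
    ring
  rw [Finset.sum_congr rfl fun k hk => Finset.sum_congr rfl (h2 k hk)]
  rw [← Finset.sum_mul_sum, SPL_rough q5]
  unfold wA
  congr 1
  unfold al
  rw [Finset.sum_filter]
  refine Finset.sum_congr rfl fun k _ => ?_
  split_ifs
  · rfl
  · rw [mul_zero]

end Pool.Agent.LSP
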