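import Pool.Agent.Lib_helper71.LSPM.KHD
import Pool.Agent.Lib_helper71.LSPM.INT
import Pool.Agent.Lib_helper71.LSPM.NT
import Pool.Agent.Lib_helper71.LSPM.HG
import Pool.Agent.Lib_helper71.LSPM.GDS
import Pool.Agent.Lib_helper71.LSPM.SPL

/-! LSP, part M: the main term. -/

namespace Pool.Agent.LSP

open Pool.Agent.LEV Pool.Agent.LVB Pool.Agent.KSL
open Pool.Agent.FG61 (mu phi cc ff AA Lam)
open Complex MeasureTheory Filter Topology
open scoped ENNReal

theorem MT_ww {z M K A : ℕ} {a : ℕ → ℝ} (ha : ∀ k, a k ≠ 0 → smooth z k ∧ k ≤ A) (n : ℕ) :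
    WW (QA M K A) (wX (QA M K A) (xX z M K a)) n = WW (QA M K A) (wA z M K A a) n := by
  unfold WW
  refine Finset.sum_congr rfl fun q hq => ?_
  rw [wX_eq_wA ha (Finset.mem_Icc.1 hq).1]

/-- the diagonal terms in terms of two sums -/
theorem MT_diag {T : ℝ} (hT : 1 ≤ T) {E N : ℕ} (hE : 1 ≤ E) (hN : 1 ≤ N) (w : ℕ → ℝ) (C D : ℝ) :
    ∑ q ∈ Finset.Icc 1 E, phi q * w q ^ 2 *
      (C * (2 * Real.log (yo T E) + Real.log ((N : ℝ) * (q : ℝ) ^ 2)) + D) =
    -C * ((2 * Real.log (2 * T) + 2 * Real.log E - Real.log N) *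
      (∑ q ∈ Finset.Icc 1 E, phi q * w q ^ 2) +
      2 * ∑ q ∈ Finset.Icc 1 E, phi q * w q ^ 2 * (Real.log E - Real.log q)) +
    D * ∑ q ∈ Finset.Icc 1 E, phi q * w q ^ 2 := by
  have hE0 : (0 : ℝ) < E := by exact_mod_cast hE
  have hN0 : (0 : ℝ) < N := by exact_mod_cast hN
  have hy : Real.log (yo T E) = -(Real.log (2 * T) + 2 * Real.log E) := by
    unfold yo
    rw [one_div, Real.log_inv, Real.log_mul (by positivity) (by positivity), Real.log_pow]
    push_cast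
    ring
  have h1 : ∀ q ∈ Finset.Icc 1 E, phi q * w q ^ 2 *
      (C * (2 * Real.log (yo T E) + Real.log ((N : ℝ) * (q : ℝ) ^ 2)) + D) =
      -C * ((2 * Real.log (2 * T) + 2 * Real.log E - Real.log N) * (phi q * w q ^ 2) +
        2 * (phi q * w q ^ 2 * (Real.log E - Real.log q))) + D * (phi q * w q ^ 2) := by
    intro q hq
    have hq0 : (0 : ℝ) < q := by exact_mod_cast (Finset.mem_Icc.1 hq).1
    rw [hy, Real.log_mul hN0.ne' (by positivity), Real.log_pow]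
    push_cast
    ring
  rw [Finset.sum_congr rfl h1, Finset.sum_add_distrib, ← Finset.mul_sum, ← Finset.mul_sum,
    Finset.sum_add_distrib, ← Finset.mul_sum, ← Finset.mul_sum]

theorem MT_num {th la cN P R D0 L Cu : ℝ} (ht0 : 0 < th) (ht1 : th ≤ 1 / 100) (htl : th ≤ la)
    (hla1 : la ≤ 1) (hcN : 0 ≤ cN) (hCu : 0 < Cu) (hL : 100 ≤ L) (hthL : 1 ≤ th * L)
    (hP0 : 0 ≤ P) (hR0 : 0 ≤ R) (hlow1 : (1 - 30 * th) * cN / L ≤ P) (hup : P ≤ Cu * cN / L)
    (hlow2 : (1 / 2 - 30 * th) * cN ≤ R) (hD : 2 * L * la - 2 * th ≤ D0) :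
    0 ≤ D0 * P + 2 * R ∧ (1 + 2 * la) * cN - th * (120 + 2 * Cu) * cN ≤ D0 * P + 2 * R ∧
      P ≤ th * (Cu * cN) := by
  have hL0 : 0 < L := by linarith
  have hla0 : 0 < la := by linarith
  have hDnn : 0 ≤ 2 * L * la - 2 * th := by
    have e1 : 1 * la ≤ L * la := mul_le_mul_of_nonneg_right (by linarith) hla0.le
    linarith
  have hPc : (1 - 30 * th) * cN ≤ L * P := by
    rw [div_le_iff₀ hL0] at hlow1
    linarith
  have hPu : L * P ≤ Cu * cN := by
    rw [le_div_iff₀ hL0] at hup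
    linarith
  have hCc : 0 ≤ Cu * cN := by positivity
  have hPu2 : P ≤ th * (Cu * cN) := by
    calc P = 1 * P := (one_mul P).symm
      _ ≤ th * L * P := mul_le_mul_of_nonneg_right hthL hP0
      _ = th * (L * P) := by ring
      _ ≤ th * (Cu * cN) := mul_le_mul_of_nonneg_left hPu ht0.le
  have hPu3 : P ≤ Cu * cN := by
    calc P ≤ th * (Cu * cN) := hPu2
      _ ≤ 1 * (Cu * cN) := mul_le_mul_of_nonneg_right (by linarith) hCc
      _ = Cu * cN := one_mul _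
  have hDP : 2 * la * cN - 60 * th * cN - 2 * th * (Cu * cN) ≤ D0 * P := by
    have e1 : (2 * L * la - 2 * th) * P ≤ D0 * P := mul_le_mul_of_nonneg_right hD hP0
    have e2 : 2 * la * ((1 - 30 * th) * cN) ≤ 2 * la * (L * P) :=
      mul_le_mul_of_nonneg_left hPc (by positivity)
    have e3 : 2 * th * P ≤ 2 * th * (Cu * cN) := mul_le_mul_of_nonneg_left hPu3 (by positivity)
    have e4 : la * (th * cN) ≤ 1 * (th * cN) := mul_le_mul_of_nonneg_right hla1 (by positivity)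
    have e5 : (2 * L * la - 2 * th) * P = 2 * la * (L * P) - 2 * th * P := by ring
    have e6 : 2 * la * ((1 - 30 * th) * cN) = 2 * la * cN - 60 * (la * (th * cN)) := by ring
    have e7 : 60 * th * cN = 60 * (1 * (th * cN)) := by ring
    linarith
  have hDP0 : 0 ≤ D0 * P := mul_nonneg (hDnn.trans hD) hP0
  refine ⟨by linarith, ?_, hPu2⟩
  have e1 : (1 + 2 * la) * cN - th * (120 + 2 * Cu) * cN =
      (2 * la * cN - 60 * th * cN - 2 * th * (Cu * cN)) + 2 * ((1 / 2 - 30 * th) * cN) := by ring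
  rw [e1]
  linarith

theorem MT_LX {κ th L lX : ℝ} (h0 : 0 < κ) (ht1 : th ≤ 1 / 100) (hX : 0 < lX)
    (h : |L - (1 / 2 - -κ) * lX| ≤ th) (hL : 100 ≤ L) : lX ≤ 5 * L := by
  have h1 := (abs_le.1 h).1
  have h2 : 0 < κ * lX := mul_pos h0 hX
  have h3 : (1 / 2 - -κ) * lX = 1 / 2 * lX + κ * lX := by ring
  rw [h3] at h1
  linarith

theorem MT_LK {lC lT l2 L lA c th : ℝ} (hc : c = lC + lT + 2 * l2 + 10) (hA : lA ≤ 5 * th * L)
    (h : 10 * (th * L) ≤ c * (th * L)) :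
    lC + lT + 2 * (l2 + L + lA) ≤ 2 * L + c + c * th * L := by
  have e : c * th * L = c * (th * L) := by ring
  rw [e]
  linarith

theorem MT_D {κ th la L lX lN l2 lT lE lA : ℝ} (h0 : 0 < κ) (ht0 : 0 < th)
    (hla : la = 1 - 1 / (1 + 2 * κ)) (h : |L - (1 / 2 - -κ) * lX| ≤ th)
    (hN : lN ≤ 2 * l2 + lX) (hE : lE = l2 + L + lA) (hA : 0 ≤ lA) (hT : 0 ≤ lT) :
    2 * L * la - 2 * th ≤ 2 * lT + 2 * lE - lN := by
  have e2 : lX ≤ 2 * (L + th) / (1 + 2 * κ) := by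
    rw [le_div_iff₀ (by linarith)]
    have := (abs_le.1 h).1
    linarith
  have e3 : 2 * (L + th) / (1 + 2 * κ) = 2 * L * (1 / (1 + 2 * κ)) +
      2 * th * (1 / (1 + 2 * κ)) := by ring
  have e4 : 2 * th * (1 / (1 + 2 * κ)) ≤ 2 * th * 1 := by
    refine mul_le_mul_of_nonneg_left ?_ (by positivity)
    rw [div_le_one (by linarith)]
    linarith
  have e5 : 2 * L * la = 2 * L - 2 * L * (1 / (1 + 2 * κ)) := by rw [hla]; ring
  rw [hE]
  linarith

theorem MT_final {κ la th cN c I Cu Cl' ε C₀ B : ℝ} (h0 : 0 < κ) (hla : la = 1 - 1 / (1 + 2 * κ))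
    (hB : B = 2 * Real.pi * I * (6 * c + 20) + 120 + 2 * Cu + Real.pi * (Cl' * Cu))
    (hB0 : 0 < B) (ht0 : 0 < th) (hcn : cN ≤ C₀) (htB : th * B * (|C₀| + 1) ≤ ε) :
    2 * Real.pi * (I * ((5 / 2 + (6 * c + 20) * th) * cN)) +
      Real.pi * (-(1 / Real.pi) * ((1 + 2 * la) * cN - th * (120 + 2 * Cu) * cN) +
        Cl' * (th * (Cu * cN))) ≤
      2 * Real.pi * (I * (5 / 2) - 1 / Real.pi * (3 / 2 - 1 / (1 + 2 * κ))) * cN + ε := by
  have hpi := Real.pi_pos
  have e1 : 2 * Real.pi * (I * ((5 / 2 + (6 * c + 20) * th) * cN)) +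
      Real.pi * (-(1 / Real.pi) * ((1 + 2 * la) * cN - th * (120 + 2 * Cu) * cN) +
        Cl' * (th * (Cu * cN))) =
      2 * Real.pi * (I * (5 / 2) - 1 / Real.pi * (3 / 2 - 1 / (1 + 2 * κ))) * cN +
        th * B * cN := by
    rw [hB, hla]
    field_simp
    ring
  rw [e1]
  have e2 : th * B * cN ≤ th * B * (|C₀| + 1) := by
    refine mul_le_mul_of_nonneg_left ?_ (by positivity)
    have := le_abs_self C₀
    linarith
  linarith

/-- the main term -/
theorem main_term_pr {T : ℝ} {ρ : ℝ → ℝ} (hρ : KerL T ρ) {g : ℝ → ℝ} {G : ℝ} (hg : Kg g G)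
    (hd : ∀ u, 0 < u → ‖kh ρ u‖ ^ 2 + ‖kh ρ (-u)‖ ^ 2 ≤ g u) {κ : ℝ} (h0 : 0 < κ)
    (h1 : κ < 1 / 100) {ε : ℝ} (hε : 0 < ε) (C₀ : ℝ) : ∃ ε₁ : ℝ, 0 < ε₁ ∧ ∀ ε₂ : ℝ, 0 < ε₂ →
    ε₂ ≤ ε₁ → ∃ X₀ : ℕ, ∀ X : ℕ, X₀ ≤ X → ∀ a : ℕ → ℝ, Sht (zz X) (KA ε₂ X) a →
    cn (zz X) (KA ε₂ X) a ≤ C₀ → ∀ N : ℕ, X ≤ 2 * N → N ≤ 4 * X →
      sh ρ T (QA (MM (-κ) X) 2 (KA ε₂ X)) (xX (zz X) (MM (-κ) X) 2 a) N ≤
        2 * Real.pi * ((∫ u in Set.Ioi (0 : ℝ), g u) * (5 / 2) -
          1 / Real.pi * (3 / 2 - 1 / (1 + 2 * κ))) * cn (zz X) (KA ε₂ X) a + ε := by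
  have hT := hρ.T1
  have hpi := Real.pi_pos
  have hd0 : -(1 / 4 : ℝ) < -κ := by linarith
  have hd1 : -κ < (1 / 4 : ℝ) := by linarith
  obtain ⟨C, hC, hint⟩ := INT_bound hρ hg hd
  obtain ⟨Cu, hCu, hup⟩ := gd_upperM
  set I := ∫ u in Set.Ioi (0 : ℝ), g u with hI
  have hI0 : 0 ≤ I := integral_nonneg fun u => hg.nonneg u
  set C' : ℝ := max 1 (C / I) with hC'
  have hC'1 : 1 ≤ C' := le_max_left _ _
  set c : ℝ := Real.log C' + Real.log (2 * T) + 2 * Real.log 2 + 10 with hc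
  have hl2 : 0 < Real.log 2 := Real.log_pos (by norm_num)
  have hlT : 0 < Real.log (2 * T) := Real.log_pos (by linarith)
  have hlC : 0 ≤ Real.log C' := Real.log_nonneg hC'1
  have hc0 : 0 ≤ c := by positivity
  have hc10 : 10 ≤ c := by rw [hc]; linarith
  set la : ℝ := 1 - 1 / (1 + 2 * κ) with hla
  have hla0 : 0 < la := by
    rw [hla, sub_pos, div_lt_one (by linarith)]
    linarith
  have hla1 : la ≤ 1 := by
    have : 0 ≤ 1 / (1 + 2 * κ) := by positivity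
    linarith
  set B : ℝ := 2 * Real.pi * I * (6 * c + 20) + 120 + 2 * Cu + Real.pi * (|Cl ρ| * Cu) with hB
  have hB0 : 0 < B := by positivity
  set th : ℝ := min (1 / 100) (min la (ε / (B * (|C₀| + 1)))) with hth
  have ht0 : 0 < th := lt_min (by norm_num) (lt_min hla0 (by positivity))
  have ht1 : th ≤ 1 / 100 := min_le_left _ _
  have htl : th ≤ la := (min_le_right _ _).trans (min_le_left _ _)
  have htB : th * B * (|C₀| + 1) ≤ ε := by
    have : th ≤ ε / (B * (|C₀| + 1)) := (min_le_right _ _).trans (min_le_right _ _)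
    rw [le_div_iff₀ (by positivity)] at this
    linarith
  obtain ⟨N₁, hN₁⟩ := sizesM hd0 hd1 ht0
  obtain ⟨N₂, hN₂⟩ := hup (-κ) hd0 hd1
  obtain ⟨N₃, hN₃⟩ := GDS_low hd0 hd1 ht0 ht1
  obtain ⟨N₄, hN₄⟩ := HG_sum hd0 hd1 hc0 ht0 (by linarith)
  refine ⟨th, ht0, fun ε₂ h2 h2' => ⟨max (max N₁ N₂) (max N₃ N₄),
    fun X hX a ha hcn N hXN hNX => ?_⟩⟩
  obtain ⟨n3, z2, zM, -, lz, -, hM, -, -⟩ := hN₁ X ((le_max_left _ _).trans
    ((le_max_left _ _).trans hX))
  have hup' := hN₂ X ((le_max_right _ _).trans ((le_max_left _ _).trans hX)) (KA ε₂ X) a ha.sup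
  obtain ⟨hlow1, hlow2⟩ := hN₃ X ((le_max_left _ _).trans ((le_max_right _ _).trans hX)) ε₂ h2 h2'
    a ha.sup
  have hhs := hN₄ X ((le_max_right _ _).trans ((le_max_right _ _).trans hX)) (KA ε₂ X) a ha.sup
  obtain ⟨A1, -, A3⟩ := ka_size h2 (show 1 ≤ X by omega)
  have hcn0 := BGB_cn_nonneg (zz X) (KA ε₂ X) a
  set A := KA ε₂ X with hA
  set M := MM (-κ) X with hMd
  set z := zz X with hz
  set E := QA M 2 A with hE
  set cN := cn z A a with hcN
  set L := Real.log M with hL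
  have hX0 : (0 : ℝ) < X := by exact_mod_cast (by omega : 0 < X)
  have hX3 : (3 : ℝ) ≤ X := by exact_mod_cast n3
  have hlX0 : 0 < Real.log X := Real.log_pos (by linarith)
  have hM1 : (1 : ℝ) ≤ M := by exact_mod_cast (by omega : 1 ≤ M)
  have hM0 : (0 : ℝ) < M := by linarith
  have hA1 : (1 : ℝ) ≤ A := by exact_mod_cast A1
  have hlA0 : 0 ≤ Real.log A := Real.log_nonneg hA1
  have hLz : 1 / th ≤ L := by
    refine lz.trans (Real.log_le_log (by exact_mod_cast (by omega : 0 < z)) ?_)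
    exact_mod_cast zM.le
  have hthL : 1 ≤ th * L := by
    rw [div_le_iff₀ ht0] at hLz
    linarith
  have hL100 : 100 ≤ L := by
    refine le_trans ?_ hLz
    rw [le_div_iff₀ ht0]
    linarith
  have hL0 : 0 < L := by linarith
  have hLX : Real.log X ≤ 5 * L := MT_LX h0 ht1 hlX0 hM hL100
  have hEdef : (E : ℝ) = 2 * M * A := by
    rw [hE]
    unfold QA
    push_cast
    ring
  have hE0 : (0 : ℝ) < E := by rw [hEdef]; positivity
  have hE1 : 1 ≤ E := by exact_mod_cast hE0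
  have hlE : Real.log E = Real.log 2 + L + Real.log A := by
    rw [hEdef, Real.log_mul (by positivity) (by positivity), Real.log_mul (by norm_num) hM0.ne']
  have hN1 : 1 ≤ N := by omega
  have hNr : (1 : ℝ) ≤ N := by exact_mod_cast hN1
  -- the two sums
  have hwx : ∀ q ∈ Finset.Icc 1 E, wX E (xX z M 2 a) q = wA z M 2 A a q := fun q hq =>
    wX_eq_wA ha.sup (Finset.mem_Icc.1 hq).1
  set P := ∑ q ∈ Finset.Icc 1 E, phi q * wA z M 2 A a q ^ 2 with hP
  set R := ∑ q ∈ Finset.Icc 1 E, phi q * wA z M 2 A a q ^ 2 * (Real.log E - Real.log q) with hR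
  have hP0 : 0 ≤ P := Finset.sum_nonneg fun q _ => mul_nonneg (GDL_phi_nonneg q) (sq_nonneg _)
  have hR0 : 0 ≤ R := Finset.sum_nonneg fun q hq => by
    rw [Finset.mem_Icc] at hq
    have hq1 : (1 : ℝ) ≤ q := by exact_mod_cast hq.1
    have hqE : (q : ℝ) ≤ E := by exact_mod_cast hq.2
    have := Real.log_le_log (by linarith) hqE
    exact mul_nonneg (mul_nonneg (GDL_phi_nonneg q) (sq_nonneg _)) (by linarith)
  have hdiag : ∑ q ∈ Finset.Icc 1 E, phi q * wX E (xX z M 2 a) q ^ 2 *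
      (Cr ρ * (2 * Real.log (yo T E) + Real.log ((N : ℝ) * (q : ℝ) ^ 2)) + Cl ρ) =
      -Cr ρ * ((2 * Real.log (2 * T) + 2 * Real.log E - Real.log N) * P + 2 * R) + Cl ρ * P := by
    rw [← MT_diag hT hE1 hN1 (wA z M 2 A a) (Cr ρ) (Cl ρ)]
    refine Finset.sum_congr rfl fun q hq => ?_
    rw [hwx q hq]
  -- the integral
  obtain ⟨h, hh, hW⟩ := hint (yo T E) (by unfold yo; positivity)
  have hyo : C / yo T E = C * (2 * T * (E : ℝ) ^ 2) := by
    unfold yo
    field_simp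
  set K : ℝ := C' * (2 * T * (E : ℝ) ^ 2) with hK
  have hKM : 2 * (M : ℝ) ≤ K := by
    have e1 : (2 * M : ℝ) ≤ E := by
      rw [hEdef]
      exact le_mul_of_one_le_right (by positivity) hA1
    have e2 : (1 : ℝ) ≤ E := by exact_mod_cast hE1
    have e3 : (E : ℝ) ≤ (E : ℝ) ^ 2 := by
      rw [sq]
      exact le_mul_of_one_le_left hE0.le e2
    have e4 : (E : ℝ) ^ 2 ≤ 2 * T * (E : ℝ) ^ 2 :=
      le_mul_of_one_le_left (sq_nonneg _) (by linarith)
    have e5 : 2 * T * (E : ℝ) ^ 2 ≤ C' * (2 * T * (E : ℝ) ^ 2) := le_mul_of_one_le_left (by positivity) hC'1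
    linarith
  have hlK : Real.log K ≤ 2 * L + c + c * th * L := by
    have e1 : Real.log K = Real.log C' + Real.log (2 * T) + 2 * Real.log E := by
      rw [hK, Real.log_mul (by positivity) (by positivity),
        Real.log_mul (by positivity) (by positivity), Real.log_pow]
      push_cast
      ring
    have e2 : Real.log A ≤ 5 * th * L := by
      calc Real.log A ≤ ε₂ * Real.log X := A3
        _ ≤ th * Real.log X := mul_le_mul_of_nonneg_right h2' hlX0.le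
        _ ≤ th * (5 * L) := mul_le_mul_of_nonneg_left hLX ht0.le
        _ = 5 * th * L := by ring
    have e3 : 10 * (th * L) ≤ c * (th * L) := mul_le_mul_of_nonneg_right hc10 (by positivity)
    rw [e1, hlE]
    exact MT_LK hc e2 e3
  have hS : Summable (fun n : ℕ => WW E (wX E (xX z M 2 a)) n ^ 2 * h n / n) ∧
      ∑' n : ℕ, WW E (wX E (xX z M 2 a)) n ^ 2 * h n / n ≤
        I * ((5 / 2 + (6 * c + 20) * th) * cN) := by
    have hww : ∀ n, WW E (wX E (xX z M 2 a)) n = WW E (wA z M 2 A a) n := fun n =>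
      MT_ww ha.sup n
    simp only [hww]
    rcases hI0.eq_or_lt with hI1 | hI1
    · have hz0 : ∀ n, h n = 0 := fun n => le_antisymm (by rw [hI1]; exact (hh n).2.1) (hh n).1
      simp only [hz0, mul_zero, zero_div]
      refine ⟨summable_zero, ?_⟩
      rw [tsum_zero, ← hI1, zero_mul]
    · obtain ⟨k1, k2⟩ := hhs K (fun n => h n / I) hKM hlK (fun n => by
        obtain ⟨g1, g2, g3⟩ := hh n
        refine ⟨by positivity, (div_le_one hI1).2 g2, ?_⟩
        rw [hyo] at g3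
        calc h n / I * n = h n * n / I := by ring
          _ ≤ C * (2 * T * (E : ℝ) ^ 2) / I := div_le_div_of_nonneg_right g3 hI1.le
          _ = C / I * (2 * T * (E : ℝ) ^ 2) := by ring
          _ ≤ C' * (2 * T * (E : ℝ) ^ 2) :=
              mul_le_mul_of_nonneg_right (le_max_right _ _) (by positivity))
      have e1 : (fun n : ℕ => WW E (wA z M 2 A a) n ^ 2 * h n / n) =
          fun n : ℕ => I * (WW E (wA z M 2 A a) n ^ 2 * (h n / I) / n) := by
        ext n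
        field_simp
      rw [e1]
      refine ⟨k1.mul_left _, ?_⟩
      rw [tsum_mul_left]
      exact mul_le_mul_of_nonneg_left k2 hI0
  have hInt := (hW _ hS.1).trans hS.2
  -- the size of the logarithms
  set D0 := 2 * Real.log (2 * T) + 2 * Real.log E - Real.log N with hD0
  have hD : 2 * L * la - 2 * th ≤ D0 := by
    have e1 : Real.log N ≤ 2 * Real.log 2 + Real.log X := by
      have : (N : ℝ) ≤ 4 * X := by exact_mod_cast hNX
      calc Real.log N ≤ Real.log (4 * X) := Real.log_le_log (by linarith) this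
        _ = 2 * Real.log 2 + Real.log X := by
            rw [Real.log_mul (by norm_num) hX0.ne', show (4 : ℝ) = 2 ^ 2 by norm_num, Real.log_pow]
            push_cast
            ring
    exact MT_D h0 ht0 hla hM e1 hlE hlA0 hlT.le
  obtain ⟨hdp0, hTot, hPu2⟩ := MT_num ht0 ht1 htl hla1 hcn0 hCu hL100 hthL hP0 hR0 hlow1 hup'
    hlow2 hD
  have hcr := cr_lower hρ.toKer
  have hS2 : -Cr ρ * (D0 * P + 2 * R) + Cl ρ * P ≤
      -(1 / Real.pi) * ((1 + 2 * la) * cN - th * (120 + 2 * Cu) * cN) +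
        |Cl ρ| * (th * (Cu * cN)) := by
    have e1 : 1 / Real.pi * (D0 * P + 2 * R) ≤ Cr ρ * (D0 * P + 2 * R) :=
      mul_le_mul_of_nonneg_right hcr hdp0
    have e2 : 1 / Real.pi * ((1 + 2 * la) * cN - th * (120 + 2 * Cu) * cN) ≤
        1 / Real.pi * (D0 * P + 2 * R) := mul_le_mul_of_nonneg_left hTot (by positivity)
    have e3 : Cl ρ * P ≤ |Cl ρ| * P := mul_le_mul_of_nonneg_right (le_abs_self _) hP0
    have e4 : |Cl ρ| * P ≤ |Cl ρ| * (th * (Cu * cN)) :=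
      mul_le_mul_of_nonneg_left hPu2 (abs_nonneg _)
    linarith
  -- assembly
  have hsh : sh ρ T E (xX z M 2 a) N ≤ 2 * Real.pi * (I * ((5 / 2 + (6 * c + 20) * th) * cN)) +
      Real.pi * (-(1 / Real.pi) * ((1 + 2 * la) * cN - th * (120 + 2 * Cu) * cN) +
        |Cl ρ| * (th * (Cu * cN))) := by
    unfold sh
    rw [hdiag]
    exact add_le_add (mul_le_mul_of_nonneg_left hInt (by positivity))
      (mul_le_mul_of_nonneg_left hS2 hpi.le)
  exact hsh.trans (MT_final h0 hla hB hB0 ht0 hcn htB)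

end Pool.Agent.LSP
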