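import Pool.Agent.Lib_helper41.LSP.Defs
import Pool.Agent.Lib_helper68.KSLF.KEX

/-! LSP: `kernel_existsL` (KSL block KEX of helper50 with the Lipschitz condition). -/

namespace Pool.Agent.LSP

open Pool.Agent.LEV Pool.Agent.LVB Pool.Agent.KSL
open Complex MeasureTheory Filter Topology
open scoped ENNReal

theorem kex_inv_lip (s t : ℝ) : |(1 + s ^ 2)⁻¹ - (1 + t ^ 2)⁻¹| ≤ |s - t| := by
  have hs : 0 < 1 + s ^ 2 := by positivity
  have ht : 0 < 1 + t ^ 2 := by positivity
  have e : (1 + s ^ 2)⁻¹ - (1 + t ^ 2)⁻¹ = (t - s) * ((t + s) / ((1 + s ^ 2) * (1 + t ^ 2))) := by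
    field_simp
    ring
  rw [e, abs_mul, abs_sub_comm t s]
  refine mul_le_of_le_one_right (abs_nonneg _) ?_
  rw [abs_div, abs_of_pos (mul_pos hs ht), div_le_one (mul_pos hs ht), abs_le]
  constructor <;> nlinarith [sq_nonneg (t - 1), sq_nonneg (t + 1), sq_nonneg (s - 1),
    sq_nonneg (s + 1), mul_nonneg (sq_nonneg s) (sq_nonneg t)]

theorem kex_tri_lip {T : ℝ} (hT : 0 < T) (s t : ℝ) : |kex_tri T s - kex_tri T t| ≤ |s - t| / T := by
  unfold kex_tri
  refine (abs_max_sub_max_le_abs _ _ _).trans ?_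
  have e : 1 - |s| / T - (1 - |t| / T) = (|t| - |s|) / T := by ring
  rw [e, abs_div, abs_of_pos hT]
  refine div_le_div_of_nonneg_right ?_ hT.le
  rw [abs_sub_comm s t]
  exact abs_abs_sub_abs_le_abs_sub t s

theorem kex_rho_lip (c : ℝ) {T : ℝ} (hT : 0 < T) :
    ∃ L : ℝ, ∀ s t : ℝ, |kex_rho c T s - kex_rho c T t| ≤ L * |s - t| := by
  refine ⟨|c| / Real.pi * (1 / T + 1), fun s t => ?_⟩
  have hpi := Real.pi_pos
  have e : kex_rho c T s - kex_rho c T t =
      c / Real.pi * ((kex_tri T s - kex_tri T t) * (1 + s ^ 2)⁻¹ +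
        kex_tri T t * ((1 + s ^ 2)⁻¹ - (1 + t ^ 2)⁻¹)) := by
    unfold kex_rho
    have hs : 1 + s ^ 2 ≠ 0 := by positivity
    have ht : 1 + t ^ 2 ≠ 0 := by positivity
    field_simp
    ring
  rw [e, abs_mul, abs_div, abs_of_pos hpi, mul_assoc]
  refine mul_le_mul_of_nonneg_left ?_ (by positivity)
  have h1 : (1 + s ^ 2)⁻¹ ≤ 1 := inv_le_one_of_one_le₀ (by nlinarith [sq_nonneg s])
  have h1' : 0 ≤ (1 + s ^ 2)⁻¹ := by positivity
  have h2 := kex_tri_lip hT s t
  have h3 := kex_inv_lip s t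
  have h4 : |kex_tri T t| ≤ 1 := by
    rw [abs_of_nonneg (kex_tri_nonneg T t)]
    exact kex_tri_le hT t
  calc _ ≤ |(kex_tri T s - kex_tri T t) * (1 + s ^ 2)⁻¹| +
        |kex_tri T t * ((1 + s ^ 2)⁻¹ - (1 + t ^ 2)⁻¹)| := abs_add_le _ _
    _ = |kex_tri T s - kex_tri T t| * (1 + s ^ 2)⁻¹ +
        |kex_tri T t| * |(1 + s ^ 2)⁻¹ - (1 + t ^ 2)⁻¹| := by
        rw [abs_mul, abs_mul, abs_of_nonneg h1']
    _ ≤ |s - t| / T * 1 + 1 * |s - t| :=
        add_le_add (mul_le_mul h2 h1 h1' (by positivity))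
          (mul_le_mul h4 h3 (abs_nonneg _) zero_le_one)
    _ = (1 / T + 1) * |s - t| := by ring

theorem kernel_existsL_pr {ε : ℝ} (hε : 0 < ε) : ∃ (T : ℝ) (ρ g : ℝ → ℝ) (G : ℝ), KerL T ρ ∧
    Kg g G ∧
    (∀ u, 0 < u → ‖kh ρ u‖ ^ 2 + ‖kh ρ (-u)‖ ^ 2 ≤ g u) ∧
    ∫ u in Set.Ioi (0 : ℝ), g u ≤ 1 / Real.pi + ε := by
  have hpi := Real.pi_pos
  have hpi3 := Real.pi_gt_three
  -- choice of x
  have hx0 : Tendsto (fun x : ℝ => x) (𝓝[>] 0) (𝓝 0) := tendsto_id.mono_left nhdsWithin_le_nhds
  have hlim : Tendsto (fun x : ℝ => (kex_m x)⁻¹ ^ 2 / Real.pi + 44 * (kex_m x)⁻¹ ^ 2 * x +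
      20 * (kex_m x)⁻¹ ^ 2 * (x ^ 2 + x ^ 3)) (𝓝[>] 0) (𝓝 ((1 : ℝ)⁻¹ ^ 2 / Real.pi +
        44 * (1 : ℝ)⁻¹ ^ 2 * 0 + 20 * (1 : ℝ)⁻¹ ^ 2 * (0 ^ 2 + 0 ^ 3))) := by
    have hm := (kex_m_tendsto.inv₀ one_ne_zero).pow 2
    exact ((hm.div_const _).add ((hm.const_mul 44).mul hx0)).add
      ((hm.const_mul 20).mul ((hx0.pow 2).add (hx0.pow 3)))
  have hval : (1 : ℝ)⁻¹ ^ 2 / Real.pi + 44 * (1 : ℝ)⁻¹ ^ 2 * 0 +
      20 * (1 : ℝ)⁻¹ ^ 2 * (0 ^ 2 + 0 ^ 3) = 1 / Real.pi := by norm_num
  rw [hval] at hlim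
  have ev1 : ∀ᶠ x in 𝓝[>] (0 : ℝ), (kex_m x)⁻¹ ^ 2 / Real.pi + 44 * (kex_m x)⁻¹ ^ 2 * x +
      20 * (kex_m x)⁻¹ ^ 2 * (x ^ 2 + x ^ 3) < 1 / Real.pi + ε :=
    hlim.eventually_lt_const (by linarith)
  have ev2 : ∀ᶠ x in 𝓝[>] (0 : ℝ), 0 < kex_m x :=
    kex_m_tendsto.eventually_const_lt one_pos
  have ev3 : ∀ᶠ x in 𝓝[>] (0 : ℝ), x ∈ Set.Ioo (0 : ℝ) 1 := Ioo_mem_nhdsGT one_pos
  obtain ⟨x, hF, hm, hx, hx1⟩ := (ev1.and (ev2.and ev3)).exists
  set c := (kex_m x)⁻¹ with hc
  have hc0 : 0 < c := inv_pos.2 hm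
  set T := (x ^ 4)⁻¹ with hTd
  have hT : 0 < T := by positivity
  have hT1 : 1 ≤ T := (one_le_inv₀ (by positivity)).2 (pow_le_one₀ hx.le hx1.le)
  have hdiv : ∀ u : ℝ, 0 < u → 1 / (T * u ^ 2) = x ^ 4 / u ^ 2 := by
    intro u hu
    rw [hTd]
    field_simp
  -- bounds
  have hk1 : ∀ u, 0 < u → kex_k c T u ≤ 2 * c * (x ^ 4 / u ^ 2) := fun u hu => by
    rw [← hdiv u hu]; exact kex_k_pos hc0.le hT hu
  have hk2 : ∀ u, 0 < u → kex_k c T (-u) ≤ 2 * c * (Real.exp (2 * Real.pi * x) *
      Real.exp (-(2 * Real.pi * u)) + x ^ 2 * Real.exp (-(Real.pi * u)) + x ^ 4 / u ^ 2) :=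
    fun u hu => kex_k_neg hc0.le hx hx1.le hu
  have hx4 : x ^ 4 ≤ x ^ 2 := pow_le_pow_of_le_one hx.le hx1.le (by norm_num)
  have hx2 : x ^ 2 ≤ 1 := pow_le_one₀ hx.le hx1.le
  refine ⟨T, kex_rho c T, kex_g c x, 4 * c ^ 2 * 11, ?_, ?_, ?_, ?_⟩
  · refine ⟨⟨hT1, ?_, ?_, ?_, ?_, ?_, ?_⟩, kex_rho_lip c hT⟩
    · unfold kex_rho
      have := kex_tri_cont T
      exact (continuous_const.mul this).div (by fun_prop) (fun t => by positivity)
    · intro t
      have := kex_tri_nonneg T t
      unfold kex_rho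
      positivity
    · intro t
      unfold kex_rho
      rw [kex_tri_neg, neg_sq]
    · intro t ht
      unfold kex_rho
      rw [kex_tri_supp hT ht.le, mul_zero, zero_div]
    · have : ∫ t, kex_rho c T t = c * kex_m x := by
        unfold kex_m
        rw [← integral_const_mul]
        apply integral_congr_ae
        filter_upwards with t
        unfold kex_rho
        ring
      rw [this, hc, inv_mul_cancel₀ hm.ne']
    · refine ⟨2 * c * (Real.exp (2 * Real.pi) + 4), fun u hu => ?_⟩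
      -- sgm is the real part of the mean
      have hsgm : sgm (kex_rho c T) u = (kex_k c T u + kex_k c T (-u)) / 2 := by
        have hcontρ : Continuous (kex_rho c T) := by
          unfold kex_rho
          have := kex_tri_cont T
          exact (continuous_const.mul this).div (by fun_prop) (fun t => by positivity)
        have hcsρ : HasCompactSupport (kex_rho c T) := by
          refine HasCompactSupport.intro (isCompact_Icc (a := -T) (b := T)) (fun t ht => ?_)
          have : T ≤ |t| := by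
            rw [Set.mem_Icc, not_and_or] at ht
            rcases ht with h | h
            · push Not at h; rw [le_abs]; right; linarith
            · push Not at h; rw [le_abs]; left; linarith
          unfold kex_rho
          rw [kex_tri_supp hT this, mul_zero, zero_div]
        have hint : ∀ w : ℝ, Integrable (fun t : ℝ => (kex_rho c T t : ℂ) * (1 - (t : ℂ) * I) *
            cexp (-(2 * Real.pi * w * t : ℝ) * I)) := by
          intro w
          apply Continuous.integrable_of_hasCompactSupport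
          · fun_prop
          · have : HasCompactSupport (fun t : ℝ => (kex_rho c T t : ℂ)) :=
              hcsρ.comp_left (g := fun y : ℝ => (y : ℂ)) (by simp)
            exact (this.mul_right).mul_right
        have h1 : ((kex_k c T u + kex_k c T (-u) : ℝ) : ℂ) =
            ∫ t : ℝ, ((kex_rho c T t : ℂ) * (1 - (t : ℂ) * I) *
              cexp (-(2 * Real.pi * u * t : ℝ) * I) + (kex_rho c T t : ℂ) * (1 - (t : ℂ) * I) *
              cexp (-(2 * Real.pi * (-u) * t : ℝ) * I)) := by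
          rw [integral_add (hint u) (hint (-u)), ofReal_add, ← kex_rep hT u, ← kex_rep hT (-u)]
          rfl
        have h2 := congrArg Complex.re h1
        rw [ofReal_re] at h2
        have h3 : (∫ t : ℝ, ((kex_rho c T t : ℂ) * (1 - (t : ℂ) * I) *
              cexp (-(2 * Real.pi * u * t : ℝ) * I) + (kex_rho c T t : ℂ) * (1 - (t : ℂ) * I) *
              cexp (-(2 * Real.pi * (-u) * t : ℝ) * I))).re =
            ∫ t : ℝ, 2 * (kex_rho c T t * Real.cos (2 * Real.pi * u * t)) := by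
          have h4 := integral_re ((hint u).add (hint (-u)))
          simp only [Pi.add_apply, RCLike.re_to_complex] at h4
          rw [← h4]
          apply integral_congr_ae
          filter_upwards with t
          have h5 : cexp (-(2 * Real.pi * u * t : ℝ) * I) =
              (Real.cos (2 * Real.pi * u * t) : ℂ) - (Real.sin (2 * Real.pi * u * t) : ℂ) * I := by
            rw [← ofReal_neg, exp_ofReal_mul_I, Real.cos_neg, Real.sin_neg]
            push_cast
            ring
          have h6 : cexp (-(2 * Real.pi * (-u) * t : ℝ) * I) =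
              (Real.cos (2 * Real.pi * u * t) : ℂ) + (Real.sin (2 * Real.pi * u * t) : ℂ) * I := by
            have : -(2 * Real.pi * (-u) * t) = 2 * Real.pi * u * t := by ring
            rw [← ofReal_neg, this, exp_ofReal_mul_I]
          rw [h5, h6]
          have h7 : (kex_rho c T t : ℂ) * (1 - (t : ℂ) * I) *
              ((Real.cos (2 * Real.pi * u * t) : ℂ) - (Real.sin (2 * Real.pi * u * t) : ℂ) * I) +
              (kex_rho c T t : ℂ) * (1 - (t : ℂ) * I) *
              ((Real.cos (2 * Real.pi * u * t) : ℂ) + (Real.sin (2 * Real.pi * u * t) : ℂ) * I) =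
              ((2 * (kex_rho c T t * Real.cos (2 * Real.pi * u * t)) : ℝ) : ℂ) +
              ((-(2 * t * (kex_rho c T t * Real.cos (2 * Real.pi * u * t))) : ℝ) : ℂ) * I := by
            push_cast
            ring
          rw [h7, add_re, ofReal_re, re_ofReal_mul, I_re, mul_zero, add_zero]
        rw [h3, integral_const_mul] at h2
        unfold sgm
        linarith
      rw [hsgm]
      have n1 := kex_k_nonneg hc0.le hT u
      have n2 := kex_k_nonneg hc0.le hT (-u)
      rw [abs_of_nonneg (by positivity)]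
      have hE : 0 < Real.exp (2 * Real.pi) := Real.exp_pos _
      have hE1 : Real.exp (2 * Real.pi * x) ≤ Real.exp (2 * Real.pi) :=
        Real.exp_le_exp.2 (by nlinarith)
      by_cases hu1 : u ≤ 1
      · have b1 := kex_k_le_one hc0.le hT u
        have b2 := kex_k_le_one hc0.le hT (-u)
        rw [le_div_iff₀ hu]
        have : (kex_k c T u + kex_k c T (-u)) / 2 ≤ 2 * c := by linarith
        calc (kex_k c T u + kex_k c T (-u)) / 2 * u ≤ 2 * c * 1 :=
              mul_le_mul this hu1 hu.le (by positivity)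
          _ ≤ 2 * c * (Real.exp (2 * Real.pi) + 4) :=
              mul_le_mul_of_nonneg_left (by linarith) (by positivity)
      · push Not at hu1
        have b1 := hk1 u hu
        have b2 := hk2 u hu
        have w1 : x ^ 4 / u ^ 2 ≤ 1 / u := by
          rw [div_le_div_iff₀ (by positivity) hu]
          have : x ^ 4 ≤ 1 := hx4.trans hx2
          nlinarith
        have w2 : Real.exp (-(2 * Real.pi * u)) ≤ 1 / u := by
          rw [Real.exp_neg, ← one_div]
          apply one_div_le_one_div_of_le hu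
          have := Real.add_one_le_exp (2 * Real.pi * u)
          nlinarith
        have w3 : Real.exp (-(Real.pi * u)) ≤ 1 / u := by
          rw [Real.exp_neg, ← one_div]
          apply one_div_le_one_div_of_le hu
          have := Real.add_one_le_exp (Real.pi * u)
          nlinarith
        have w4 : Real.exp (2 * Real.pi * x) * Real.exp (-(2 * Real.pi * u)) ≤
            Real.exp (2 * Real.pi) * (1 / u) := mul_le_mul hE1 w2 (Real.exp_pos _).le hE.le
        have w5 : x ^ 2 * Real.exp (-(Real.pi * u)) ≤ 1 * (1 / u) :=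
          mul_le_mul hx2 w3 (Real.exp_pos _).le zero_le_one
        have w6 : kex_k c T u ≤ 2 * c * (1 / u) :=
          b1.trans (mul_le_mul_of_nonneg_left w1 (by positivity))
        have w7 : kex_k c T (-u) ≤ 2 * c * (Real.exp (2 * Real.pi) * (1 / u) + 1 * (1 / u) + 1 / u) :=
          b2.trans (mul_le_mul_of_nonneg_left (by linarith) (by positivity))
        have w8 : 2 * c * (Real.exp (2 * Real.pi) + 4) / u =
          2 * c * (Real.exp (2 * Real.pi) * (1 / u) + 4 * (1 / u)) := by ring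
        rw [w8]
        have w9 : 0 < 1 / u := by positivity
        have w10 : 0 ≤ 2 * c * (1 / u) := by positivity
        have w11 : 0 ≤ 2 * c * (Real.exp (2 * Real.pi) * (1 / u)) := by positivity
        nlinarith
  · -- the majorant
    have hgle : ∀ u, x < u → Real.exp (4 * Real.pi * x) *
        Real.exp (-(4 * Real.pi) * u) + 5 * (x ^ 2 * Real.exp (-Real.pi * u) + x ^ 4 * (u ^ 2)⁻¹) ≤ 11 := by
      intro u hu
      have hu0 : 0 < u := hx.trans hu
      have a1 : Real.exp (4 * Real.pi * x) * Real.exp (-(4 * Real.pi) * u) ≤ 1 := by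
        rw [← Real.exp_add]
        exact Real.exp_le_one_iff.2 (by nlinarith)
      have a2 : Real.exp (-Real.pi * u) ≤ 1 := Real.exp_le_one_iff.2 (by nlinarith)
      have a3 : x ^ 4 * (u ^ 2)⁻¹ ≤ 1 := by
        rw [← div_eq_mul_inv, div_le_one (by positivity)]
        have : x ^ 2 ≤ u ^ 2 := pow_le_pow_left₀ hx.le hu.le 2
        linarith
      have a4 : x ^ 2 * Real.exp (-Real.pi * u) ≤ 1 := mul_le_one₀ hx2 (Real.exp_pos _).le a2
      linarith
    have hbdd : ∀ u, kex_g c x u ≤ 4 * c ^ 2 * 11 := by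
      intro u
      unfold kex_g
      split_ifs with h
      · exact le_rfl
      · exact mul_le_mul_of_nonneg_left (hgle u (not_le.1 h)) (by positivity)
    refine ⟨?_, ?_, hbdd, ?_⟩
    · intro u hu v hv huv
      have hu0 : 0 < u := hu
      by_cases h1 : u ≤ x
      · have : kex_g c x u = 4 * c ^ 2 * 11 := by unfold kex_g; rw [if_pos h1]
        rw [this]
        exact hbdd v
      · have h2 : ¬ v ≤ x := fun h => h1 (huv.trans h)
        unfold kex_g
        rw [if_neg h1, if_neg h2]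
        apply mul_le_mul_of_nonneg_left _ (by positivity)
        have a1 : Real.exp (-(4 * Real.pi) * v) ≤ Real.exp (-(4 * Real.pi) * u) :=
          Real.exp_le_exp.2 (by nlinarith)
        have a2 : Real.exp (-Real.pi * v) ≤ Real.exp (-Real.pi * u) :=
          Real.exp_le_exp.2 (by nlinarith)
        have a3 : (v ^ 2)⁻¹ ≤ (u ^ 2)⁻¹ :=
          inv_anti₀ (by positivity) (pow_le_pow_left₀ hu0.le huv 2)
        have a4 := mul_le_mul_of_nonneg_left a1 (Real.exp_pos (4 * Real.pi * x)).le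
        have a5 := mul_le_mul_of_nonneg_left a2 (sq_nonneg x)
        have a6 := mul_le_mul_of_nonneg_left a3 (by positivity : 0 ≤ x ^ 4)
        linarith
    · intro u
      unfold kex_g
      split_ifs <;> positivity
    · rw [← Set.Ioc_union_Ioi_eq_Ioi hx.le]
      exact (kex_g_head hx).1.union (kex_g_tail hx).1
  · intro u hu
    rw [kex_rep hT, kex_rep hT, norm_real, norm_real, Real.norm_eq_abs, Real.norm_eq_abs, sq_abs,
      sq_abs]
    have n1 := kex_k_nonneg hc0.le hT u
    have n2 := kex_k_nonneg hc0.le hT (-u)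
    unfold kex_g
    split_ifs with h
    · have b1 := kex_k_le_one hc0.le hT u
      have b2 := kex_k_le_one hc0.le hT (-u)
      have s1 : kex_k c T u ^ 2 ≤ (2 * c) ^ 2 := pow_le_pow_left₀ n1 b1 2
      have s2 : kex_k c T (-u) ^ 2 ≤ (2 * c) ^ 2 := pow_le_pow_left₀ n2 b2 2
      nlinarith [sq_nonneg c]
    · push Not at h
      have b1 := hk1 u hu
      have b2 := hk2 u hu
      set A := Real.exp (2 * Real.pi * x) * Real.exp (-(2 * Real.pi * u)) with hA
      set B1 := x ^ 2 * Real.exp (-(Real.pi * u)) with hB1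
      set C := x ^ 4 / u ^ 2 with hC
      have hA0 : 0 ≤ A := by positivity
      have hB0 : 0 ≤ B1 := by positivity
      have hC0 : 0 ≤ C := by positivity
      have hA1 : A ≤ 1 := by
        rw [hA, ← Real.exp_add]
        exact Real.exp_le_one_iff.2 (by nlinarith)
      have hB1' : B1 ≤ 1 :=
        mul_le_one₀ hx2 (Real.exp_pos _).le (Real.exp_le_one_iff.2 (by nlinarith))
      have hC1 : C ≤ 1 := by
        rw [hC, div_le_one (by positivity)]
        have : x ^ 2 ≤ u ^ 2 := pow_le_pow_left₀ hx.le h.le 2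
        linarith
      have s1 : kex_k c T u ^ 2 ≤ (2 * c * C) ^ 2 := pow_le_pow_left₀ n1 b1 2
      have s2 : kex_k c T (-u) ^ 2 ≤ (2 * c * (A + B1 + C)) ^ 2 := pow_le_pow_left₀ n2 b2 2
      have e1 : Real.exp (4 * Real.pi * x) * Real.exp (-(4 * Real.pi) * u) = A ^ 2 := by
        rw [hA, mul_pow, ← Real.exp_nat_mul, ← Real.exp_nat_mul]
        congr 1 <;> congr 1 <;> push_cast <;> ring
      have e2 : x ^ 2 * Real.exp (-Real.pi * u) = B1 := by rw [hB1, neg_mul]
      have e3 : x ^ 4 * (u ^ 2)⁻¹ = C := by rw [hC, div_eq_mul_inv]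
      rw [e1, e2, e3]
      have key : C ^ 2 + (A + B1 + C) ^ 2 ≤ A ^ 2 + 5 * (B1 + C) := by
        have k1 : (B1 + C) * (2 * A + (B1 + C)) ≤ (B1 + C) * 4 :=
          mul_le_mul_of_nonneg_left (by linarith) (by linarith)
        have k2 : C * C ≤ C * 1 := mul_le_mul_of_nonneg_left hC1 hC0
        nlinarith
      have hc2 : 0 ≤ 4 * c ^ 2 := by positivity
      have := mul_le_mul_of_nonneg_left key hc2
      nlinarith
  · rw [← Set.Ioc_union_Ioi_eq_Ioi hx.le, setIntegral_union (Set.Ioc_disjoint_Ioi le_rfl)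
      measurableSet_Ioi (kex_g_head hx).1 (kex_g_tail hx).1, (kex_g_head hx).2]
    have := (kex_g_tail (c := c) hx).2
    linarith

end Pool.Agent.LSP
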