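import Pool.Agent.Lib_helper71.LSPM.SPL
import Pool.Agent.Lib_helper68.LEV.HPO
import Pool.Agent.Lib_helper68.KSLF.MRB

/-! LSP: `mx_split`. -/

namespace Pool.Agent.LSP

open Pool.Agent.LEV Pool.Agent.LVB Pool.Agent.KSL
open Pool.Agent.FG61 (mu phi cc ff AA Lam)
open Complex MeasureTheory Filter Topology

/-- the coefficients of the rough part -/
theorem SPL_mrbc {z M K r : ℕ} (hr : 1 ≤ r) : mrbc z M K r = Real.sqrt r * xs z M K r := by
  rcases Nat.eq_zero_or_pos K with hK | hK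
  · subst hK
    simp [mrbc, xs]
  unfold mrbc xs
  congr 1
  symm
  refine Finset.sum_bij_ne_zero (fun m _ _ => r * m) ?_ ?_ ?_ ?_
  · intro m hm h0
    rw [Finset.mem_Icc] at hm
    have hy : yE z M K (r * m) ≠ 0 := fun h => h0 (by rw [h, mul_zero])
    obtain ⟨-, h2, h3⟩ := SPL_yE_le hK hy
    rw [Finset.mem_filter, Finset.mem_Icc]
    exact ⟨⟨h2, h3⟩, Dvd.intro _ rfl⟩
  · intro m _ _ m' _ _ h
    exact Nat.eq_of_mul_eq_mul_left hr h
  · intro e he h0
    rw [Finset.mem_filter, Finset.mem_Icc] at he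
    obtain ⟨⟨h1, h2⟩, m, rfl⟩ := he
    have hm : 1 ≤ m := by
      rw [Nat.one_le_iff_ne_zero]
      rintro rfl
      omega
    rw [Nat.mul_div_cancel_left m (by omega)] at h0
    refine ⟨m, ?_, ?_, rfl⟩
    · rw [Finset.mem_Icc]
      exact ⟨hm, (Nat.le_mul_of_pos_left m hr).trans h2⟩
    · rwa [mul_comm]
  · intro m hm h0
    rw [Nat.mul_div_cancel_left m (by omega), mul_comm]

/-- the mollifier and the weights of the fractions in terms of `x` -/
theorem mx_split_pr {z M K A : ℕ} {a : ℕ → ℝ} (ha : ∀ k, a k ≠ 0 → smooth z k ∧ k ≤ A) :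
    (∀ y : ℕ → ℝ, MX (QA M K A) (xX z M K a) y =
      (∑ k ∈ Finset.Icc 1 A, a k * Um k y) * Mr z M K y) ∧
    ∀ q : ℕ, 1 ≤ q → wX (QA M K A) (xX z M K a) q = wA z M K A a q := by
  refine ⟨fun y => ?_, fun q hq => wX_eq_wA ha hq⟩
  have h1 : MX (QA M K A) (xX z M K a) y = ∑ e ∈ Finset.Icc 1 (QA M K A),
      a (smp z e) * mrbc z M K (rop z e) * Um e y := by
    unfold MX
    refine Finset.sum_congr rfl fun e he => ?_
    rw [Finset.mem_Icc] at he
    obtain ⟨e1, e2, e3, e4, e5⟩ := smp_rop_pr (z := z) he.1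
    congr 1
    rw [SPL_mrbc e5]
    unfold xX xr
    rw [if_neg (by omega)]
    have hs0 : (0 : ℝ) < smp z e := by exact_mod_cast Nat.pos_of_ne_zero e3.1
    have hr0 : (0 : ℝ) < rop z e := by exact_mod_cast e5
    have hxs : ∑ m ∈ Finset.Icc 1 (K * M), mu m * yE z M K (rop z e * m) =
      xs z M K (rop z e) := rfl
    rw [hxs]
    have he0 : Real.sqrt e = Real.sqrt (smp z e) * Real.sqrt (rop z e) := by
      rw [← Real.sqrt_mul hs0.le, ← Nat.cast_mul, e1]
    have hsq : Real.sqrt (rop z e) * Real.sqrt (rop z e) = rop z e := Real.mul_self_sqrt hr0.le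
    have h2 : 0 < Real.sqrt (smp z e) := Real.sqrt_pos.2 hs0
    have h3 : 0 < Real.sqrt (rop z e) := Real.sqrt_pos.2 hr0
    rw [he0, div_eq_iff (by positivity)]
    calc a (smp z e) * Real.sqrt (smp z e) * ((rop z e : ℝ) * xs z M K (rop z e)) =
          a (smp z e) * Real.sqrt (smp z e) * ((Real.sqrt (rop z e) * Real.sqrt (rop z e)) *
            xs z M K (rop z e)) := by rw [hsq]
      _ = _ := by ring
  have h9 := SPL_sum (z := z) (A := A) (R := K * M) (E := QA M K A)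
    (f := a) (g := mrbc z M K) (fun k hk hne => ha k hne)
    (fun r hr hne => SPL_xs_supp hr (fun h0 => hne (by rw [SPL_mrbc hr, h0, mul_zero])))
    (by unfold QA; rw [mul_comm]) (fun e => Um e y)
  rw [h1, h9, mrb_exp, Finset.sum_mul_sum]
  refine Finset.sum_congr rfl fun k hk => Finset.sum_congr rfl fun r hr => ?_
  rw [Finset.mem_Icc] at hk hr
  by_cases hak : a k = 0
  · rw [hak]; simp
  by_cases hmr : mrbc z M K r = 0
  · rw [hmr]; simp
  have hrr : rough z r := (SPL_xs_supp hr.1 (fun h0 => hmr (by rw [SPL_mrbc hr.1, h0, mul_zero]))).1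
  rw [HPO_um_mul (SRO_coprime (ha k hak).1 hrr)]
  ring

end Pool.Agent.LSP
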